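import Pool.Agent.V7H65.LP.PD

/-!
# The graph of an instance of the facing problem
-/

set_option autoImplicit false

namespace Pool.Agent.V7H65.LP

open SimpleGraph

/-- An instance of the facing problem: `E` blocks; the relation number `k < K` says that the end
`prt k` of the block `src k` faces the block `tgt k`. The number `T` is the distance up to which
edges must not cross. -/
structure FI where
  /-- distance -/
  T : ℕ
  /-- number of blocks -/
  E : ℕ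
  /-- number of relations -/
  K : ℕ
  /-- source -/
  src : ℕ → ℕ
  /-- end of the source -/
  prt : ℕ → ℕ
  /-- target -/
  tgt : ℕ → ℕ

/-- The vertices: `(w, t)` is the vertex at distance `t` from the `H`-vertex `w` on its spoke. -/
abbrev VT : Type := (ℕ × ℕ) × ℕ

/-- The centre. -/
def ctr : VT := ((0, 0), 0)

/-- The hub. -/
def hub : ℕ × ℕ := (1, 0)

namespace FI

variable (I : FI)

/-- The coordinate of the last block vertex. -/
def c2 : ℕ := I.T + 2 + I.K * (I.T + 1)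

/-- The number of the coordinates. -/
def W : ℕ := I.c2 + I.T + 1

/-- The length of the spokes of rigid vertices. -/
def Lr : ℕ := (I.T + 1) / 2

/-- The length of the other spokes. -/
def Ls : ℕ := I.T / 2 + 1

/-- The coordinates of the anchor path number `k`. -/
def anc (k r : ℕ) : ℕ := I.T + 2 + k * (I.T + 1) + r

/-- The coordinate of the tip of the port `e`. -/
def ecd (e : ℕ) : ℕ := if e = 1 then I.c2 + I.T else 0

/-- The coordinates of the rigid vertices. -/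
def Rig (c : ℕ) : Prop := c = I.T ∨ c = I.T + 1 ∨ c = I.c2

instance : DecidablePred I.Rig := fun c => by unfold Rig; infer_instance

/-- The `H`-vertices. -/
def HV (w : ℕ × ℕ) : Prop := w = hub ∨ (2 ≤ w.1 ∧ w.1 < I.E + 2 ∧ w.2 < I.W)

/-- The rigid vertices. -/
def RV (w : ℕ × ℕ) : Prop := w = hub ∨ (2 ≤ w.1 ∧ w.1 < I.E + 2 ∧ I.Rig w.2)

instance : DecidablePred I.RV := fun c => by unfold RV; infer_instance

/-- The length of the spoke. -/
def len (w : ℕ × ℕ) : ℕ := if I.RV w then I.Lr else I.Ls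

/-- The edges inside a block. -/
def Loc (c c' : ℕ) : Prop :=
  (c' = c + 1 ∧ c' < I.W ∧ ∀ k < I.K, c ≠ I.anc k I.T) ∨
    (c = I.T + 1 ∧ ∃ k < I.K, c' = I.anc k 0) ∨ (c = I.T + 1 ∧ c' = I.c2)

/-- The edges between `H`-vertices. -/
def HArc (w w' : ℕ × ℕ) : Prop :=
  (w = hub ∧ I.RV w' ∧ w' ≠ hub) ∨
    (w.1 = w'.1 ∧ 2 ≤ w.1 ∧ w.1 < I.E + 2 ∧ I.Loc w.2 w'.2) ∨
    ∃ k < I.K, w = (I.src k + 2, I.ecd (I.prt k)) ∧ w' = (I.tgt k + 2, I.anc k I.T)

/-- Adjacency of `H`-vertices. -/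
def HAdj (w w' : ℕ × ℕ) : Prop := I.HArc w w' ∨ I.HArc w' w

/-- The edges. -/
def VArc (v v' : VT) : Prop :=
  (v.2 = 0 ∧ v'.2 = 0 ∧ I.HArc v.1 v'.1) ∨
    (I.HV v.1 ∧ v'.1 = v.1 ∧ v'.2 = v.2 + 1 ∧ v'.2 < I.len v.1) ∨
    (I.HV v.1 ∧ v.2 + 1 = I.len v.1 ∧ v' = ctr)

/-- The graph. -/
def G : SimpleGraph VT := SimpleGraph.fromRel I.VArc

/-- The conditions on the numbers. -/
structure Ok : Prop where
  hT : 1 ≤ I.T
  hsrc : ∀ k < I.K, I.src k < I.E
  htgt : ∀ k < I.K, I.tgt k < I.E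
  hne : ∀ k < I.K, I.src k ≠ I.tgt k

variable {I}

theorem RV.hv {w : ℕ × ℕ} (h : I.RV w) : I.HV w := by
  rcases h with h | ⟨h1, h2, h3⟩
  · exact Or.inl h
  · refine Or.inr ⟨h1, h2, ?_⟩
    unfold Rig c2 at h3
    unfold W c2
    rcases h3 with h | h | h
    · rw [h]; omega
    · rw [h]; omega
    · rw [h]; omega

theorem hv_hub : I.HV hub := Or.inl rfl

theorem rv_hub : I.RV hub := Or.inl rfl

theorem HV.ne_zero {w : ℕ × ℕ} (h : I.HV w) : w.1 ≠ 0 := by
  rcases h with rfl | ⟨h1, _, _⟩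
  · simp [hub]
  · omega

theorem HV.ne_ctr {w : ℕ × ℕ} (h : I.HV w) (t : ℕ) : (w, t) ≠ ctr := by
  intro he
  apply h.ne_zero
  have := congrArg (fun v : VT => v.1.1) he
  simpa [ctr] using this

theorem anc_lt {k r : ℕ} (hk : k < I.K) (hr : r ≤ I.T) : I.anc k r < I.c2 := by
  unfold anc c2
  have : (k + 1) * (I.T + 1) ≤ I.K * (I.T + 1) := Nat.mul_le_mul_right _ hk
  have h2 : (k + 1) * (I.T + 1) = k * (I.T + 1) + (I.T + 1) := by ring
  omega

theorem anc_inj {k r k' r' : ℕ} (hr : r ≤ I.T) (hr' : r' ≤ I.T)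
    (h : I.anc k r = I.anc k' r') : k = k' ∧ r = r' := by
  unfold anc at h
  have h1 : k * (I.T + 1) + r = k' * (I.T + 1) + r' := by omega
  have h2 : k = k' := by
    rcases lt_trichotomy k k' with h3 | h3 | h3
    · exfalso
      have : (k + 1) * (I.T + 1) ≤ k' * (I.T + 1) := Nat.mul_le_mul_right _ h3
      have h4 : (k + 1) * (I.T + 1) = k * (I.T + 1) + (I.T + 1) := by ring
      omega
    · exact h3
    · exfalso
      have : (k' + 1) * (I.T + 1) ≤ k * (I.T + 1) := Nat.mul_le_mul_right _ h3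
      have h4 : (k' + 1) * (I.T + 1) = k' * (I.T + 1) + (I.T + 1) := by ring
      omega
  subst h2
  exact ⟨rfl, by omega⟩

theorem anc_ge (k r : ℕ) : I.T + 2 ≤ I.anc k r := by
  unfold anc
  omega

theorem Loc.lt {c c' : ℕ} (h : I.Loc c c') : c < c' := by
  rcases h with ⟨h1, _, _⟩ | ⟨h1, k, _, h2⟩ | ⟨h1, h2⟩
  · omega
  · have := I.anc_ge k 0
    omega
  · unfold c2 at h2
    omega

theorem Loc.lt_W {c c' : ℕ} (h : I.Loc c c') : c' < I.W := by
  rcases h with ⟨h1, h, _⟩ | ⟨h1, k, hk, h2⟩ | ⟨h1, h2⟩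
  · exact h
  · have := I.anc_lt hk (Nat.zero_le _)
    unfold W
    omega
  · unfold W
    omega

theorem HArc.spec (ok : I.Ok) {w w' : ℕ × ℕ} (h : I.HArc w w') : I.HV w ∧ I.HV w' ∧ w ≠ w' := by
  rcases h with ⟨h1, h2, h3⟩ | ⟨h1, h2, h3, h4⟩ | ⟨k, hk, h1, h2⟩
  · exact ⟨Or.inl h1, h2.hv, by rw [h1]; exact h3.symm⟩
  · refine ⟨Or.inr ⟨h2, h3, h4.lt.trans h4.lt_W⟩, Or.inr ⟨by omega, by omega, h4.lt_W⟩, ?_⟩
    intro he
    have := h4.lt
    rw [he] at this
    exact lt_irrefl _ this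
  · have e1 := ok.hsrc k hk
    have e2 := ok.htgt k hk
    refine ⟨Or.inr ⟨by rw [h1]; simp, by rw [h1]; simp; omega, ?_⟩,
      Or.inr ⟨by rw [h2]; simp, by rw [h2]; simp; omega, ?_⟩, ?_⟩
    · rw [h1]
      simp only [ecd, W]
      split_ifs <;> omega
    · rw [h2]
      have := I.anc_lt hk (le_refl I.T)
      simp only [W]
      omega
    · intro he
      rw [h1, h2, Prod.mk.injEq] at he
      exact ok.hne k hk (by omega)

theorem HAdj.spec (ok : I.Ok) {w w' : ℕ × ℕ} (h : I.HAdj w w') :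
    I.HV w ∧ I.HV w' ∧ w ≠ w' := by
  rcases h with h | h
  · exact h.spec ok
  · have := h.spec ok
    exact ⟨this.2.1, this.1, this.2.2.symm⟩

theorem HAdj.symm {w w' : ℕ × ℕ} (h : I.HAdj w w') : I.HAdj w' w := h.elim Or.inr Or.inl

theorem HAdj.adj (ok : I.Ok) {w w' : ℕ × ℕ} (h : I.HAdj w w') : I.G.Adj (w, 0) (w', 0) := by
  rw [G, SimpleGraph.fromRel_adj]
  have hs := h.spec ok
  refine ⟨fun he => hs.2.2 (congrArg Prod.fst he), ?_⟩
  rcases h with h | h
  · exact Or.inl (Or.inl ⟨rfl, rfl, h⟩)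
  · exact Or.inr (Or.inl ⟨rfl, rfl, h⟩)

theorem len_pos (ok : I.Ok) (w : ℕ × ℕ) : 0 < I.len w := by
  have := ok.hT
  unfold len Lr Ls
  split_ifs <;> omega

theorem len_le (w : ℕ × ℕ) : I.len w ≤ I.Ls := by
  unfold len Lr Ls
  split_ifs <;> omega

theorem len_rigid {w : ℕ × ℕ} (h : I.RV w) : I.len w = I.Lr := if_pos h

theorem len_add {w w' : ℕ × ℕ} (h : I.RV w ∨ I.RV w') : I.len w + I.len w' ≤ I.T + 1 := by
  unfold len Lr Ls
  rcases h with h | h
  · rw [if_pos h]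
    split_ifs <;> omega
  · rw [if_pos h]
    split_ifs <;> omega

theorem adj_step {w : ℕ × ℕ} (hw : I.HV w) {t : ℕ} (ht : t + 1 < I.len w) :
    I.G.Adj (w, t) (w, t + 1) := by
  rw [G, SimpleGraph.fromRel_adj]
  refine ⟨fun he => ?_, Or.inl (Or.inr (Or.inl ⟨hw, rfl, rfl, ht⟩))⟩
  have := congrArg Prod.snd he
  simp at this

theorem adj_end {w : ℕ × ℕ} (hw : I.HV w) {t : ℕ} (ht : t + 1 = I.len w) :
    I.G.Adj (w, t) ctr := by
  rw [G, SimpleGraph.fromRel_adj]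
  exact ⟨hw.ne_ctr t, Or.inl (Or.inr (Or.inr ⟨hw, ht, rfl⟩))⟩

/-- The darts of a spoke. -/
def SD (I : FI) (w : ℕ × ℕ) (v v' : VT) : Prop :=
  ∃ t < I.len w, v = (w, t) ∧ ((v' = (w, t + 1) ∧ t + 1 < I.len w) ∨ (v' = ctr ∧ t + 1 = I.len w))

theorem exists_spoke {w : ℕ × ℕ} (hw : I.HV w) : ∀ n t : ℕ, t + n + 1 = I.len w →
    ∃ p : I.G.Walk (w, t) ctr, p.length = n + 1 ∧ ∀ d ∈ p.darts, I.SD w d.fst d.snd := by
  intro n
  induction n with
  | zero =>
    intro t ht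
    refine ⟨.cons (adj_end hw (by omega)) .nil, by simp, ?_⟩
    intro d hd
    simp only [Walk.darts_cons, Walk.darts_nil, List.mem_singleton] at hd
    subst hd
    exact ⟨t, by omega, rfl, Or.inr ⟨rfl, by omega⟩⟩
  | succ n ih =>
    intro t ht
    obtain ⟨p, hp, hd⟩ := ih (t + 1) (by omega)
    refine ⟨.cons (adj_step hw (t := t) (by omega)) p, by simp [hp], ?_⟩
    intro d hd'
    simp only [Walk.darts_cons, List.mem_cons] at hd'
    rcases hd' with rfl | hd'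
    · exact ⟨t, by omega, rfl, Or.inl ⟨rfl, by omega⟩⟩
    · exact hd d hd'

/-- The spoke of `w`. -/
noncomputable def spk (ok : I.Ok) {w : ℕ × ℕ} (hw : I.HV w) : I.G.Walk (w, 0) ctr :=
  (exists_spoke hw (I.len w - 1) 0 (by have := len_pos ok w; omega)).choose

theorem spk_darts (ok : I.Ok) {w : ℕ × ℕ} (hw : I.HV w) :
    ∀ d ∈ (spk ok hw).darts, I.SD w d.fst d.snd :=
  (exists_spoke hw (I.len w - 1) 0 (by have := len_pos ok w; omega)).choose_spec.2

theorem rw_ctr {w : ℕ × ℕ} (hw : I.HV w) {t : ℕ} (ht : t < I.len w) :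
    RW I.G (I.len w - t) (w, t) ctr := by
  obtain ⟨p, hp, -⟩ := exists_spoke hw (I.len w - t - 1) t (by omega)
  exact ⟨p, by omega⟩

theorem rw_up {w : ℕ × ℕ} (hw : I.HV w) : ∀ {t : ℕ}, t < I.len w → RW I.G t (w, 0) (w, t)
  | 0, _ => RW.refl _
  | t + 1, ht => (rw_up hw (t := t) (by omega)).trans (RW.of_adj (adj_step hw ht))

end FI

end Pool.Agent.V7H65.LP
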