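import Pool.Agent.V7H65.LP.Abs

/-!
# Completeness: the potential of a connector
-/

set_option autoImplicit false

namespace Pool.Agent.V7H65.LP

open SimpleGraph

namespace FI

variable (I : FI)

/-- The potential on anchor paths. -/
def af (k j k' r : ℕ) : ℕ :=
  if k' = k ∧ j = I.tgt k + 2 then I.T - r
  else if (I.src k' = I.src k ∧ I.ecd (I.prt k') = I.ecd (I.prt k)) ∧ j = I.tgt k' + 2 then
    I.T + 1 - r
  else I.T + 1

/-- The potential on `H`-vertices. -/
def phi (k : ℕ) (w : ℕ × ℕ) : ℕ :=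
  if w.2 ≤ I.T then (if w.1 = I.src k + 2 ∧ I.prt k ≠ 1 then w.2 else I.T + 1)
  else if I.c2 ≤ w.2 then
    (if w.1 = I.src k + 2 ∧ I.prt k = 1 then I.c2 + I.T - w.2 else I.T + 1)
  else if w.2 = I.T + 1 then I.T + 1
  else I.af k w.1 ((w.2 - (I.T + 2)) / (I.T + 1)) ((w.2 - (I.T + 2)) % (I.T + 1))

variable {I}

theorem le_c2 : I.T + 2 ≤ I.c2 := by
  unfold c2
  omega

theorem phi_lo {k j c : ℕ} (hc : c ≤ I.T) :
    I.phi k (j, c) = if j = I.src k + 2 ∧ I.prt k ≠ 1 then c else I.T + 1 := by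
  unfold phi
  rw [if_pos hc]

theorem phi_hi {k j c : ℕ} (hc : I.c2 ≤ c) :
    I.phi k (j, c) = if j = I.src k + 2 ∧ I.prt k = 1 then I.c2 + I.T - c else I.T + 1 := by
  have := le_c2 (I := I)
  unfold phi
  rw [if_neg (by simp; omega), if_pos hc]

theorem phi_mid {k j : ℕ} : I.phi k (j, I.T + 1) = I.T + 1 := by
  have := le_c2 (I := I)
  unfold phi
  rw [if_neg (by simp), if_neg (by simp; omega), if_pos rfl]

theorem phi_anc {k j k' r : ℕ} (hk : k' < I.K) (hr : r ≤ I.T) :
    I.phi k (j, I.anc k' r) = I.af k j k' r := by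
  have h1 := I.anc_ge k' r
  have h2 := I.anc_lt hk hr
  have h3 : I.anc k' r - (I.T + 2) = r + (I.T + 1) * k' := by
    unfold anc
    rw [Nat.mul_comm]
    omega
  unfold phi
  rw [if_neg (by simp; omega), if_neg (by simp; omega), if_neg (by simp; omega), h3,
    Nat.add_mul_div_left _ _ (by omega), Nat.add_mul_mod_self_left,
    Nat.div_eq_of_lt (by omega), Nat.mod_eq_of_lt (by omega), Nat.zero_add]

theorem phi_hub {k : ℕ} : I.phi k hub = I.T + 1 := by
  unfold hub
  rw [phi_lo (Nat.zero_le _), if_neg (by omega)]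

theorem af_le {k j k' r : ℕ} : I.af k j k' r ≤ I.T + 1 := by
  unfold af
  split_ifs <;> omega

theorem phi_le {k : ℕ} {w : ℕ × ℕ} : I.phi k w ≤ I.T + 1 := by
  unfold phi
  split_ifs
  all_goals first
    | omega
    | exact af_le

theorem af_step {k j k' r : ℕ} : I.af k j k' r ≤ I.af k j k' (r + 1) + 1 ∧
    I.af k j k' (r + 1) ≤ I.af k j k' r + 1 := by
  unfold af
  split_ifs <;> omega

theorem af_zero {k j k' : ℕ} : I.T ≤ I.af k j k' 0 := by
  unfold af
  split_ifs <;> omega

theorem phi_rigid {k : ℕ} {w : ℕ × ℕ} (h : I.RV w) : I.T ≤ I.phi k w := by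
  obtain ⟨j, c⟩ := w
  rcases h with h | ⟨h1, h2, h3⟩
  · rw [h, phi_hub]
    omega
  · rcases h3 with h3 | h3 | h3
    · simp only at h3
      subst h3
      rw [phi_lo le_rfl]
      split_ifs <;> omega
    · simp only at h3
      subst h3
      rw [phi_mid]
      omega
    · simp only at h3
      subst h3
      rw [phi_hi le_rfl]
      split_ifs <;> omega

/-- The coordinates. -/
theorem coord_cases (c : ℕ) : c ≤ I.T ∨ c = I.T + 1 ∨ I.c2 ≤ c ∨
    ∃ k' < I.K, ∃ r ≤ I.T, c = I.anc k' r := by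
  by_cases h1 : c ≤ I.T
  · exact Or.inl h1
  · by_cases h2 : c = I.T + 1
    · exact Or.inr (Or.inl h2)
    · by_cases h3 : I.c2 ≤ c
      · exact Or.inr (Or.inr (Or.inl h3))
      · refine Or.inr (Or.inr (Or.inr ⟨(c - (I.T + 2)) / (I.T + 1), ?_,
          (c - (I.T + 2)) % (I.T + 1), ?_, ?_⟩))
        · rw [Nat.div_lt_iff_lt_mul (by omega)]
          unfold c2 at h3
          omega
        · have := Nat.mod_lt (c - (I.T + 2)) (show 0 < I.T + 1 by omega)
          omega
        · unfold anc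
          have := Nat.div_add_mod (c - (I.T + 2)) (I.T + 1)
          rw [Nat.mul_comm] at this
          omega

theorem ecd_eq {e e' : ℕ} (hT : 1 ≤ I.T) : I.ecd e = I.ecd e' ↔ (e = 1 ↔ e' = 1) := by
  have := le_c2 (I := I)
  unfold ecd
  split_ifs with h1 h2 h2
  · simp [h1, h2]
  · simp [h1, h2]
    omega
  · simp [h1, h2]
    omega
  · simp [h1, h2]

theorem phi_tip {k k' : ℕ} (hT : 1 ≤ I.T) : I.phi k (I.src k' + 2, I.ecd (I.prt k')) =
    if I.src k' = I.src k ∧ I.ecd (I.prt k') = I.ecd (I.prt k) then 0 else I.T + 1 := by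
  have hc := le_c2 (I := I)
  by_cases h : I.prt k' = 1
  · have e1 : I.ecd (I.prt k') = I.c2 + I.T := by unfold ecd; rw [if_pos h]
    rw [if_congr (and_congr_right fun _ => ecd_eq hT) rfl rfl, e1, phi_hi (by omega)]
    by_cases h2 : I.prt k = 1
    · by_cases h3 : I.src k' = I.src k
      · rw [if_pos ⟨by omega, h2⟩, if_pos ⟨h3, by simp [h, h2]⟩]
        omega
      · rw [if_neg (by omega), if_neg (by tauto)]
    · rw [if_neg (by tauto), if_neg (by tauto)]
  · have e1 : I.ecd (I.prt k') = 0 := by unfold ecd; rw [if_neg h]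
    rw [if_congr (and_congr_right fun _ => ecd_eq hT) rfl rfl, e1, phi_lo (by omega)]
    by_cases h2 : I.prt k = 1
    · rw [if_neg (by tauto), if_neg (by tauto)]
    · by_cases h3 : I.src k' = I.src k
      · rw [if_pos ⟨by omega, h2⟩, if_pos ⟨h3, by simp [h, h2]⟩]
      · rw [if_neg (by omega), if_neg (by tauto)]

theorem phi_atip {k k' : ℕ} (hk : k' < I.K) : I.phi k (I.tgt k' + 2, I.anc k' I.T) =
    if k' = k then 0 else
      if I.src k' = I.src k ∧ I.ecd (I.prt k') = I.ecd (I.prt k) then 1 else I.T + 1 := by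
  rw [phi_anc hk le_rfl]
  unfold af
  by_cases h : k' = k
  · subst h
    simp
  · rw [if_neg (by tauto), if_neg h]
    by_cases h2 : I.src k' = I.src k ∧ I.ecd (I.prt k') = I.ecd (I.prt k)
    · rw [if_pos ⟨h2, rfl⟩, if_pos h2]
      omega
    · rw [if_neg (by tauto), if_neg h2]

theorem phi_arc (ok : I.Ok) {k : ℕ} {w w' : ℕ × ℕ} (h : I.HArc w w') :
    I.phi k w ≤ I.phi k w' + 1 ∧ I.phi k w' ≤ I.phi k w + 1 := by
  have hT := ok.hT
  have hc := le_c2 (I := I)
  rcases h with ⟨h1, h2, h3⟩ | ⟨h1, h2, h3, h4⟩ | ⟨k', hk', h1, h2⟩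
  · have e1 := phi_rigid (k := k) h2
    have e2 := phi_le (I := I) (k := k) (w := w')
    rw [h1, phi_hub]
    omega
  · obtain ⟨j, c⟩ := w
    obtain ⟨j', c'⟩ := w'
    simp only at h1 h2 h3 h4
    subst h1
    rcases h4 with ⟨e1, e2, e3⟩ | ⟨e1, k', hk', e2⟩ | ⟨e1, e2⟩
    · subst e1
      rcases coord_cases (I := I) c with g | g | g | ⟨k', hk', r, hr, g⟩
      · rcases Nat.lt_or_ge c I.T with g' | g'
        · rw [phi_lo g, phi_lo (by omega)]
          split_ifs <;> omega
        · have : c = I.T := by omega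
          subst this
          rw [phi_lo le_rfl, phi_mid]
          split_ifs <;> omega
      · subst g
        rw [phi_mid]
        have e4 := phi_le (I := I) (k := k) (w := (j, I.T + 1 + 1))
        refine ⟨?_, by omega⟩
        rcases coord_cases (I := I) (I.T + 1 + 1) with g | g | g | ⟨k', hk', r, hr, g⟩
        · omega
        · omega
        · rw [phi_hi g]
          split_ifs <;> omega
        · have : r = 0 := by
            unfold anc at g
            omega
          subst this
          rw [g, phi_anc hk' (Nat.zero_le _)]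
          have := af_zero (I := I) (k := k) (j := j) (k' := k')
          omega
      · rw [phi_hi g, phi_hi (by omega)]
        unfold W at e2
        split_ifs <;> omega
      · have hrT : r ≠ I.T := fun h => e3 k' hk' (by rw [g, h])
        have g' : c + 1 = I.anc k' (r + 1) := by
          rw [g]
          unfold anc
          omega
        rw [g', g, phi_anc hk' hr, phi_anc hk' (by omega)]
        exact af_step
    · subst e1
      subst e2
      rw [phi_mid, phi_anc hk' (Nat.zero_le _)]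
      have e4 := af_zero (I := I) (k := k) (j := j) (k' := k')
      have e5 := af_le (I := I) (k := k) (j := j) (k' := k') (r := 0)
      omega
    · subst e1
      subst e2
      rw [phi_mid, phi_hi le_rfl]
      split_ifs <;> omega
  · rw [h1, h2, phi_tip hT, phi_atip hk']
    by_cases h : k' = k
    · subst h
      simp
    · rw [if_neg h]
      split_ifs <;> omega

variable (I)

/-- The potential. -/
def psi (k : ℕ) (v : VT) : ℕ :=
  if v = ctr then I.Ls else min (I.phi k v.1 + v.2) (I.Ls + (I.len v.1 - v.2))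

variable {I}

theorem Ls_Lr : I.Ls + I.Lr = I.T + 1 := by
  unfold Ls Lr
  omega

theorem len_cases (w : ℕ × ℕ) : (I.RV w ∧ I.len w = I.Lr) ∨ I.len w = I.Ls := by
  unfold len
  split_ifs with h
  · exact Or.inl ⟨h, rfl⟩
  · exact Or.inr rfl

theorem psi_zero (ok : I.Ok) {k : ℕ} {w : ℕ × ℕ} (hw : I.HV w) :
    I.psi k (w, 0) = I.phi k w := by
  have h1 := phi_le (I := I) (k := k) (w := w)
  have h2 := Ls_Lr (I := I)
  have hT := ok.hT
  unfold psi
  rw [if_neg (hw.ne_ctr 0)]
  have h3 : I.T + 1 ≤ I.Ls + I.len w := by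
    rcases len_cases (I := I) w with ⟨_, h⟩ | h
    · omega
    · unfold Ls at h ⊢
      omega
  simp only
  omega

theorem psi_adj (ok : I.Ok) {k : ℕ} {v v' : VT} (h : I.G.Adj v v') :
    I.psi k v ≤ I.psi k v' + 1 := by
  have hT := ok.hT
  have key : ∀ v v' : VT, I.VArc v v' → I.psi k v ≤ I.psi k v' + 1 ∧
      I.psi k v' ≤ I.psi k v + 1 := by
    intro v v' h
    rcases h with ⟨h1, h2, h3⟩ | ⟨h1, h2, h3, h4⟩ | ⟨h1, h2, h3⟩
    · have hs := h3.spec ok
      have e1 : v = (v.1, 0) := by rw [← h1]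
      have e2 : v' = (v'.1, 0) := by rw [← h2]
      rw [e1, e2, psi_zero ok hs.1, psi_zero ok hs.2.1]
      exact phi_arc ok h3
    · have e1 : v ≠ ctr := fun he => h1.ne_ctr v.2 he
      have e2 : v' ≠ ctr := by
        intro he
        rw [← h2] at h1
        exact h1.ne_ctr v'.2 he
      unfold psi
      rw [if_neg e1, if_neg e2, h2, h3]
      omega
    · have e1 : v ≠ ctr := fun he => h1.ne_ctr v.2 he
      have h5 := Ls_Lr (I := I)
      have h6 : I.Ls ≤ I.Lr + 1 := by
        unfold Ls Lr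
        omega
      unfold psi
      rw [if_neg e1, if_pos h3]
      rcases len_cases (I := I) v.1 with ⟨h, h'⟩ | h
      · have h7 := phi_rigid (k := k) h
        omega
      · omega
  rw [G, SimpleGraph.fromRel_adj] at h
  rcases h.2 with h | h
  · exact (key _ _ h).1
  · exact (key _ _ h).2

end FI

end Pool.Agent.V7H65.LP
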