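import Pool.Agent.V7H65.LP.Cpl1

/-!
# Completeness: which edges interleave
-/

set_option autoImplicit false

namespace Pool.Agent.V7H65.LP

open SimpleGraph FI

/-- The chords interleave. -/
def Itl (a b c d : ℕ) : Prop :=
  (a < c ∧ c < b ∧ b < d) ∨ (d < a ∧ a < c ∧ c < b) ∨ (b < c ∧ c < a ∧ a < d) ∨
    (d < b ∧ b < c ∧ c < a) ∨ (a < d ∧ d < b ∧ b < c) ∨ (c < a ∧ a < d ∧ d < b) ∨
    (b < d ∧ d < a ∧ a < c) ∨ (c < b ∧ b < d ∧ d < a)

theorem Itl.of_cases {a b c d : ℕ}
    (h : (((a < c ∧ c < b) ∨ (b < c ∧ c < a)) ∧ ((d < a ∧ d < b) ∨ (a < d ∧ b < d))) ∨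
      (((a < d ∧ d < b) ∨ (b < d ∧ d < a)) ∧ ((c < a ∧ c < b) ∨ (a < c ∧ b < c)))) :
    Itl a b c d := by
  rcases h with ⟨h1 | h1, h2 | h2⟩ | ⟨h1 | h1, h2 | h2⟩
  · exact Or.inr (Or.inl ⟨h2.1, h1.1, h1.2⟩)
  · exact Or.inl ⟨h1.1, h1.2, h2.2⟩
  · exact Or.inr (Or.inr (Or.inr (Or.inl ⟨h2.2, h1.1, h1.2⟩)))
  · exact Or.inr (Or.inr (Or.inl ⟨h1.1, h1.2, h2.1⟩))
  · exact Or.inr (Or.inr (Or.inr (Or.inr (Or.inr (Or.inl ⟨h2.1, h1.1, h1.2⟩)))))
  · exact Or.inr (Or.inr (Or.inr (Or.inr (Or.inl ⟨h1.1, h1.2, h2.2⟩))))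
  · exact Or.inr (Or.inr (Or.inr (Or.inr (Or.inr (Or.inr (Or.inr ⟨h2.2, h1.1, h1.2⟩))))))
  · exact Or.inr (Or.inr (Or.inr (Or.inr (Or.inr (Or.inr (Or.inl ⟨h1.1, h1.2, h2.1⟩))))))

theorem Itl.symm {a b c d : ℕ} (h : Itl a b c d) : Itl c d a b := by
  rcases h with h | h | h | h | h | h | h | h
  · exact Itl.of_cases (Or.inr ⟨Or.inl (by omega), Or.inl (by omega)⟩)
  · exact Itl.of_cases (Or.inl ⟨Or.inr (by omega), Or.inr (by omega)⟩)
  · exact Itl.of_cases (Or.inl ⟨Or.inl (by omega), Or.inl (by omega)⟩)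
  · exact Itl.of_cases (Or.inr ⟨Or.inr (by omega), Or.inr (by omega)⟩)
  · exact Itl.of_cases (Or.inr ⟨Or.inr (by omega), Or.inl (by omega)⟩)
  · exact Itl.of_cases (Or.inl ⟨Or.inl (by omega), Or.inr (by omega)⟩)
  · exact Itl.of_cases (Or.inl ⟨Or.inr (by omega), Or.inl (by omega)⟩)
  · exact Itl.of_cases (Or.inr ⟨Or.inl (by omega), Or.inr (by omega)⟩)

/-- An ordering of the blocks with orientations. -/
structure Ord (I : FI) where
  /-- rank -/
  rk : ℕ → ℕ
  /-- orientation -/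
  s : ℕ → Bool
  inj : ∀ i < I.E, ∀ j < I.E, rk i = rk j → i = j
  face : ∀ k < I.K, (rk (I.src k) < rk (I.tgt k) ↔ (s (I.src k) = true ↔ I.prt k = 1))

variable {I : FI} (O : Ord I)

/-- The position inside the block. -/
def Ord.loc (j c : ℕ) : ℕ := if O.s j = true then c else I.W - 1 - c

/-- The position. -/
def Ord.pos (w : ℕ × ℕ) : ℕ :=
  if w.1 < 2 then 0 else 1 + O.rk (w.1 - 2) * I.W + O.loc (w.1 - 2) w.2

theorem Ord.pos_hub : O.pos hub = 0 := by
  unfold Ord.pos hub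
  simp

theorem Ord.pos_bv (j c : ℕ) : O.pos (j + 2, c) = 1 + O.rk j * I.W + O.loc j c := by
  unfold Ord.pos
  simp

theorem Ord.loc_cases (j : ℕ) : (O.s j = true ∧ ∀ c, O.loc j c = c) ∨
    (O.s j ≠ true ∧ ∀ c, O.loc j c = I.W - 1 - c) := by
  by_cases h : O.s j = true
  · exact Or.inl ⟨h, fun c => by unfold Ord.loc; rw [if_pos h]⟩
  · exact Or.inr ⟨h, fun c => by unfold Ord.loc; rw [if_neg h]⟩

theorem Ord.sep {i j : ℕ} (hi : i < I.E) (hj : j < I.E) (hij : i ≠ j) :
    O.rk i * I.W + I.W ≤ O.rk j * I.W ∨ O.rk j * I.W + I.W ≤ O.rk i * I.W := by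
  rcases lt_trichotomy (O.rk i) (O.rk j) with h | h | h
  · left
    have := Nat.mul_le_mul_right I.W h
    rw [Nat.succ_mul] at this
    exact this
  · exact absurd (O.inj i hi j hj h) hij
  · right
    have := Nat.mul_le_mul_right I.W h
    rw [Nat.succ_mul] at this
    exact this

theorem Ord.loc_lt {j c : ℕ} (hc : c < I.W) : O.loc j c < I.W := by
  unfold Ord.loc
  split_ifs <;> omega

theorem Ord.pos_inj {w w' : ℕ × ℕ} (h : I.HV w) (h' : I.HV w') (he : O.pos w = O.pos w') :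
    w = w' := by
  rcases h with h | ⟨h1, h2, h3⟩
  · rcases h' with h' | ⟨h1', h2', h3'⟩
    · rw [h, h']
    · exfalso
      rw [h, O.pos_hub] at he
      unfold Ord.pos at he
      rw [if_neg (by omega)] at he
      omega
  · rcases h' with h' | ⟨h1', h2', h3'⟩
    · exfalso
      rw [h', O.pos_hub] at he
      unfold Ord.pos at he
      rw [if_neg (by omega)] at he
      omega
    · obtain ⟨j, c⟩ := w
      obtain ⟨j', c'⟩ := w'
      obtain ⟨j, rfl⟩ : ∃ i, j = i + 2 := ⟨j - 2, by simp only at h1; omega⟩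
      obtain ⟨j', rfl⟩ : ∃ i, j' = i + 2 := ⟨j' - 2, by simp only at h1'; omega⟩
      simp only at h2 h3 h2' h3'
      rw [O.pos_bv, O.pos_bv] at he
      have l1 := O.loc_lt (j := j) h3
      have l2 := O.loc_lt (j := j') h3'
      by_cases hjj : j = j'
      · subst hjj
        have : c = c' := by
          rcases O.loc_cases j with ⟨_, h⟩ | ⟨_, h⟩
          · rw [h, h] at he
            omega
          · rw [h, h] at he
            omega
        rw [this]
      · exfalso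
        rcases O.sep (i := j) (j := j') (by omega) (by omega) hjj with h | h <;> omega

/-- The two ends of the connector `k`. -/
def cA (I : FI) (k : ℕ) : ℕ × ℕ := (I.src k + 2, I.ecd (I.prt k))

/-- The two ends of the connector `k`. -/
def cB (I : FI) (k : ℕ) : ℕ × ℕ := (I.tgt k + 2, I.anc k I.T)

/-- The edge `w w'` is far from the connector `k`. -/
def FarC (I : FI) (k : ℕ) (w w' : ℕ × ℕ) : Prop := I.T < I.phi k w ∧ I.T < I.phi k w'

theorem rv_cases {w : ℕ × ℕ} (h : I.RV w) (hh : w ≠ hub) :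
    ∃ j c, w = (j + 2, c) ∧ j < I.E ∧ I.Rig c := by
  rcases h with h | ⟨h1, h2, h3⟩
  · exact absurd h hh
  · exact ⟨w.1 - 2, w.2, by ext <;> simp; omega, by omega, h3⟩

theorem loc_cases2 {c c' : ℕ} (h : I.Loc c c') : c' = c + 1 ∨
    (c = I.T + 1 ∧ ∃ k' < I.K, c' = I.anc k' 0) ∨ (c = I.T + 1 ∧ c' = I.c2) := by
  rcases h with ⟨h1, _, _⟩ | ⟨h1, h2⟩ | h
  · exact Or.inl h1
  · exact Or.inr (Or.inl ⟨h1, h2⟩)
  · exact Or.inr (Or.inr h)

theorem loc_three {c c' : ℕ} (h : I.Loc c c') :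
    c' = c + 1 ∨ (c = I.T + 1 ∧ I.T + 2 ≤ c' ∧ c' ≤ I.c2) := by
  rcases loc_cases2 h with h | ⟨h1, k', hk', h2⟩ | ⟨h1, h2⟩
  · exact Or.inl h
  · have := I.anc_ge k' 0
    have := anc_lt hk' (Nat.zero_le I.T)
    exact Or.inr ⟨h1, by omega, by omega⟩
  · have := le_c2 (I := I)
    exact Or.inr ⟨h1, by omega, by omega⟩

theorem loc_W {c c' : ℕ} (h : I.Loc c c') : c < I.W ∧ c' < I.W :=
  ⟨h.lt.trans h.lt_W, h.lt_W⟩

/-- Hub edges and block edges do not interleave. -/
theorem itl_hub_loc {w : ℕ × ℕ} (h : I.RV w) (hh : w ≠ hub) {l c c' : ℕ} (hl : l < I.E)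
    (hc : I.Loc c c') (hi : Itl (O.pos hub) (O.pos w) (O.pos (l + 2, c)) (O.pos (l + 2, c'))) :
    False := by
  obtain ⟨j, d, rfl, hj, hd⟩ := rv_cases h hh
  rw [O.pos_hub, O.pos_bv, O.pos_bv, O.pos_bv] at hi
  have hc2 := le_c2 (I := I)
  have hW : I.W = I.c2 + I.T + 1 := rfl
  have hcW := loc_W hc
  have hdW : d < I.W := by
    rcases hd with h | h | h <;> omega
  have l1 := O.loc_lt (j := j) hdW
  have l2 := O.loc_lt (j := l) hcW.1
  have l3 := O.loc_lt (j := l) hcW.2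
  by_cases hjl : j = l
  · subst hjl
    have h3 := loc_three hc
    have hdd : d = I.T ∨ d = I.T + 1 ∨ d = I.c2 := hd
    rcases O.loc_cases j with ⟨_, h⟩ | ⟨_, h⟩
    · simp only [h] at hi l1 l2 l3
      unfold Itl at hi
      omega
    · simp only [h] at hi l1 l2 l3
      unfold Itl at hi
      omega
  · unfold Itl at hi
    rcases O.sep hj hl hjl with h | h <;> omega

/-- Block edges do not interleave. -/
theorem itl_loc_loc {j b b' l c c' : ℕ} (hj : j < I.E) (hl : l < I.E) (hb : I.Loc b b')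
    (hc : I.Loc c c')
    (hi : Itl (O.pos (j + 2, b)) (O.pos (j + 2, b')) (O.pos (l + 2, c)) (O.pos (l + 2, c'))) :
    False := by
  rw [O.pos_bv, O.pos_bv, O.pos_bv, O.pos_bv] at hi
  have hc2 := le_c2 (I := I)
  have hW : I.W = I.c2 + I.T + 1 := rfl
  have hcW := loc_W hc
  have hbW := loc_W hb
  have l1 := O.loc_lt (j := j) hbW.1
  have l2 := O.loc_lt (j := j) hbW.2
  have l3 := O.loc_lt (j := l) hcW.1
  have l4 := O.loc_lt (j := l) hcW.2
  by_cases hjl : j = l
  · subst hjl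
    have h3 := loc_three hc
    have h4 := loc_three hb
    rcases O.loc_cases j with ⟨_, h⟩ | ⟨_, h⟩
    · simp only [h] at hi l1 l2 l3 l4
      unfold Itl at hi
      omega
    · simp only [h] at hi l1 l2 l3 l4
      unfold Itl at hi
      omega
  · unfold Itl at hi
    rcases O.sep hj hl hjl with h | h <;> omega

/-- The position of the tip of the port and its side. -/
theorem Ord.tip (ok : I.Ok) {k : ℕ} (hk : k < I.K) :
    (O.pos (cA I k) = O.rk (I.src k) * I.W + I.W ∧ O.s (I.src k) = true ∧ I.prt k = 1 ∧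
        O.rk (I.src k) * I.W + I.W ≤ O.rk (I.tgt k) * I.W) ∨
      (O.pos (cA I k) = 1 + O.rk (I.src k) * I.W ∧ O.s (I.src k) = true ∧ I.prt k ≠ 1 ∧
        O.rk (I.tgt k) * I.W + I.W ≤ O.rk (I.src k) * I.W) ∨
      (O.pos (cA I k) = 1 + O.rk (I.src k) * I.W ∧ O.s (I.src k) ≠ true ∧ I.prt k = 1 ∧
        O.rk (I.tgt k) * I.W + I.W ≤ O.rk (I.src k) * I.W) ∨
      (O.pos (cA I k) = O.rk (I.src k) * I.W + I.W ∧ O.s (I.src k) ≠ true ∧ I.prt k ≠ 1 ∧
        O.rk (I.src k) * I.W + I.W ≤ O.rk (I.tgt k) * I.W) := by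
  have hW : I.W = I.c2 + I.T + 1 := rfl
  have hf := O.face k hk
  have hi := ok.hsrc k hk
  have hj := ok.htgt k hk
  have hne := ok.hne k hk
  have lt1 : O.rk (I.src k) < O.rk (I.tgt k) →
      O.rk (I.src k) * I.W + I.W ≤ O.rk (I.tgt k) * I.W := by
    intro h
    have := Nat.mul_le_mul_right I.W h
    rw [Nat.succ_mul] at this
    exact this
  have lt2 : ¬ O.rk (I.src k) < O.rk (I.tgt k) →
      O.rk (I.tgt k) * I.W + I.W ≤ O.rk (I.src k) * I.W := by
    intro h
    have h' : O.rk (I.tgt k) < O.rk (I.src k) := by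
      rcases lt_trichotomy (O.rk (I.src k)) (O.rk (I.tgt k)) with h1 | h1 | h1
      · exact absurd h1 h
      · exact absurd (O.inj _ hi _ hj h1) hne
      · exact h1
    have := Nat.mul_le_mul_right I.W h'
    rw [Nat.succ_mul] at this
    exact this
  unfold cA
  rw [O.pos_bv]
  by_cases hs : O.s (I.src k) = true
  · by_cases hp : I.prt k = 1
    · left
      refine ⟨?_, hs, hp, lt1 (hf.2 (by simp [hs, hp]))⟩
      unfold Ord.loc ecd
      rw [if_pos hs, if_pos hp]
      omega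
    · right; left
      refine ⟨?_, hs, hp, lt2 (fun h => ?_)⟩
      · unfold Ord.loc ecd
        rw [if_pos hs, if_neg hp]
        omega
      · exact hp ((hf.1 h).1 hs)
  · by_cases hp : I.prt k = 1
    · right; right; left
      refine ⟨?_, hs, hp, lt2 (fun h => ?_)⟩
      · unfold Ord.loc ecd
        rw [if_neg hs, if_pos hp]
        omega
      · exact hs ((hf.1 h).2 hp)
    · right; right; right
      refine ⟨?_, hs, hp, lt1 (hf.2 (by simp [hs, hp]))⟩
      unfold Ord.loc ecd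
      rw [if_neg hs, if_neg hp]
      omega

/-- The position of the tip of the anchor. -/
theorem Ord.atip {k : ℕ} (hk : k < I.K) :
    O.pos (cB I k) = 1 + O.rk (I.tgt k) * I.W + O.loc (I.tgt k) (I.anc k I.T) ∧
      O.loc (I.tgt k) (I.anc k I.T) < I.W := by
  unfold cB
  refine ⟨O.pos_bv _ _, O.loc_lt ?_⟩
  have := anc_lt hk (le_refl I.T)
  unfold FI.W
  omega

/-- Connectors and hub edges. -/
theorem itl_con_hub (ok : I.Ok) {k : ℕ} (hk : k < I.K) {w : ℕ × ℕ} (h : I.RV w) (hh : w ≠ hub)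
    (hi : Itl (O.pos (cA I k)) (O.pos (cB I k)) (O.pos hub) (O.pos w)) : FarC I k hub w := by
  have hc2 := le_c2 (I := I)
  have hW : I.W = I.c2 + I.T + 1 := rfl
  refine ⟨by rw [phi_hub]; omega, ?_⟩
  obtain ⟨j, c, rfl, hj, hc⟩ := rv_cases h hh
  obtain ⟨hb, hb'⟩ := O.atip hk
  rw [hb, O.pos_hub, O.pos_bv] at hi
  have ht := O.tip ok hk
  rcases hc with hc | hc | hc
  · subst hc
    rw [phi_lo le_rfl]
    split_ifs with he
    · exfalso
      obtain ⟨e1, e2⟩ := he
      obtain rfl : j = I.src k := by omega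
      rcases O.loc_cases (I.src k) with ⟨g1, g2⟩ | ⟨g1, g2⟩
      · simp only [g2] at hi
        unfold Itl at hi
        rcases ht with ⟨h1, h2, h3, h4⟩ | ⟨h1, h2, h3, h4⟩ | ⟨h1, h2, h3, h4⟩ | ⟨h1, h2, h3, h4⟩
        · exact e2 h3
        · omega
        · exact e2 h3
        · exact h2 g1
      · simp only [g2] at hi
        unfold Itl at hi
        rcases ht with ⟨h1, h2, h3, h4⟩ | ⟨h1, h2, h3, h4⟩ | ⟨h1, h2, h3, h4⟩ | ⟨h1, h2, h3, h4⟩
        · exact e2 h3
        · exact g1 h2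
        · exact e2 h3
        · omega
    · omega
  · subst hc
    rw [phi_mid]
    omega
  · subst hc
    rw [phi_hi le_rfl]
    split_ifs with he
    · exfalso
      obtain ⟨e1, e2⟩ := he
      obtain rfl : j = I.src k := by omega
      rcases O.loc_cases (I.src k) with ⟨g1, g2⟩ | ⟨g1, g2⟩
      · simp only [g2] at hi
        unfold Itl at hi
        rcases ht with ⟨h1, h2, h3, h4⟩ | ⟨h1, h2, h3, h4⟩ | ⟨h1, h2, h3, h4⟩ | ⟨h1, h2, h3, h4⟩
        · omega
        · exact h3 e2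
        · exact h2 g1
        · exact h3 e2
      · simp only [g2] at hi
        unfold Itl at hi
        rcases ht with ⟨h1, h2, h3, h4⟩ | ⟨h1, h2, h3, h4⟩ | ⟨h1, h2, h3, h4⟩ | ⟨h1, h2, h3, h4⟩
        · exact g1 h2
        · exact h3 e2
        · omega
        · exact h3 e2
    · omega

/-- Connectors and block edges. -/
theorem itl_con_loc (ok : I.Ok) {k : ℕ} (hk : k < I.K) {l c c' : ℕ} (hl : l < I.E)
    (hc : I.Loc c c')
    (hi : Itl (O.pos (cA I k)) (O.pos (cB I k)) (O.pos (l + 2, c)) (O.pos (l + 2, c'))) :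
    FarC I k (l + 2, c) (l + 2, c') := by
  have hc2 := le_c2 (I := I)
  have hW : I.W = I.c2 + I.T + 1 := rfl
  have hcW := loc_W hc
  obtain ⟨hb, hb'⟩ := O.atip hk
  rw [hb, O.pos_bv, O.pos_bv] at hi
  have ht := O.tip ok hk
  have hsr := ok.hsrc k hk
  have htg := ok.htgt k hk
  have hne := ok.hne k hk
  have l3 := O.loc_lt (j := l) hcW.1
  have l4 := O.loc_lt (j := l) hcW.2
  by_cases e1 : l = I.src k
  · exfalso
    subst e1
    unfold Itl at hi
    omega
  · by_cases e2 : l = I.tgt k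
    · subst e2
      have ha := I.anc_ge k I.T
      have ha' := anc_lt hk (le_refl I.T)
      have hlt := hc.lt
      -- the tip of the anchor is between the ends of the edge
      have hbt : c < I.anc k I.T ∧ I.anc k I.T < c' := by
        rcases O.loc_cases (I.tgt k) with ⟨_, g⟩ | ⟨_, g⟩
        · simp only [g] at hi l3 l4 hb'
          unfold Itl at hi
          omega
        · simp only [g] at hi l3 l4 hb'
          unfold Itl at hi
          omega
      rcases loc_cases2 hc with h | ⟨h1, k', hk', h2⟩ | ⟨h1, h2⟩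
      · exfalso
        omega
      · subst h1
        subst h2
        refine ⟨by rw [phi_mid]; omega, ?_⟩
        rw [phi_anc hk' (Nat.zero_le _)]
        have hkk : k' ≠ k := by
          rintro rfl
          have := hbt.2
          unfold FI.anc at this
          omega
        unfold af
        rw [if_neg (by tauto)]
        split_ifs <;> omega
      · subst h1
        subst h2
        refine ⟨by rw [phi_mid]; omega, ?_⟩
        rw [phi_hi le_rfl, if_neg (by omega)]
        omega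
    · exfalso
      have s1 := O.sep hl hsr e1
      have s2 := O.sep hl htg e2
      unfold Itl at hi
      omega

/-- Two connectors. -/
theorem itl_con_con (ok : I.Ok) {k k' : ℕ} (hk' : k' < I.K)
    (hi : Itl (O.pos (cA I k)) (O.pos (cB I k)) (O.pos (cA I k')) (O.pos (cB I k'))) :
    FarC I k (cA I k') (cB I k') := by
  have hT := ok.hT
  by_cases h : I.src k' = I.src k ∧ I.ecd (I.prt k') = I.ecd (I.prt k)
  · exfalso
    have : cA I k' = cA I k := by
      unfold cA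
      rw [h.1, h.2]
    rw [this] at hi
    unfold Itl at hi
    omega
  · have hkk : k' ≠ k := by
      rintro rfl
      exact h ⟨rfl, rfl⟩
    unfold FarC cA cB
    rw [phi_tip hT, phi_atip hk', if_neg h, if_neg hkk, if_neg h]
    omega

/-- Interleaving edges are far from each other. -/
theorem itl_far (ok : I.Ok) {v w x y : ℕ × ℕ} (h : I.HArc v w) (h' : I.HArc x y)
    (hi : Itl (O.pos v) (O.pos w) (O.pos x) (O.pos y)) :
    (∃ k < I.K, v = cA I k ∧ w = cB I k ∧ FarC I k x y) ∨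
      (∃ k < I.K, x = cA I k ∧ y = cB I k ∧ FarC I k v w) := by
  rcases h with ⟨h1, h2, h3⟩ | ⟨h1, h2, h3, h4⟩ | ⟨k, hk, h1, h2⟩
  · subst h1
    rcases h' with ⟨h1', h2', h3'⟩ | ⟨h1', h2', h3', h4'⟩ | ⟨k', hk', h1', h2'⟩
    · subst h1'
      exfalso
      unfold Itl at hi
      omega
    · exfalso
      obtain ⟨j, c⟩ := x
      obtain ⟨j', c'⟩ := y
      simp only at h1' h2' h3' h4'
      subst h1'
      obtain ⟨l, rfl⟩ : ∃ l, j = l + 2 := ⟨j - 2, by omega⟩
      exact itl_hub_loc O h2 h3 (by omega) h4' hi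
    · right
      exact ⟨k', hk', h1', h2', itl_con_hub O ok hk' h2 h3 (by
        have := hi.symm
        rwa [h1', h2'] at this)⟩
  · obtain ⟨j, c⟩ := v
    obtain ⟨j', c'⟩ := w
    simp only at h1 h2 h3 h4
    subst h1
    obtain ⟨l, rfl⟩ : ∃ l, j = l + 2 := ⟨j - 2, by omega⟩
    rcases h' with ⟨h1', h2', h3'⟩ | ⟨h1', h2', h3', h4'⟩ | ⟨k', hk', h1', h2'⟩
    · subst h1'
      exfalso
      exact itl_hub_loc O h2' h3' (by omega) h4 hi.symm
    · exfalso
      obtain ⟨j, d⟩ := x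
      obtain ⟨j', d'⟩ := y
      simp only at h1' h2' h3' h4'
      subst h1'
      obtain ⟨l', rfl⟩ : ∃ l, j = l + 2 := ⟨j - 2, by omega⟩
      exact itl_loc_loc O (by omega) (by omega) h4 h4' hi
    · right
      exact ⟨k', hk', h1', h2', itl_con_loc O ok hk' (by omega) h4 (by
        have := hi.symm
        rwa [h1', h2'] at this)⟩
  · left
    refine ⟨k, hk, h1, h2, ?_⟩
    change v = cA I k at h1
    change w = cB I k at h2
    subst h1
    subst h2
    rcases h' with ⟨h1', h2', h3'⟩ | ⟨h1', h2', h3', h4'⟩ | ⟨k', hk', h1', h2'⟩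
    · subst h1'
      exact itl_con_hub O ok hk h2' h3' hi
    · obtain ⟨j, c⟩ := x
      obtain ⟨j', c'⟩ := y
      simp only at h1' h2' h3' h4'
      subst h1'
      obtain ⟨l, rfl⟩ : ∃ l, j = l + 2 := ⟨j - 2, by omega⟩
      exact itl_con_loc O ok hk (by omega) h4' hi
    · change x = cA I k' at h1'
      change y = cB I k' at h2'
      subst h1'
      subst h2'
      exact itl_con_con O ok hk' hi

theorem phi_cA (ok : I.Ok) (k : ℕ) : I.phi k (cA I k) = 0 := by
  unfold cA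
  rw [phi_tip ok.hT, if_pos ⟨rfl, rfl⟩]

theorem phi_cB {k : ℕ} (hk : k < I.K) : I.phi k (cB I k) = 0 := by
  unfold cB
  rw [phi_atip hk, if_pos rfl]

end Pool.Agent.V7H65.LP
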