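import Pool.Agent.V7H65.LP.Defs

/-!
# Straight-line drawings
-/

set_option autoImplicit false

namespace Pool.Agent.V7H65.LP

open SimpleGraph

/-- The segment. -/
def sg (a b : ℂ) : Set ℂ := {z | ∃ t : ℝ, 0 ≤ t ∧ t ≤ 1 ∧ z = ((1 - t : ℝ) : ℂ) * a + (t : ℂ) * b}

theorem sg_symm (a b : ℂ) : sg a b = sg b a := by
  have key : ∀ a b : ℂ, sg a b ⊆ sg b a := by
    rintro a b z ⟨t, h0, h1, rfl⟩
    refine ⟨1 - t, by linarith, by linarith, ?_⟩
    push_cast
    ring
  exact Set.Subset.antisymm (key a b) (key b a)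

theorem left_sg (a b : ℂ) : a ∈ sg a b := ⟨0, le_rfl, zero_le_one, by simp⟩

theorem right_sg (a b : ℂ) : b ∈ sg a b := ⟨1, zero_le_one, le_rfl, by simp⟩

/-- The determinant of two vectors. -/
def dt (p q : ℂ) : ℝ := p.re * q.im - p.im * q.re

theorem dt_indep {p q : ℂ} (h : dt p q ≠ 0) {u v : ℝ} (he : (u : ℂ) * p + v * q = 0) :
    u = 0 ∧ v = 0 := by
  have h1 := congrArg Complex.re he
  have h2 := congrArg Complex.im he
  simp only [Complex.add_re, Complex.add_im, Complex.re_ofReal_mul, Complex.im_ofReal_mul,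
    Complex.zero_re, Complex.zero_im] at h1 h2
  unfold dt at h
  constructor
  · have : u * (p.re * q.im - p.im * q.re) = 0 := by linear_combination q.im * h1 - q.re * h2
    exact (mul_eq_zero.1 this).resolve_right h
  · have : v * (p.re * q.im - p.im * q.re) = 0 := by linear_combination p.re * h2 - p.im * h1
    exact (mul_eq_zero.1 this).resolve_right h

/-- The affine homeomorphism. -/
noncomputable def affH (z p q : ℂ) (h : dt p q ≠ 0) : ℂ ≃ₜ ℂ where
  toFun w := z + ((w.re : ℂ) * p + (w.im : ℂ) * q)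
  invFun w := ⟨((w - z).re * q.im - (w - z).im * q.re) / dt p q,
    (p.re * (w - z).im - p.im * (w - z).re) / dt p q⟩
  left_inv w := by
    apply Complex.ext
    · simp only [add_sub_cancel_left, Complex.add_re, Complex.add_im, Complex.re_ofReal_mul,
        Complex.im_ofReal_mul]
      rw [div_eq_iff h]
      unfold dt
      ring
    · simp only [add_sub_cancel_left, Complex.add_re, Complex.add_im, Complex.re_ofReal_mul,
        Complex.im_ofReal_mul]
      rw [div_eq_iff h]
      unfold dt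
      ring
  right_inv w := by
    obtain ⟨d, hd⟩ : ∃ d, d = dt p q := ⟨_, rfl⟩
    have hd0 : d ≠ 0 := hd ▸ h
    apply Complex.ext
    · simp only [Complex.add_re, Complex.re_ofReal_mul, Complex.sub_re, Complex.sub_im, ← hd]
      rw [← sub_eq_zero]
      field_simp
      rw [hd]
      unfold dt
      ring
    · simp only [Complex.add_im, Complex.im_ofReal_mul, Complex.sub_re, Complex.sub_im, ← hd]
      rw [← sub_eq_zero]
      field_simp
      rw [hd]
      unfold dt
      ring
  continuous_toFun := by fun_prop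
  continuous_invFun := by
    have : Continuous fun w : ℂ => (((w - z).re * q.im - (w - z).im * q.re) / dt p q : ℝ) := by
      fun_prop
    have h2 : Continuous fun w : ℂ => ((p.re * (w - z).im - p.im * (w - z).re) / dt p q : ℝ) := by
      fun_prop
    have h3 : Continuous fun w : ℂ => (((((w - z).re * q.im - (w - z).im * q.re) / dt p q : ℝ) : ℂ)
        + ((((p.re * (w - z).im - p.im * (w - z).re) / dt p q : ℝ) : ℂ)) * Complex.I) := by
      fun_prop
    refine h3.congr fun w => ?_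
    exact (Complex.mk_eq_add_mul_I _ _).symm

theorem affH_apply (z p q : ℂ) (h : dt p q ≠ 0) (w : ℂ) :
    affH z p q h w = z + ((w.re : ℂ) * p + (w.im : ℂ) * q) := rfl

/-- Two segments with different directions cross properly in common inner points. -/
theorem proper_crossing {a b c d z : ℂ} (h : dt (b - a) (d - c) ≠ 0) (hz : z ∈ sg a b)
    (hz' : z ∈ sg c d) (ha : z ≠ a) (hb : z ≠ b) (hc : z ≠ c) (hd : z ≠ d) :
    ProperCrossing (sg a b) (sg c d) z := by
  obtain ⟨s, s0, s1, hs⟩ := hz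
  obtain ⟨t, t0, t1, ht⟩ := hz'
  have s0' : 0 < s := lt_of_le_of_ne s0 fun he => ha (by rw [hs, ← he]; simp)
  have s1' : s < 1 := lt_of_le_of_ne s1 fun he => hb (by rw [hs, he]; simp)
  have t0' : 0 < t := lt_of_le_of_ne t0 fun he => hc (by rw [ht, ← he]; simp)
  have t1' : t < 1 := lt_of_le_of_ne t1 fun he => hd (by rw [ht, he]; simp)
  refine ⟨affH z (b - a) (d - c) h, min (min s (1 - s)) (min t (1 - t)), ?_, ?_, ?_⟩
  · exact lt_min (lt_min s0' (by linarith)) (lt_min t0' (by linarith))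
  · rw [affH_apply]
    simp
  · intro w hw
    have hre := (Complex.abs_re_le_norm w).trans_lt hw
    have him := (Complex.abs_im_le_norm w).trans_lt hw
    rw [abs_lt] at hre him
    have m1 : min (min s (1 - s)) (min t (1 - t)) ≤ s := (min_le_left _ _).trans (min_le_left _ _)
    have m2 : min (min s (1 - s)) (min t (1 - t)) ≤ 1 - s :=
      (min_le_left _ _).trans (min_le_right _ _)
    have m3 : min (min s (1 - s)) (min t (1 - t)) ≤ t :=
      (min_le_right _ _).trans (min_le_left _ _)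
    have m4 : min (min s (1 - s)) (min t (1 - t)) ≤ 1 - t :=
      (min_le_right _ _).trans (min_le_right _ _)
    rw [affH_apply]
    constructor
    · constructor
      · rintro ⟨r, r0, r1, hr⟩
        rw [hs] at hr
        have e : ((s + w.re - r : ℝ) : ℂ) * (b - a) + ((w.im : ℝ) : ℂ) * (d - c) = 0 := by
          push_cast at hr ⊢
          linear_combination hr
        exact (dt_indep h e).2
      · intro him0
        refine ⟨s + w.re, by linarith [hre.1], by linarith [hre.2], ?_⟩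
        rw [hs, him0]
        push_cast
        ring
    · constructor
      · rintro ⟨r, r0, r1, hr⟩
        rw [ht] at hr
        have e : ((w.re : ℝ) : ℂ) * (b - a) + ((t + w.im - r : ℝ) : ℂ) * (d - c) = 0 := by
          push_cast at hr ⊢
          linear_combination hr
        exact (dt_indep h e).1
      · intro hre0
        refine ⟨t + w.im, by linarith [him.1], by linarith [him.2], ?_⟩
        rw [ht, hre0]
        push_cast
        ring

theorem sg_unique {a b c d z z' : ℂ} (h : dt (b - a) (d - c) ≠ 0) (hz : z ∈ sg a b)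
    (hz' : z ∈ sg c d) (hw : z' ∈ sg a b) (hw' : z' ∈ sg c d) : z = z' := by
  obtain ⟨s, s0, s1, hs⟩ := hz
  obtain ⟨t, t0, t1, ht⟩ := hz'
  obtain ⟨s', s0', s1', hs'⟩ := hw
  obtain ⟨t', t0', t1', ht'⟩ := hw'
  have e : ((s - s' : ℝ) : ℂ) * (b - a) + ((t' - t : ℝ) : ℂ) * (d - c) = 0 := by
    push_cast at hs ht hs' ht' ⊢
    linear_combination hs' - hs + ht - ht'
  have := (dt_indep h e).1
  have hss : s = s' := by linarith
  rw [hs, hs', hss]

section

variable {V : Type} (G : SimpleGraph V) (pt : V → ℂ)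

/-- The edges `v w` and `x y` are far apart, as shown by a potential. -/
def Far (T : ℕ) (v w x y : V) : Prop :=
  ∃ ψ : V → ℕ, (∀ a b, G.Adj a b → ψ a ≤ ψ b + 1) ∧
    ((ψ v = 0 ∧ ψ w = 0 ∧ T < ψ x ∧ T < ψ y) ∨ (ψ x = 0 ∧ ψ y = 0 ∧ T < ψ v ∧ T < ψ w))

theorem lip_walk {G : SimpleGraph V} {ψ : V → ℕ} (hψ : ∀ a b, G.Adj a b → ψ a ≤ ψ b + 1)
    {v w : V} (p : G.Walk v w) (m : ℕ) : ∀ n, ψ (p.getVert m) ≤ ψ (p.getVert (m + n)) + n ∧
      ψ (p.getVert (m + n)) ≤ ψ (p.getVert m) + n
  | 0 => by simp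
  | n + 1 => by
    obtain ⟨h1, h2⟩ := lip_walk hψ p m n
    by_cases h : m + n < p.length
    · have ha := p.adj_getVert_succ h
      have h3 := hψ _ _ ha
      have h4 := hψ _ _ ha.symm
      rw [show m + (n + 1) = m + n + 1 from rfl]
      omega
    · rw [p.getVert_of_length_le (by omega : p.length ≤ m + (n + 1))]
      rw [p.getVert_of_length_le (by omega : p.length ≤ m + n)] at h1 h2
      omega

theorem edge_getVert {G : SimpleGraph V} {v w : V} (p : G.Walk v w) {e : Sym2 V}
    (he : e ∈ p.edges) : ∃ n < p.length, e = s(p.getVert n, p.getVert (n + 1)) := by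
  induction p with
  | nil => simp at he
  | cons h p ih =>
    rw [Walk.edges_cons, List.mem_cons] at he
    rcases he with rfl | he
    · refine ⟨0, by simp, ?_⟩
      simp
    · obtain ⟨n, hn, rfl⟩ := ih he
      refine ⟨n + 1, by simp [hn], ?_⟩
      simp

theorem not_far {G : SimpleGraph V} {T : ℕ} {v w : V} (p : G.Walk v w) (hp : p.length ≤ T + 2)
    {a b c d : V} (h1 : s(a, b) ∈ p.edges) (h2 : s(c, d) ∈ p.edges) (hne : s(a, b) ≠ s(c, d)) :
    ¬ Far G T a b c d := by
  rintro ⟨ψ, hψ, hf⟩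
  obtain ⟨m, hm, em⟩ := edge_getVert p h1
  obtain ⟨n, hn, en⟩ := edge_getVert p h2
  have key : ∀ (a b : V) (P : V → Prop), P a → P b → ∀ x y, s(a, b) = s(x, y) → P x ∧ P y := by
    intro a b P ha hb x y h
    rcases Sym2.eq_iff.1 h with ⟨rfl, rfl⟩ | ⟨rfl, rfl⟩
    · exact ⟨ha, hb⟩
    · exact ⟨hb, ha⟩
  have hmn : m ≠ n := by
    rintro rfl
    exact hne (em.trans en.symm)
  rcases hf with ⟨f1, f2, f3, f4⟩ | ⟨f1, f2, f3, f4⟩
  · obtain ⟨g1, g2⟩ := key a b (fun x => ψ x = 0) f1 f2 _ _ em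
    obtain ⟨g3, g4⟩ := key c d (fun x => T < ψ x) f3 f4 _ _ en
    rcases lt_or_gt_of_ne hmn with h | h
    · have := (lip_walk hψ p (m + 1) (n - (m + 1))).2
      rw [show m + 1 + (n - (m + 1)) = n by omega] at this
      omega
    · have := (lip_walk hψ p (n + 1) (m - (n + 1))).1
      rw [show n + 1 + (m - (n + 1)) = m by omega] at this
      omega
  · obtain ⟨g1, g2⟩ := key c d (fun x => ψ x = 0) f1 f2 _ _ en
    obtain ⟨g3, g4⟩ := key a b (fun x => T < ψ x) f3 f4 _ _ em
    rcases lt_or_gt_of_ne hmn with h | h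
    · have := (lip_walk hψ p (m + 1) (n - (m + 1))).1
      rw [show m + 1 + (n - (m + 1)) = n by omega] at this
      omega
    · have := (lip_walk hψ p (n + 1) (m - (n + 1))).2
      rw [show n + 1 + (m - (n + 1)) = m by omega] at this
      omega

/-- The conditions on the points of a straight-line drawing. -/
structure SD1 (T : ℕ) : Prop where
  inj : Function.Injective pt
  avoid : ∀ v w x, G.Adj v w → pt x ∈ sg (pt v) (pt w) → x = v ∨ x = w
  cross : ∀ v w x y, G.Adj v w → G.Adj x y → s(v, w) ≠ s(x, y) →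
    ∀ z ∈ sg (pt v) (pt w), z ∈ sg (pt x) (pt y) →
      (∃ u, (u = v ∨ u = w) ∧ (u = x ∨ u = y) ∧ z = pt u) ∨
        (dt (pt w - pt v) (pt y - pt x) ≠ 0 ∧ Far G T v w x y)

variable {G pt}

theorem SD1.comap {T : ℕ} (h : SD1 G pt T) {V' : Type} {f : V' → V}
    (hf : Function.Injective f) : SD1 (G.comap f) (fun v => pt (f v)) T where
  inj := h.inj.comp hf
  avoid v w x hvw hx := by
    rcases h.avoid _ _ _ hvw hx with h1 | h1
    · exact Or.inl (hf h1)
    · exact Or.inr (hf h1)
  cross v w x y hvw hxy hne z hz hz' := by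
    have hne' : s(f v, f w) ≠ s(f x, f y) := by
      intro he
      apply hne
      rcases Sym2.eq_iff.1 he with ⟨h1, h2⟩ | ⟨h1, h2⟩
      · rw [hf h1, hf h2]
      · rw [hf h1, hf h2, Sym2.eq_swap]
    rcases h.cross _ _ _ _ hvw hxy hne' z hz hz' with ⟨u, h1, h2, h3⟩ | ⟨h1, ψ, h2, h3⟩
    · left
      rcases h1 with rfl | rfl
      · exact ⟨v, Or.inl rfl, h2.imp (fun h => hf h) (fun h => hf h), h3⟩
      · exact ⟨w, Or.inr rfl, h2.imp (fun h => hf h) (fun h => hf h), h3⟩
    · right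
      exact ⟨h1, fun v => ψ (f v), fun a b hab => h2 _ _ hab, h3⟩

/-- The straight-line drawing with the given points. -/
noncomputable def SD1.drw {T : ℕ} (h : SD1 G pt T) : Drawing G where
  pt := pt
  arc v w t := ((1 - (t : ℝ) : ℝ) : ℂ) * pt v + ((t : ℝ) : ℂ) * pt w
  pt_injective := h.inj
  continuous_arc v w _ := by fun_prop
  injective_arc v w hvw := by
    intro t t' he
    have hne : pt w - pt v ≠ 0 := sub_ne_zero.2 fun he => hvw.ne (h.inj he).symm
    have h1 : (((t : ℝ) : ℂ) - ((t' : ℝ) : ℂ)) * (pt w - pt v) = 0 := by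
      push_cast at he
      linear_combination he
    have h2 := (mul_eq_zero.1 h1).resolve_right hne
    apply Subtype.ext
    exact_mod_cast sub_eq_zero.1 h2
  arc_zero v w _ := by simp
  arc_one v w _ := by simp
  arc_symm v w _ t := by
    rw [unitInterval.coe_symm_eq]
    push_cast
    ring
  arc_avoids v w x hvw hx := by
    apply h.avoid v w x hvw
    obtain ⟨t, ht⟩ := hx
    exact ⟨t, t.2.1, t.2.2, ht.symm⟩

theorem SD1.range {T : ℕ} (h : SD1 G pt T) (v w : V) :
    Set.range (h.drw.arc v w) = sg (pt v) (pt w) := by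
  ext z
  constructor
  · rintro ⟨t, rfl⟩
    exact ⟨t, t.2.1, t.2.2, rfl⟩
  · rintro ⟨t, h0, h1, rfl⟩
    exact ⟨⟨t, h0, h1⟩, rfl⟩

theorem SD1.img {T : ℕ} (h : SD1 G pt T) {v w : V} (hvw : G.Adj v w) :
    h.drw.img s(v, w) = sg (pt v) (pt w) := by
  ext z
  constructor
  · rintro ⟨x, y, hxy, he, hz⟩
    rw [h.range] at hz
    rcases Sym2.eq_iff.1 he with ⟨rfl, rfl⟩ | ⟨rfl, rfl⟩
    · exact hz
    · rwa [sg_symm]
  · intro hz
    exact ⟨v, w, hvw, rfl, by rwa [h.range]⟩

/-- Common points of edges. -/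
theorem SD1.common {T : ℕ} (h : SD1 G pt T) {v w x y : V} (hvw : G.Adj v w) (hxy : G.Adj x y)
    (hne : s(v, w) ≠ s(x, y)) {z : ℂ} (hz : z ∈ sg (pt v) (pt w)) (hz' : z ∈ sg (pt x) (pt y)) :
    (∃ u, u ∈ s(v, w) ∧ u ∈ s(x, y) ∧ z = pt u) ∨
      (dt (pt w - pt v) (pt y - pt x) ≠ 0 ∧ Far G T v w x y ∧ z ≠ pt v ∧ z ≠ pt w ∧ z ≠ pt x ∧
        z ≠ pt y) := by
  simp only [Sym2.mem_iff]
  rcases h.cross v w x y hvw hxy hne z hz hz' with h1 | ⟨h1, h2⟩
  · exact Or.inl h1
  · by_cases hu : ∃ u, (u = v ∨ u = w) ∧ (u = x ∨ u = y) ∧ z = pt u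
    · exact Or.inl hu
    · right
      refine ⟨h1, h2, ?_, ?_, ?_, ?_⟩
      · intro he
        exact hu ⟨v, Or.inl rfl, h.avoid _ _ _ hxy (by rwa [← he]), he⟩
      · intro he
        exact hu ⟨w, Or.inr rfl, h.avoid _ _ _ hxy (by rwa [← he]), he⟩
      · intro he
        exact hu ⟨x, h.avoid _ _ _ hvw (by rwa [← he]), Or.inl rfl, he⟩
      · intro he
        exact hu ⟨y, h.avoid _ _ _ hvw (by rwa [← he]), Or.inr rfl, he⟩

theorem SD1.subsingle {T : ℕ} (h : SD1 G pt T) {v w x y : V} (hvw : G.Adj v w)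
    (hxy : G.Adj x y) (hne : s(v, w) ≠ s(x, y)) :
    (sg (pt v) (pt w) ∩ sg (pt x) (pt y)).Subsingleton := by
  rintro z ⟨hz, hz'⟩ z' ⟨hw, hw'⟩
  rcases h.common hvw hxy hne hz hz' with ⟨u, u1, u2, rfl⟩ | ⟨h1, -⟩
  · rcases h.common hvw hxy hne hw hw' with ⟨u', u1', u2', rfl⟩ | ⟨h1, -⟩
    · by_cases he : u = u'
      · rw [he]
      · exfalso
        exact hne (((Sym2.mem_and_mem_iff he).1 ⟨u1, u1'⟩).trans
          ((Sym2.mem_and_mem_iff he).1 ⟨u2, u2'⟩).symm)
    · exact sg_unique h1 hz hz' hw hw'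
  · exact sg_unique h1 hz hz' hw hw'

theorem SD1.straight {T : ℕ} (h : SD1 G pt T) : StraightLocPlanar (T + 2) G := by
  refine ⟨h.drw, fun v w _ t => rfl, ?_, ?_, ?_⟩
  · intro e
    induction e using Sym2.ind with
    | _ v w =>
      intro hvw f
      induction f using Sym2.ind with
      | _ x y =>
        intro hxy hne
        rw [h.img hvw, h.img hxy]
        refine ⟨(h.subsingle hvw hxy hne).finite, ?_⟩
        rintro z ⟨hz, hz'⟩
        rcases h.common hvw hxy hne hz hz' with ⟨u, u1, u2, hu⟩ | ⟨h1, -, h2, h3, h4, h5⟩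
        · exact Or.inl ⟨u, u1, u2, hu⟩
        · exact Or.inr (proper_crossing h1 hz hz' h2 h3 h4 h5)
  · intro a b p _ hp e he f hf hne
    induction e using Sym2.ind with
    | _ v w =>
      induction f using Sym2.ind with
      | _ x y =>
        have hvw : G.Adj v w := p.edges_subset_edgeSet he
        have hxy : G.Adj x y := p.edges_subset_edgeSet hf
        rintro ⟨z, ⟨hz, hz'⟩, hu⟩
        rw [h.img hvw] at hz
        rw [h.img hxy] at hz'
        rcases h.common hvw hxy hne hz hz' with ⟨u, u1, u2, hu'⟩ | ⟨h1, h2, -⟩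
        · exact hu u u1 u2 hu'
        · exact not_far p hp he hf hne h2
  · intro e
    induction e using Sym2.ind with
    | _ v w =>
      intro hvw f
      induction f using Sym2.ind with
      | _ x y =>
        intro hxy hne
        rw [h.img hvw, h.img hxy]
        exact h.subsingle hvw hxy hne

end

end Pool.Agent.V7H65.LP
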