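import Pool.Agent.V7H65.LP.Cpl2
import Pool.Agent.V7H65.LP.Geo

/-!
# Completeness: the straight-line drawing
-/

set_option autoImplicit false

namespace Pool.Agent.V7H65.LP

open SimpleGraph FI

/-- The point with parameter `s` on the segment from `(x, -x^2)` to `(0, R)`. -/
def Q (R x s : ℝ) : ℂ := ⟨(1 - s) * x, s * R - (1 - s) * x ^ 2⟩

theorem chord {R a b : ℝ} {z : ℂ} (h : z ∈ sg (Q R a 0) (Q R b 0)) :
    ∃ t : ℝ, 0 ≤ t ∧ t ≤ 1 ∧ z.re = (1 - t) * a + t * b ∧ z.im = -((1 - t) * a ^ 2 + t * b ^ 2) := by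
  obtain ⟨t, h0, h1, rfl⟩ := h
  refine ⟨t, h0, h1, ?_, ?_⟩
  · simp only [Complex.add_re, Complex.re_ofReal_mul, Q]
    ring
  · simp only [Complex.add_im, Complex.im_ofReal_mul, Q]
    ring

theorem spoke {R x s s' : ℝ} (hs : s ≤ s') {z : ℂ} (h : z ∈ sg (Q R x s) (Q R x s')) :
    ∃ σ : ℝ, s ≤ σ ∧ σ ≤ s' ∧ z = Q R x σ := by
  obtain ⟨t, h0, h1, rfl⟩ := h
  refine ⟨(1 - t) * s + t * s', by nlinarith, by nlinarith, ?_⟩
  apply Complex.ext
  · simp only [Complex.add_re, Complex.re_ofReal_mul, Q]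
    ring
  · simp only [Complex.add_im, Complex.im_ofReal_mul, Q]
    ring

theorem chord_spoke {R a b x σ : ℝ} (hab : a ≠ b) (hx : x ^ 2 < R) (h0 : 0 ≤ σ)
    (h : Q R x σ ∈ sg (Q R a 0) (Q R b 0)) : σ = 0 ∧ (x = a ∨ x = b) := by
  obtain ⟨t, t0, t1, e1, e2⟩ := chord h
  simp only [Q] at e1 e2
  have e3 : σ * (R - (1 - σ) * x ^ 2) = - (t * (1 - t) * (a - b) ^ 2) := by
    have : ((1 - σ) * x) ^ 2 = ((1 - t) * a + t * b) ^ 2 := by rw [e1]
    linear_combination e2 + this
  have hpos : 0 < R - (1 - σ) * x ^ 2 := by nlinarith [sq_nonneg x]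
  have hab2 : 0 < (a - b) ^ 2 := by
    have := sub_ne_zero.2 hab
    positivity
  have g1 : 0 ≤ σ * (R - (1 - σ) * x ^ 2) := mul_nonneg h0 hpos.le
  have g2 : 0 ≤ t * (1 - t) * (a - b) ^ 2 :=
    mul_nonneg (mul_nonneg t0 (by linarith)) hab2.le
  have g3 : σ * (R - (1 - σ) * x ^ 2) = 0 := by linarith
  have g4 : t * (1 - t) * (a - b) ^ 2 = 0 := by linarith
  have hσ : σ = 0 := (mul_eq_zero.1 g3).resolve_right hpos.ne'
  refine ⟨hσ, ?_⟩
  rw [hσ] at e1
  have g5 := (mul_eq_zero.1 g4).resolve_right hab2.ne'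
  rcases mul_eq_zero.1 g5 with h | h
  · left
    rw [h] at e1
    linarith
  · right
    have : t = 1 := by linarith
    rw [this] at e1
    linarith

theorem spoke_spoke_ne {R x x' σ σ' : ℝ} (hne : x ≠ x') (hx : x ^ 2 < R) (hx' : x' ^ 2 < R)
    (h : Q R x σ = Q R x' σ') : σ = 1 ∧ σ' = 1 := by
  have e1 := congrArg Complex.re h
  have e2 := congrArg Complex.im h
  simp only [Q] at e1 e2
  have hxx : x * x' < R := by nlinarith [sq_nonneg (x - x')]
  have e3 : (1 - σ) * (x ^ 2 + R) = (1 - σ') * (x' ^ 2 + R) := by linear_combination - e2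
  have e4 : (1 - σ) * ((x - x') * (R - x * x')) = 0 := by
    linear_combination (x' ^ 2 + R) * e1 - x' * e3
  have hne' : (x - x') * (R - x * x') ≠ 0 :=
    mul_ne_zero (sub_ne_zero.2 hne) (ne_of_gt (by linarith))
  have h1 : 1 - σ = 0 := (mul_eq_zero.1 e4).resolve_right hne'
  rw [h1, zero_mul] at e3
  have h2 : 1 - σ' = 0 := by
    have : 0 < x' ^ 2 + R := by nlinarith [sq_nonneg x']
    exact (mul_eq_zero.1 e3.symm).resolve_right this.ne'
  constructor <;> linarith

theorem spoke_spoke_eq {R x σ σ' : ℝ} (hx : x ^ 2 < R) (h : Q R x σ = Q R x σ') : σ = σ' := by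
  have e2 := congrArg Complex.im h
  simp only [Q] at e2
  have e3 : (σ - σ') * (x ^ 2 + R) = 0 := by linear_combination e2
  have : 0 < x ^ 2 + R := by nlinarith [sq_nonneg x]
  have := (mul_eq_zero.1 e3).resolve_right this.ne'
  linarith

theorem Q_im_le {R x σ : ℝ} (hx : x ^ 2 < R) (h1 : σ ≤ 1) : (Q R x σ).im ≤ R := by
  simp only [Q]
  nlinarith [sq_nonneg x, mul_nonneg (sub_nonneg.2 h1) (sq_nonneg x),
    mul_nonneg (sub_nonneg.2 h1) (by nlinarith [sq_nonneg x] : (0 : ℝ) ≤ R)]

theorem chord_im_le {R a b : ℝ} {z : ℂ} (h : z ∈ sg (Q R a 0) (Q R b 0)) : z.im ≤ 0 := by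
  obtain ⟨t, t0, t1, e1, e2⟩ := chord h
  rw [e2]
  have := mul_nonneg (sub_nonneg.2 t1) (sq_nonneg a)
  have := mul_nonneg t0 (sq_nonneg b)
  linarith

/-- Two chords. -/
theorem chord_chord {R a b c d : ℝ} {z : ℂ} (h : z ∈ sg (Q R a 0) (Q R b 0))
    (h' : z ∈ sg (Q R c 0) (Q R d 0)) :
    (z = Q R c 0 ∧ (c = a ∨ c = b)) ∨ (z = Q R d 0 ∧ (d = a ∨ d = b)) ∨
      ((c = a ∨ c = b) ∧ (d = a ∨ d = b)) ∨
      ((c - a) * (c - b)) * ((d - a) * (d - b)) < 0 := by
  obtain ⟨t, t0, t1, e1, e2⟩ := chord h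
  obtain ⟨s, s0, s1, f1, f2⟩ := chord h'
  have key : (1 - s) * ((c - a) * (c - b)) + s * ((d - a) * (d - b)) = 0 := by
    have g1 : z.im + (a + b) * z.re - a * b = 0 := by
      rw [e1, e2]
      ring
    have g2 : z.im + (a + b) * z.re - a * b =
        - ((1 - s) * ((c - a) * (c - b)) + s * ((d - a) * (d - b))) := by
      rw [f1, f2]
      ring
    linarith
  by_cases hs0 : s = 0
  · left
    subst hs0
    refine ⟨?_, ?_⟩
    · apply Complex.ext
      · rw [f1]
        simp only [Q]
        ring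
      · rw [f2]
        simp only [Q]
        ring
    · have : (c - a) * (c - b) = 0 := by linarith
      rcases mul_eq_zero.1 this with h | h
      · exact Or.inl (by linarith)
      · exact Or.inr (by linarith)
  · by_cases hs1 : s = 1
    · right; left
      subst hs1
      refine ⟨?_, ?_⟩
      · apply Complex.ext
        · rw [f1]
          simp only [Q]
          ring
        · rw [f2]
          simp only [Q]
          ring
      · have : (d - a) * (d - b) = 0 := by linarith
        rcases mul_eq_zero.1 this with h | h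
        · exact Or.inl (by linarith)
        · exact Or.inr (by linarith)
    · have hs0' : 0 < s := lt_of_le_of_ne s0 (Ne.symm hs0)
      have hs1' : 0 < 1 - s := by
        have := lt_of_le_of_ne s1 hs1
        linarith
      by_cases hc : (c - a) * (c - b) = 0
      · right; right; left
        rw [hc, mul_zero, zero_add] at key
        have hd := (mul_eq_zero.1 key).resolve_left hs0'.ne'
        constructor
        · rcases mul_eq_zero.1 hc with h | h
          · exact Or.inl (by linarith)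
          · exact Or.inr (by linarith)
        · rcases mul_eq_zero.1 hd with h | h
          · exact Or.inl (by linarith)
          · exact Or.inr (by linarith)
      · right; right; right
        set X := (c - a) * (c - b) with hX
        set Y := (d - a) * (d - b) with hY
        have hX2 : 0 < X * X := mul_self_pos.2 hc
        have : s * (X * Y) = - ((1 - s) * (X * X)) := by linear_combination X * key
        have h3 : 0 < (1 - s) * (X * X) := mul_pos hs1' hX2
        by_contra hcon
        have h4 : 0 ≤ s * (X * Y) := mul_nonneg s0 (not_lt.1 hcon)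
        linarith

theorem chord_dt {R a b c d : ℝ} (h : ((c - a) * (c - b)) * ((d - a) * (d - b)) < 0) :
    dt (Q R b 0 - Q R a 0) (Q R d 0 - Q R c 0) ≠ 0 := by
  intro he
  unfold dt at he
  simp only [Complex.sub_re, Complex.sub_im, Q] at he
  have e1 : (b - a) * ((d - c) * ((a + b) - (c + d))) = 0 := by linear_combination he
  have hab : b - a ≠ 0 := by
    intro h0
    have : b = a := by linarith
    subst this
    nlinarith [mul_self_nonneg ((c - b) * (d - b))]
  have hcd : d - c ≠ 0 := by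
    intro h0
    have : d = c := by linarith
    subst this
    nlinarith [mul_self_nonneg ((d - a) * (d - b))]
  have e2 := (mul_eq_zero.1 ((mul_eq_zero.1 e1).resolve_left hab)).resolve_left hcd
  have e3 : (c - a) * (c - b) = (d - a) * (d - b) := by
    linear_combination (c - d) * (-e2)
  rw [e3] at h
  nlinarith [mul_self_nonneg ((d - a) * (d - b))]

theorem itl_of_real {a b c d : ℕ}
    (h : (((c : ℝ) - a) * ((c : ℝ) - b)) * (((d : ℝ) - a) * ((d : ℝ) - b)) < 0) :
    Itl a b c d := by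
  have key : ∀ x : ℕ, (((x : ℝ) - a) * ((x : ℝ) - b) < 0 → (a < x ∧ x < b) ∨ (b < x ∧ x < a)) ∧
      (0 < ((x : ℝ) - a) * ((x : ℝ) - b) → (x < a ∧ x < b) ∨ (a < x ∧ b < x)) := by
    intro x
    constructor
    · intro h
      rcases mul_neg_iff.1 h with ⟨h1, h2⟩ | ⟨h1, h2⟩
      · left
        constructor
        · exact_mod_cast sub_pos.1 h1
        · exact_mod_cast sub_neg.1 h2
      · right
        constructor
        · exact_mod_cast sub_pos.1 h2
        · exact_mod_cast sub_neg.1 h1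
    · intro h
      rcases mul_pos_iff.1 h with ⟨h1, h2⟩ | ⟨h1, h2⟩
      · right
        constructor
        · exact_mod_cast sub_pos.1 h1
        · exact_mod_cast sub_pos.1 h2
      · left
        constructor
        · exact_mod_cast sub_neg.1 h1
        · exact_mod_cast sub_neg.1 h2
  rcases mul_neg_iff.1 h with ⟨h1, h2⟩ | ⟨h1, h2⟩
  · exact Itl.of_cases (Or.inr ⟨(key d).1 h2, (key c).2 h1⟩)
  · exact Itl.of_cases (Or.inl ⟨(key c).1 h1, (key d).2 h2⟩)

end Pool.Agent.V7H65.LP
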