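import Pool.Agent.V7H65.LP.Cpl3
import Mathlib.Logic.Encodable.Basic

/-!
# Completeness: the straight-line drawing of the graph
-/

set_option autoImplicit false

namespace Pool.Agent.V7H65.LP

open SimpleGraph FI

variable {I : FI}

/-- The next vertex on a spoke. -/
def nxt (I : FI) (w : ℕ × ℕ) (t : ℕ) : VT := if t + 1 < I.len w then (w, t + 1) else ctr

theorem adj_cases (ok : I.Ok) {v v' : VT} (h : I.G.Adj v v') :
    (∃ w w', v = (w, 0) ∧ v' = (w', 0) ∧ I.HAdj w w') ∨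
      (∃ w t, I.HV w ∧ t < I.len w ∧ v = (w, t) ∧ v' = nxt I w t) ∨
      (∃ w t, I.HV w ∧ t < I.len w ∧ v' = (w, t) ∧ v = nxt I w t) := by
  have key : ∀ v v' : VT, I.VArc v v' →
      (∃ w w', v = (w, 0) ∧ v' = (w', 0) ∧ I.HArc w w') ∨
      (∃ w t, I.HV w ∧ t < I.len w ∧ v = (w, t) ∧ v' = nxt I w t) := by
    intro v v' h
    rcases h with ⟨h1, h2, h3⟩ | ⟨h1, h2, h3, h4⟩ | ⟨h1, h2, h3⟩
    · exact Or.inl ⟨v.1, v'.1, by rw [← h1], by rw [← h2], h3⟩
    · refine Or.inr ⟨v.1, v.2, h1, by omega, rfl, ?_⟩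
      unfold nxt
      rw [if_pos (by omega)]
      ext
      · rw [h2]
      · rw [h2]
      · exact h3
    · refine Or.inr ⟨v.1, v.2, h1, by omega, rfl, ?_⟩
      unfold nxt
      rw [if_neg (by omega)]
      exact h3
  rw [FI.G, SimpleGraph.fromRel_adj] at h
  rcases h.2 with h | h
  · rcases key _ _ h with ⟨w, w', h1, h2, h3⟩ | h1
    · exact Or.inl ⟨w, w', h1, h2, Or.inl h3⟩
    · exact Or.inr (Or.inl h1)
  · rcases key _ _ h with ⟨w, w', h1, h2, h3⟩ | h1
    · exact Or.inl ⟨w', w, h2, h1, Or.inr h3⟩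
    · exact Or.inr (Or.inr h1)

/-- The spoke vertices. -/
def Sv (I : FI) (v : VT) : Prop := I.HV v.1 ∧ v.2 < I.len v.1

open Classical in
/-- The points of the drawing. -/
noncomputable def Ord.pt (O : Ord I) (R : ℝ) (v : VT) : ℂ :=
  if v = ctr then ⟨0, R⟩
  else if Sv I v then Q R (O.pos v.1 : ℝ) ((v.2 : ℝ) / (I.len v.1 : ℝ))
  else ⟨(Encodable.encode v : ℝ), R + 1⟩

variable (O : Ord I) {R : ℝ}

theorem pt_ctr' : O.pt R ctr = ⟨0, R⟩ := if_pos rfl

theorem ctr_Q (x : ℝ) : O.pt R ctr = Q R x 1 := by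
  rw [pt_ctr']
  unfold Q
  apply Complex.ext <;> simp

theorem pt_Sv {w : ℕ × ℕ} {t : ℕ} (hw : I.HV w) (ht : t < I.len w) :
    O.pt R (w, t) = Q R (O.pos w : ℝ) ((t : ℝ) / (I.len w : ℝ)) := by
  unfold Ord.pt
  rw [if_neg (hw.ne_ctr t), if_pos ⟨hw, ht⟩]

theorem pt_zero (ok : I.Ok) {w : ℕ × ℕ} (hw : I.HV w) :
    O.pt R (w, 0) = Q R (O.pos w : ℝ) 0 := by
  rw [pt_Sv O hw (len_pos ok w)]
  simp

theorem pt_nxt (ok : I.Ok) {w : ℕ × ℕ} {t : ℕ} (hw : I.HV w) (ht : t < I.len w) :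
    O.pt R (nxt I w t) = Q R (O.pos w : ℝ) (((t + 1 : ℕ) : ℝ) / (I.len w : ℝ)) := by
  have hl : (0 : ℝ) < I.len w := by exact_mod_cast len_pos ok w
  unfold nxt
  split_ifs with h
  · exact pt_Sv O hw h
  · have : t + 1 = I.len w := by omega
    rw [this, div_self hl.ne']
    exact ctr_Q O _

theorem pt_junk {v : VT} (h1 : v ≠ ctr) (h2 : ¬ Sv I v) :
    O.pt R v = ⟨(Encodable.encode v : ℝ), R + 1⟩ := by
  unfold Ord.pt
  rw [if_neg h1, if_neg h2]

/-- The three kinds of vertices. -/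
theorem v_cases (v : VT) : v = ctr ∨ (∃ w t, v = (w, t) ∧ I.HV w ∧ t < I.len w) ∨
    (v ≠ ctr ∧ ¬ Sv I v) := by
  by_cases h1 : v = ctr
  · exact Or.inl h1
  · by_cases h2 : Sv I v
    · exact Or.inr (Or.inl ⟨v.1, v.2, rfl, h2.1, h2.2⟩)
    · exact Or.inr (Or.inr ⟨h1, h2⟩)

/-- `R` is large. -/
def Big (O : Ord I) (R : ℝ) : Prop := ∀ w, I.HV w → (O.pos w : ℝ) ^ 2 < R

variable {O}

theorem Big.pos (hR : Big O R) : 0 < R := by
  have := hR hub hv_hub
  rw [O.pos_hub] at this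
  simpa using this

theorem frac_lt {w : ℕ × ℕ} {t : ℕ} (ht : t < I.len w) : (t : ℝ) / (I.len w : ℝ) < 1 := by
  rw [div_lt_one (by exact_mod_cast (Nat.zero_le _).trans_lt ht)]
  exact_mod_cast ht

theorem frac_nonneg (w : ℕ × ℕ) (t : ℕ) : 0 ≤ (t : ℝ) / (I.len w : ℝ) := by positivity

theorem pt_im_le (hR : Big O R) {v : VT} (h : v = ctr ∨ Sv I v) : (O.pt R v).im ≤ R := by
  rcases h with rfl | ⟨h1, h2⟩
  · rw [pt_ctr']
  · obtain ⟨w, t⟩ := v
    rw [pt_Sv O h1 h2]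
    exact Q_im_le (hR w h1) (frac_lt h2).le

theorem pos_ne {w w' : ℕ × ℕ} (hw : I.HV w) (hw' : I.HV w') (hne : w ≠ w') :
    (O.pos w : ℝ) ≠ (O.pos w' : ℝ) := by
  intro he
  exact hne (O.pos_inj hw hw' (by exact_mod_cast he))

theorem pt_injective (hR : Big O R) : Function.Injective (O.pt R) := by
  have low : ∀ v : VT, v = ctr ∨ Sv I v → ∀ v' : VT, v' ≠ ctr → ¬ Sv I v' →
      O.pt R v ≠ O.pt R v' := by
    intro v hv v' h1 h2 he
    have h3 := pt_im_le hR hv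
    rw [he, pt_junk O h1 h2] at h3
    simp only at h3
    linarith
  intro v v' he
  rcases v_cases (I := I) v with h | ⟨w, t, h, hw, ht⟩ | ⟨h, hs⟩
  · rcases v_cases (I := I) v' with h' | ⟨w', t', h', hw', ht'⟩ | ⟨h', hs'⟩
    · rw [h, h']
    · exfalso
      rw [h, h', ctr_Q O (O.pos w'), pt_Sv O hw' ht'] at he
      have := spoke_spoke_eq (hR w' hw') he
      have h3 := frac_lt ht'
      linarith
    · exact absurd he (low v (Or.inl h) v' h' hs')
  · rcases v_cases (I := I) v' with h' | ⟨w', t', h', hw', ht'⟩ | ⟨h', hs'⟩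
    · exfalso
      rw [h, h', ctr_Q O (O.pos w), pt_Sv O hw ht] at he
      have := spoke_spoke_eq (hR w hw) he
      have h3 := frac_lt ht
      linarith
    · rw [h, h', pt_Sv O hw ht, pt_Sv O hw' ht'] at he
      have hl : (0 : ℝ) < I.len w := by exact_mod_cast (Nat.zero_le _).trans_lt ht
      by_cases hww : w = w'
      · subst hww
        have := spoke_spoke_eq (hR w hw) he
        rw [div_left_inj' hl.ne'] at this
        have h3 : t = t' := by exact_mod_cast this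
        rw [h, h', h3]
      · exfalso
        have := (spoke_spoke_ne (pos_ne hw hw' hww) (hR w hw) (hR w' hw') he).1
        have h3 := frac_lt ht
        linarith
    · exact absurd he (low v (Or.inr (by rw [h]; exact ⟨hw, ht⟩)) v' h' hs')
  · rcases v_cases (I := I) v' with h' | ⟨w', t', h', hw', ht'⟩ | ⟨h', hs'⟩
    · exact absurd he.symm (low v' (Or.inl h') v h hs)
    · exact absurd he.symm (low v' (Or.inr (by rw [h']; exact ⟨hw', ht'⟩)) v h hs)
    · rw [pt_junk O h hs, pt_junk O h' hs'] at he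
      have := congrArg Complex.re he
      simp only at this
      exact Encodable.encode_injective (by exact_mod_cast this)

/-- Vertices on chords. -/
theorem avoid_chord (ok : I.Ok) (hR : Big O R) {w w' : ℕ × ℕ} (hw : I.HV w) (hw' : I.HV w')
    (hne : w ≠ w') {x : VT} (hx : O.pt R x ∈ sg (O.pt R (w, 0)) (O.pt R (w', 0))) :
    x = (w, 0) ∨ x = (w', 0) := by
  rw [pt_zero O ok hw, pt_zero O ok hw'] at hx
  have hab := pos_ne (O := O) hw hw' hne
  rcases v_cases (I := I) x with h | ⟨y, t, h, hy, ht⟩ | ⟨h, hs⟩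
  · exfalso
    rw [h, ctr_Q O (O.pos w)] at hx
    have := (chord_spoke hab (hR w hw) zero_le_one hx).1
    linarith
  · rw [h, pt_Sv O hy ht] at hx
    obtain ⟨h1, h2⟩ := chord_spoke hab (hR y hy) (frac_nonneg y t) hx
    have hl : (0 : ℝ) < I.len y := by exact_mod_cast len_pos ok y
    have ht0 : t = 0 := by
      have := (div_eq_zero_iff.1 h1).resolve_right hl.ne'
      exact_mod_cast this
    subst ht0
    rcases h2 with h2 | h2
    · left
      rw [h, O.pos_inj hy hw (by exact_mod_cast h2)]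
    · right
      rw [h, O.pos_inj hy hw' (by exact_mod_cast h2)]
  · exfalso
    have h1 := chord_im_le hx
    rw [pt_junk O h hs] at h1
    simp only at h1
    have := hR.pos
    linarith

theorem seg_param (ok : I.Ok) {w : ℕ × ℕ} {t : ℕ} (hw : I.HV w) (ht : t < I.len w)
    {z : ℂ} (hz : z ∈ sg (O.pt R (w, t)) (O.pt R (nxt I w t))) :
    ∃ σ : ℝ, (t : ℝ) / (I.len w : ℝ) ≤ σ ∧ σ ≤ ((t + 1 : ℕ) : ℝ) / (I.len w : ℝ) ∧
      z = Q R (O.pos w : ℝ) σ := by
  rw [pt_nxt O ok hw ht, pt_Sv O hw ht] at hz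
  refine spoke ?_ hz
  have hl : (0 : ℝ) < I.len w := by exact_mod_cast len_pos ok w
  gcongr
  push_cast
  linarith

/-- Vertices on spoke edges. -/
theorem avoid_spoke (ok : I.Ok) (hR : Big O R) {w : ℕ × ℕ} {t : ℕ} (hw : I.HV w)
    (ht : t < I.len w) {x : VT} (hx : O.pt R x ∈ sg (O.pt R (w, t)) (O.pt R (nxt I w t))) :
    x = (w, t) ∨ x = nxt I w t := by
  have hl : (0 : ℝ) < I.len w := by exact_mod_cast len_pos ok w
  obtain ⟨σ, s1, s2, hσ⟩ := seg_param ok hw ht hx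
  have hle : ((t + 1 : ℕ) : ℝ) / (I.len w : ℝ) ≤ 1 := by
    rw [div_le_one hl]
    exact_mod_cast ht
  rcases v_cases (I := I) x with h | ⟨y, t', h, hy, ht'⟩ | ⟨h, hs⟩
  · right
    rw [h, ctr_Q O (O.pos w)] at hσ
    have h1 := spoke_spoke_eq (hR w hw) hσ
    rw [← h1, le_div_iff₀ hl, one_mul] at s2
    have h2 : I.len w ≤ t + 1 := by exact_mod_cast s2
    unfold nxt
    rw [if_neg (by omega)]
    exact h
  · rw [h, pt_Sv O hy ht'] at hσ
    by_cases hyw : y = w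
    · subst hyw
      have h1 := spoke_spoke_eq (hR y hy) hσ
      rw [← h1] at s1 s2
      rw [div_le_div_iff_of_pos_right hl] at s1 s2
      have g1 : t ≤ t' := by exact_mod_cast s1
      have g2 : t' ≤ t + 1 := by exact_mod_cast s2
      rcases Nat.eq_or_lt_of_le g1 with g | g
      · left
        rw [h, g]
      · right
        have : t' = t + 1 := by omega
        subst this
        unfold nxt
        rw [if_pos ht', h]
    · exfalso
      have := (spoke_spoke_ne (pos_ne hy hw hyw) (hR y hy) (hR w hw) hσ).1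
      have := frac_lt ht'
      linarith
  · exfalso
    have h1 := Q_im_le (R := R) (hR w hw) (s2.trans hle)
    rw [← hσ, pt_junk O h hs] at h1
    simp only at h1
    linarith

/-- The crossing condition. -/
def Gd (O : Ord I) (R : ℝ) (v w x y : VT) : Prop :=
  s(v, w) ≠ s(x, y) → ∀ z ∈ sg (O.pt R v) (O.pt R w), z ∈ sg (O.pt R x) (O.pt R y) →
    (∃ u, (u = v ∨ u = w) ∧ (u = x ∨ u = y) ∧ z = O.pt R u) ∨
      (dt (O.pt R w - O.pt R v) (O.pt R y - O.pt R x) ≠ 0 ∧ Far I.G I.T v w x y)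

theorem dt_swap (a b c d : ℂ) : dt (b - a) (d - c) ≠ 0 ↔ dt (a - b) (d - c) ≠ 0 := by
  have : dt (a - b) (d - c) = - dt (b - a) (d - c) := by
    unfold dt
    simp only [Complex.sub_re, Complex.sub_im]
    ring
  rw [this, neg_ne_zero]

theorem dt_comm (p q : ℂ) : dt p q ≠ 0 ↔ dt q p ≠ 0 := by
  have : dt q p = - dt p q := by
    unfold dt
    ring
  rw [this, neg_ne_zero]

theorem Gd.swap {v w x y : VT} (h : Gd O R w v x y) : Gd O R v w x y := by
  intro hne z hz hz'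
  rw [sg_symm] at hz
  rcases h (by rwa [Sym2.eq_swap] at hne) z hz hz' with ⟨u, h1, h2, h3⟩ | ⟨h1, ψ, h2, h3⟩
  · exact Or.inl ⟨u, h1.symm, h2, h3⟩
  · exact Or.inr ⟨(dt_swap _ _ _ _).1 h1, ψ, h2, by tauto⟩

theorem Gd.comm {v w x y : VT} (h : Gd O R x y v w) : Gd O R v w x y := by
  intro hne z hz hz'
  rcases h hne.symm z hz' hz with ⟨u, h1, h2, h3⟩ | ⟨h1, ψ, h2, h3⟩
  · exact Or.inl ⟨u, h2, h1, h3⟩
  · exact Or.inr ⟨(dt_comm _ _).1 h1, ψ, h2, by tauto⟩

theorem gd_chords (ok : I.Ok) {v w x y : ℕ × ℕ} (h : I.HArc v w) (h' : I.HArc x y) :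
    Gd O R (v, 0) (w, 0) (x, 0) (y, 0) := by
  have hs := h.spec ok
  have hs' := h'.spec ok
  intro hne z hz hz'
  have pz := fun {w : ℕ × ℕ} (hw : I.HV w) => pt_zero O (R := R) ok hw
  rw [pz hs.1, pz hs.2.1] at hz
  rw [pz hs'.1, pz hs'.2.1] at hz'
  rw [pz hs.1, pz hs.2.1, pz hs'.1, pz hs'.2.1]
  rcases chord_chord hz hz' with ⟨h1, h2⟩ | ⟨h1, h2⟩ | ⟨h1, h2⟩ | h1
  · left
    refine ⟨(x, 0), ?_, Or.inl rfl, by rw [pz hs'.1]; exact h1⟩
    rcases h2 with h2 | h2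
    · left
      rw [O.pos_inj hs'.1 hs.1 (by exact_mod_cast h2)]
    · right
      rw [O.pos_inj hs'.1 hs.2.1 (by exact_mod_cast h2)]
  · left
    refine ⟨(y, 0), ?_, Or.inr rfl, by rw [pz hs'.2.1]; exact h1⟩
    rcases h2 with h2 | h2
    · left
      rw [O.pos_inj hs'.2.1 hs.1 (by exact_mod_cast h2)]
    · right
      rw [O.pos_inj hs'.2.1 hs.2.1 (by exact_mod_cast h2)]
  · exfalso
    apply hne
    rcases h1 with h1 | h1
    · have e1 := O.pos_inj hs'.1 hs.1 (by exact_mod_cast h1)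
      rcases h2 with h2 | h2
      · have e2 := O.pos_inj hs'.2.1 hs.1 (by exact_mod_cast h2)
        exact absurd (e1.trans e2.symm) hs'.2.2
      · have e2 := O.pos_inj hs'.2.1 hs.2.1 (by exact_mod_cast h2)
        rw [e1, e2]
    · have e1 := O.pos_inj hs'.1 hs.2.1 (by exact_mod_cast h1)
      rcases h2 with h2 | h2
      · have e2 := O.pos_inj hs'.2.1 hs.1 (by exact_mod_cast h2)
        rw [e1, e2, Sym2.eq_swap]
      · have e2 := O.pos_inj hs'.2.1 hs.2.1 (by exact_mod_cast h2)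
        exact absurd (e1.trans e2.symm) hs'.2.2
  · right
    refine ⟨chord_dt h1, ?_⟩
    rcases itl_far O ok h h' (itl_of_real h1) with ⟨k, hk, e1, e2, f1, f2⟩ |
      ⟨k, hk, e1, e2, f1, f2⟩
    · refine ⟨I.psi k, fun a b hab => psi_adj ok hab, Or.inl ?_⟩
      rw [psi_zero ok hs.1, psi_zero ok hs.2.1, psi_zero ok hs'.1, psi_zero ok hs'.2.1]
      exact ⟨by rw [e1, phi_cA ok], by rw [e2, phi_cB hk], f1, f2⟩
    · refine ⟨I.psi k, fun a b hab => psi_adj ok hab, Or.inr ?_⟩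
      rw [psi_zero ok hs.1, psi_zero ok hs.2.1, psi_zero ok hs'.1, psi_zero ok hs'.2.1]
      exact ⟨by rw [e1, phi_cA ok], by rw [e2, phi_cB hk], f1, f2⟩

theorem gd_chord_spoke (ok : I.Ok) (hR : Big O R) {v w x : ℕ × ℕ} {t : ℕ} (h : I.HArc v w)
    (hx : I.HV x) (ht : t < I.len x) : Gd O R (v, 0) (w, 0) (x, t) (nxt I x t) := by
  have hs := h.spec ok
  intro hne z hz hz'
  left
  have pz := fun {w : ℕ × ℕ} (hw : I.HV w) => pt_zero O (R := R) ok hw
  rw [pz hs.1, pz hs.2.1] at hz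
  obtain ⟨σ, s1, s2, hσ⟩ := seg_param ok hx ht hz'
  rw [hσ] at hz
  have h0 : 0 ≤ σ := (frac_nonneg x t).trans s1
  obtain ⟨g1, g2⟩ := chord_spoke (pos_ne hs.1 hs.2.1 hs.2.2) (hR x hx) h0 hz
  have hl : (0 : ℝ) < I.len x := by exact_mod_cast len_pos ok x
  have ht0 : t = 0 := by
    rw [g1] at s1
    have h3 := le_antisymm s1 (frac_nonneg x t)
    have := (div_eq_zero_iff.1 h3).resolve_right hl.ne'
    exact_mod_cast this
  subst ht0
  refine ⟨(x, 0), ?_, Or.inl rfl, by rw [pz hx, hσ, g1]⟩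
  rcases g2 with g2 | g2
  · left
    rw [O.pos_inj hx hs.1 (by exact_mod_cast g2)]
  · right
    rw [O.pos_inj hx hs.2.1 (by exact_mod_cast g2)]

theorem gd_spokes (ok : I.Ok) (hR : Big O R) {x y : ℕ × ℕ} {t r : ℕ}
    (hx : I.HV x) (ht : t < I.len x) (hy : I.HV y) (hr : r < I.len y) :
    Gd O R (x, t) (nxt I x t) (y, r) (nxt I y r) := by
  intro hne z hz hz'
  left
  have lx : (0 : ℝ) < I.len x := by exact_mod_cast len_pos ok x
  have ly : (0 : ℝ) < I.len y := by exact_mod_cast len_pos ok y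
  obtain ⟨σ, s1, s2, hσ⟩ := seg_param ok hx ht hz
  obtain ⟨τ, t1, t2, hτ⟩ := seg_param ok hy hr hz'
  by_cases hxy : x = y
  · subst hxy
    have he := spoke_spoke_eq (hR x hx) (hσ.symm.trans hτ)
    subst he
    have k1 := s1.trans t2
    have k2 := t1.trans s2
    rw [div_le_div_iff_of_pos_right lx] at k1 k2
    have k1' : t ≤ r + 1 := by exact_mod_cast k1
    have k2' : r ≤ t + 1 := by exact_mod_cast k2
    have htr : t ≠ r := by
      rintro rfl
      exact hne rfl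
    rcases Nat.lt_or_gt_of_ne htr with h | h
    · have : r = t + 1 := by omega
      subst this
      refine ⟨(x, t + 1), Or.inr ?_, Or.inl rfl, ?_⟩
      · unfold nxt
        rw [if_pos hr]
      · rw [pt_Sv O hx hr, hσ, le_antisymm s2 t1]
    · have : t = r + 1 := by omega
      subst this
      refine ⟨(x, r + 1), Or.inl rfl, Or.inr ?_, ?_⟩
      · unfold nxt
        rw [if_pos ht]
      · rw [pt_Sv O hx ht, hσ, le_antisymm t2 s1]
  · obtain ⟨e1, e2⟩ := spoke_spoke_ne (pos_ne hx hy hxy) (hR x hx) (hR y hy)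
      (hσ.symm.trans hτ)
    rw [e1, le_div_iff₀ lx, one_mul] at s2
    rw [e2, le_div_iff₀ ly, one_mul] at t2
    have k1 : I.len x ≤ t + 1 := by exact_mod_cast s2
    have k2 : I.len y ≤ r + 1 := by exact_mod_cast t2
    refine ⟨ctr, Or.inr ?_, Or.inr ?_, ?_⟩
    · unfold nxt
      rw [if_neg (by omega)]
    · unfold nxt
      rw [if_neg (by omega)]
    · rw [hσ, e1]
      exact (ctr_Q O _).symm

theorem gd_all (ok : I.Ok) (hR : Big O R) {v w x y : VT} (h : I.G.Adj v w)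
    (h' : I.G.Adj x y) : Gd O R v w x y := by
  have hcs : ∀ {v w x : ℕ × ℕ} {t : ℕ}, I.HAdj v w → I.HV x → t < I.len x →
      Gd O R (v, 0) (w, 0) (x, t) (nxt I x t) := by
    intro v w x t h hx ht
    rcases h with h | h
    · exact gd_chord_spoke ok hR h hx ht
    · exact (gd_chord_spoke ok hR h hx ht).swap
  have sw2 : ∀ {v w x y : VT}, Gd O R v w y x → Gd O R v w x y :=
    fun h => h.comm.swap.comm
  rcases adj_cases ok h with ⟨a, b, rfl, rfl, hab⟩ | ⟨a, t, ha, ht, rfl, rfl⟩ |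
    ⟨a, t, ha, ht, rfl, rfl⟩
  · rcases adj_cases ok h' with ⟨c, d, rfl, rfl, hcd⟩ | ⟨c, r, hc, hr, rfl, rfl⟩ |
      ⟨c, r, hc, hr, rfl, rfl⟩
    · rcases hab with hab | hab <;> rcases hcd with hcd | hcd
      · exact gd_chords ok hab hcd
      · exact sw2 (gd_chords ok hab hcd)
      · exact (gd_chords ok hab hcd).swap
      · exact sw2 (gd_chords ok hab hcd).swap
    · exact hcs hab hc hr
    · exact sw2 (hcs hab hc hr)
  · rcases adj_cases ok h' with ⟨c, d, rfl, rfl, hcd⟩ | ⟨c, r, hc, hr, rfl, rfl⟩ |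
      ⟨c, r, hc, hr, rfl, rfl⟩
    · exact (hcs hcd ha ht).comm
    · exact gd_spokes ok hR ha ht hc hr
    · exact sw2 (gd_spokes ok hR ha ht hc hr)
  · rcases adj_cases ok h' with ⟨c, d, rfl, rfl, hcd⟩ | ⟨c, r, hc, hr, rfl, rfl⟩ |
      ⟨c, r, hc, hr, rfl, rfl⟩
    · exact (sw2 (hcs hcd ha ht)).comm
    · exact (gd_spokes ok hR ha ht hc hr).swap
    · exact (sw2 (gd_spokes ok hR ha ht hc hr)).swap

theorem exists_big (O : Ord I) : ∃ R, Big O R := by
  obtain ⟨M, hM⟩ : ∃ M, ∀ i < I.E, O.rk i ≤ M :=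
    ⟨(Finset.range I.E).sup O.rk, fun i hi => Finset.le_sup (Finset.mem_range.2 hi)⟩
  refine ⟨((1 + M * I.W + I.W : ℕ) : ℝ) ^ 2 + 1, fun w hw => ?_⟩
  have h1 : O.pos w ≤ 1 + M * I.W + I.W := by
    rcases hw with hw | ⟨h1, h2, h3⟩
    · rw [hw, O.pos_hub]
      omega
    · unfold Ord.pos
      rw [if_neg (by omega)]
      have e1 := O.loc_lt (j := w.1 - 2) h3
      have e2 := Nat.mul_le_mul_right I.W (hM (w.1 - 2) (by omega))
      omega
  have h2 : (O.pos w : ℝ) ≤ ((1 + M * I.W + I.W : ℕ) : ℝ) := by exact_mod_cast h1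
  have h3 : (0 : ℝ) ≤ (O.pos w : ℝ) := by positivity
  nlinarith

/-- The conditions for a straight-line drawing are satisfied. -/
theorem exists_SD1 (ok : I.Ok) (O : Ord I) : ∃ pt : VT → ℂ, SD1 I.G pt I.T := by
  obtain ⟨R, hR⟩ := exists_big O
  refine ⟨O.pt R, pt_injective hR, ?_, ?_⟩
  · intro v w x hvw hx
    rcases adj_cases ok hvw with ⟨a, b, rfl, rfl, hab⟩ | ⟨a, t, ha, ht, rfl, rfl⟩ |
      ⟨a, t, ha, ht, rfl, rfl⟩
    · have hs := hab.spec ok
      exact avoid_chord ok hR hs.1 hs.2.1 hs.2.2 hx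
    · exact avoid_spoke ok hR ha ht hx
    · rw [sg_symm] at hx
      exact (avoid_spoke ok hR ha ht hx).symm
  · intro v w x y hvw hxy
    exact gd_all ok hR hvw hxy

end Pool.Agent.V7H65.LP
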