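import Mathlib

/-!
# Locally planar drawings: definitions
-/

set_option autoImplicit false

namespace Pool.Agent.V7H65.LP

/-- The sets `A` and `B` cross properly at the point `z` of the plane: after a homeomorphism of the
plane that sends `z` to the origin they coincide near the origin with the two coordinate axes. -/
def ProperCrossing (A B : Set ℂ) (z : ℂ) : Prop :=
  ∃ (φ : ℂ ≃ₜ ℂ) (r : ℝ), 0 < r ∧ φ 0 = z ∧
    ∀ w : ℂ, ‖w‖ < r → ((φ w ∈ A ↔ w.im = 0) ∧ (φ w ∈ B ↔ w.re = 0))

/-- A drawing of the graph `G` in the plane `ℂ`: the vertices are different points, every edge is a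
Jordan arc (an injective continuous image of the unit interval) that joins its end-vertices and
passes through no other vertex. (The arc of an edge is given for both of its directions, as the
same arc traversed backwards.) -/
structure Drawing {V : Type} (G : SimpleGraph V) where
  /-- the point of a vertex -/
  pt : V → ℂ
  /-- the arc of an edge -/
  arc : V → V → unitInterval → ℂ
  /-- different vertices are different points -/
  pt_injective : Function.Injective pt
  /-- arcs are continuous -/
  continuous_arc : ∀ v w, G.Adj v w → Continuous (arc v w)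
  /-- arcs are injective -/
  injective_arc : ∀ v w, G.Adj v w → Function.Injective (arc v w)
  /-- the arc of `vw` starts at `v` -/
  arc_zero : ∀ v w, G.Adj v w → arc v w 0 = pt v
  /-- the arc of `vw` ends at `w` -/
  arc_one : ∀ v w, G.Adj v w → arc v w 1 = pt w
  /-- the arc of `wv` is the arc of `vw` traversed backwards -/
  arc_symm : ∀ v w, G.Adj v w → ∀ t, arc w v t = arc v w (unitInterval.symm t)
  /-- arcs pass through no vertices other than their ends -/
  arc_avoids : ∀ v w x, G.Adj v w → pt x ∈ Set.range (arc v w) → x = v ∨ x = w

variable {V : Type} {G : SimpleGraph V}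

/-- The set of the points of an edge. -/
def Drawing.img (D : Drawing G) (e : Sym2 V) : Set ℂ :=
  {z | ∃ v w, G.Adj v w ∧ e = s(v, w) ∧ z ∈ Set.range (D.arc v w)}

/-- The edges `e` and `f` cross: they share a point which is not the point of a common
end-vertex. -/
def Drawing.Cross (D : Drawing G) (e f : Sym2 V) : Prop :=
  ∃ z ∈ D.img e ∩ D.img f, ∀ u, u ∈ e → u ∈ f → z ≠ D.pt u

/-- The drawing is a topological graph: any two edges meet in finitely many points, each of which is
the point of a common end-vertex or a proper crossing. -/
def Drawing.IsTopological (D : Drawing G) : Prop :=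
  ∀ e ∈ G.edgeSet, ∀ f ∈ G.edgeSet, e ≠ f → (D.img e ∩ D.img f).Finite ∧
    ∀ z ∈ D.img e ∩ D.img f, (∃ u, u ∈ e ∧ u ∈ f ∧ z = D.pt u) ∨
      ProperCrossing (D.img e) (D.img f) z

/-- The drawing is straight-line: all arcs are line segments, traversed at constant speed. -/
def Drawing.IsStraight (D : Drawing G) : Prop :=
  ∀ v w, G.Adj v w → ∀ t : unitInterval,
    D.arc v w t = (1 - (t : ℝ) : ℝ) * D.pt v + ((t : ℝ) : ℝ) * D.pt w

/-- The drawing is `k`-locally planar: no two edges of a path with at most `k` edges cross. -/
def Drawing.LocallyPlanar (D : Drawing G) (k : ℕ) : Prop :=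
  ∀ (v w : V) (p : G.Walk v w), p.IsPath → p.length ≤ k →
    ∀ e ∈ p.edges, ∀ f ∈ p.edges, e ≠ f → ¬ D.Cross e f

/-- The graph `G` is `k`-locally planar: it has a drawing that is a topological graph in which no
path with at most `k` edges has a self-crossing. -/
def LocPlanar (k : ℕ) {V : Type} (G : SimpleGraph V) : Prop :=
  ∃ D : Drawing G, D.IsTopological ∧ D.LocallyPlanar k

/-- `G` has a straight-line drawing, a topological graph in which no path with at most `k` edges has
a self-crossing, and in which any two edges have at most one common point. -/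
def StraightLocPlanar (k : ℕ) {V : Type} (G : SimpleGraph V) : Prop :=
  ∃ D : Drawing G, D.IsStraight ∧ D.IsTopological ∧ D.LocallyPlanar k ∧
    ∀ e ∈ G.edgeSet, ∀ f ∈ G.edgeSet, e ≠ f → (D.img e ∩ D.img f).Subsingleton

/-- `G` has a drawing (the edges are arbitrary Jordan arcs, without any condition on how often and
in which way they meet) such that no two edges of a path with at most `k` edges cross. -/
def WeakLocPlanar (k : ℕ) {V : Type} (G : SimpleGraph V) : Prop :=
  ∃ D : Drawing G, D.LocallyPlanar k

theorem StraightLocPlanar.locPlanar {k : ℕ} {V : Type} {G : SimpleGraph V}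
    (h : StraightLocPlanar k G) : LocPlanar k G := by
  obtain ⟨D, -, h1, h2, -⟩ := h
  exact ⟨D, h1, h2⟩

theorem LocPlanar.weak {k : ℕ} {V : Type} {G : SimpleGraph V} (h : LocPlanar k G) :
    WeakLocPlanar k G := by
  obtain ⟨D, -, h2⟩ := h
  exact ⟨D, h2⟩

end Pool.Agent.V7H65.LP
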