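import Pool.Agent.V7H65.LP.Abs

/-!
# From locally planar drawings to drawings with the disjointness conditions
-/

set_option autoImplicit false

namespace Pool.Agent.V7H65.LP

open SimpleGraph

variable {V V' : Type} {G : SimpleGraph V} {G' : SimpleGraph V'}

theorem RW.map {f : V → V'} (hf : ∀ v w, G.Adj v w → G'.Adj (f v) (f w)) {n : ℕ} {v w : V}
    (h : RW G n v w) : RW G' n (f v) (f w) := by
  obtain ⟨p, hp⟩ := h
  exact ⟨p.map ⟨f, fun {a b} hab => hf a b hab⟩, by rwa [Walk.length_map]⟩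

/-- The drawing with the disjointness conditions. -/
noncomputable def Drawing.toPD (D : Drawing G') {T : ℕ} (hD : D.LocallyPlanar (T + 2))
    (f : V → V') (hf : ∀ v w, G.Adj v w → G'.Adj (f v) (f w))
    (hinj : ∀ v w x y, G.Adj v x → G.Adj w y → f v = f w → v = w) : PD G T where
  pt v := D.pt (f v)
  pth {v w} h := {
    toFun := D.arc (f v) (f w)
    continuous_toFun := D.continuous_arc _ _ (hf _ _ h)
    source' := D.arc_zero _ _ (hf _ _ h)
    target' := D.arc_one _ _ (hf _ _ h) }
  rev {v w} h := by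
    ext t
    exact D.arc_symm _ _ (hf _ _ h) t
  inj {v w} h := D.injective_arc _ _ (hf _ _ h)
  avoid {v w x y} h h' hx := by
    rcases D.arc_avoids _ _ _ (hf _ _ h) hx with h1 | h1
    · exact Or.inl (hinj _ _ _ _ h' h h1)
    · exact Or.inr (hinj _ _ _ _ h' h.symm h1)
  adjm {v w x} h h' hne := by
    rintro z ⟨hz, hz'⟩
    by_contra hzv
    have hwx : f w ≠ f x := fun he => hne (hinj _ _ _ _ h.symm h'.symm he)
    have ha := hf _ _ h
    have ha' := hf _ _ h'
    have hpath : (Walk.cons ha.symm (Walk.cons ha' Walk.nil)).IsPath := by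
      simp only [Walk.cons_isPath_iff, Walk.isPath_iff_nil, Walk.nil_nil, Walk.support_nil,
        Walk.support_cons, List.mem_cons, true_and, List.not_mem_nil, or_false]
      exact ⟨ha'.ne, by
        rintro (h1 | h1)
        · exact ha.ne h1.symm
        · exact hwx h1⟩
    have hn := hD _ _ (Walk.cons ha.symm (Walk.cons ha' Walk.nil)) hpath (by simp)
      s(f w, f v) (by simp) s(f v, f x) (by simp) (by
        intro he
        rcases Sym2.eq_iff.1 he with ⟨h1, h2⟩ | ⟨h1, h2⟩
        · exact ha.ne h1.symm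
        · exact hwx h1)
    apply hn
    refine ⟨z, ⟨⟨f v, f w, ha, Sym2.eq_swap, hz⟩, ⟨f v, f x, ha', rfl, hz'⟩⟩, ?_⟩
    intro u hu hu' hzu
    rw [Sym2.mem_iff] at hu hu'
    apply hzv
    rw [Set.mem_singleton_iff, hzu]
    rcases hu with rfl | rfl
    · rcases hu' with hu' | hu'
      · rw [hu']
      · exact absurd hu' hwx
    · rfl
  near {v w x y} h h' h1 h2 h3 h4 hd := by
    rw [Set.disjoint_left]
    intro z hz hz'
    have g1 : f v ≠ f x := fun he => h1 (hinj _ _ _ _ h h' he)
    have g2 : f v ≠ f y := fun he => h2 (hinj _ _ _ _ h h'.symm he)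
    have g3 : f w ≠ f x := fun he => h3 (hinj _ _ _ _ h.symm h' he)
    have g4 : f w ≠ f y := fun he => h4 (hinj _ _ _ _ h.symm h'.symm he)
    obtain ⟨a, b, q, hq, hql, he, he'⟩ := near_path (hf _ _ h) (hf _ _ h') g1 g2 g3 g4
      (hd.map hf)
    refine hD a b q hq hql _ he _ he' ?_ ⟨z, ⟨⟨f v, f w, hf _ _ h, rfl, hz⟩,
      ⟨f x, f y, hf _ _ h', rfl, hz'⟩⟩, ?_⟩
    · intro he
      rcases Sym2.eq_iff.1 he with ⟨h1, h2⟩ | ⟨h1, h2⟩
      · exact g1 h1
      · exact g2 h1
    · intro u hu hu'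
      exfalso
      rw [Sym2.mem_iff] at hu hu'
      rcases hu with rfl | rfl <;> rcases hu' with hu' | hu'
      · exact g1 hu'
      · exact g2 hu'
      · exact g3 hu'
      · exact g4 hu'

end Pool.Agent.V7H65.LP
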