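import Pool.Agent.V7H65.LP.Snd3
import Pool.Agent.V7H65.LP.Tr
import Pool.Agent.V7H65.LP.Cpl4
import Pool.Agent.R544.Nae3

/-!
# The instance of the facing problem of a monotone not-all-equal formula
-/

set_option autoImplicit false

namespace Pool.Agent.V7H65.LP

open Pool.Agent.R544

/-- The variable of the occurrence number `o`. -/
def vr (φ : N3) (o : ℕ) : ℕ :=
  if o % 3 = 0 then (tr φ (o / 3)).1 else if o % 3 = 1 then (tr φ (o / 3)).2.1
  else (tr φ (o / 3)).2.2

/-- The next occurrence in the clause. -/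
def nx (o : ℕ) : ℕ := 3 * (o / 3) + (o % 3 + 1) % 3

/-- The previous occurrence in the clause. -/
def pvo (o : ℕ) : ℕ := 3 * (o / 3) + (o % 3 + 2) % 3

/-- The instance. -/
def nI (T : ℕ) (φ : N3) : FI where
  T := T
  E := 6 * φ.length + 1
  K := 9 * φ.length
  src k := if k % 3 = 0 then 1 + vr φ (k / 3) else 1 + 3 * φ.length + k / 3
  prt k := if k % 3 = 1 then 0 else 1
  tgt k := if k % 3 = 0 then 1 + 3 * φ.length + k / 3 else
    if k % 3 = 1 then 1 + vr φ (k / 3) else 1 + 3 * φ.length + nx (k / 3)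

theorem vr_lt {φ : N3} (h : BN φ) {o : ℕ} (ho : o < 3 * φ.length) : vr φ o < 3 * φ.length := by
  have hj : o / 3 < φ.length := by omega
  obtain ⟨h1, h2, h3⟩ := h _ (tr_mem hj)
  unfold vr
  split_ifs
  · exact h1
  · exact h2
  · exact h3

theorem nx_lt {m o : ℕ} (ho : o < 3 * m) : nx o < 3 * m ∧ nx o ≠ o := by
  unfold nx
  omega

theorem nI_ok {T : ℕ} (hT : 1 ≤ T) {φ : N3} (h : BN φ) : (nI T φ).Ok where
  hT := hT
  hsrc k hk := by
    change k < 9 * φ.length at hk
    change (if k % 3 = 0 then 1 + vr φ (k / 3) else 1 + 3 * φ.length + k / 3) <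
      6 * φ.length + 1
    have := vr_lt h (show k / 3 < 3 * φ.length by omega)
    split_ifs <;> omega
  htgt k hk := by
    change k < 9 * φ.length at hk
    change (if k % 3 = 0 then 1 + 3 * φ.length + k / 3 else
      if k % 3 = 1 then 1 + vr φ (k / 3) else 1 + 3 * φ.length + nx (k / 3)) <
      6 * φ.length + 1
    have := vr_lt h (show k / 3 < 3 * φ.length by omega)
    have := nx_lt (show k / 3 < 3 * φ.length by omega)
    split_ifs <;> omega
  hne k hk := by
    change k < 9 * φ.length at hk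
    change (if k % 3 = 0 then 1 + vr φ (k / 3) else 1 + 3 * φ.length + k / 3) ≠
      (if k % 3 = 0 then 1 + 3 * φ.length + k / 3 else
      if k % 3 = 1 then 1 + vr φ (k / 3) else 1 + 3 * φ.length + nx (k / 3))
    have := vr_lt h (show k / 3 < 3 * φ.length by omega)
    have := nx_lt (show k / 3 < 3 * φ.length by omega)
    split_ifs <;> omega

theorem nI_src0 (T : ℕ) (φ : N3) (o : ℕ) : (nI T φ).src (3 * o) = 1 + vr φ o := by
  simp only [nI]
  rw [if_pos (by omega), show 3 * o / 3 = o by omega]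

theorem nI_tgt0 (T : ℕ) (φ : N3) (o : ℕ) : (nI T φ).tgt (3 * o) = 1 + 3 * φ.length + o := by
  simp only [nI]
  rw [if_pos (by omega), show 3 * o / 3 = o by omega]

theorem nI_prt0 (T : ℕ) (φ : N3) (o : ℕ) : (nI T φ).prt (3 * o) = 1 := by
  simp only [nI]
  rw [if_neg (by omega)]

theorem nI_src1 (T : ℕ) (φ : N3) (o : ℕ) :
    (nI T φ).src (3 * o + 1) = 1 + 3 * φ.length + o := by
  simp only [nI]
  rw [if_neg (by omega), show (3 * o + 1) / 3 = o by omega]

theorem nI_tgt1 (T : ℕ) (φ : N3) (o : ℕ) : (nI T φ).tgt (3 * o + 1) = 1 + vr φ o := by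
  simp only [nI]
  rw [if_neg (by omega), if_pos (by omega), show (3 * o + 1) / 3 = o by omega]

theorem nI_prt1 (T : ℕ) (φ : N3) (o : ℕ) : (nI T φ).prt (3 * o + 1) = 0 := by
  simp only [nI]
  rw [if_pos (by omega)]

theorem nI_src2 (T : ℕ) (φ : N3) (o : ℕ) :
    (nI T φ).src (3 * o + 2) = 1 + 3 * φ.length + o := by
  simp only [nI]
  rw [if_neg (by omega), show (3 * o + 2) / 3 = o by omega]

theorem nI_tgt2 (T : ℕ) (φ : N3) (o : ℕ) :
    (nI T φ).tgt (3 * o + 2) = 1 + 3 * φ.length + nx o := by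
  simp only [nI]
  rw [if_neg (by omega), if_neg (by omega), show (3 * o + 2) / 3 = o by omega]

theorem nI_prt2 (T : ℕ) (φ : N3) (o : ℕ) : (nI T φ).prt (3 * o + 2) = 1 := by
  simp only [nI]
  rw [if_neg (by omega)]

/-! ### Soundness -/

theorem z2_a : ∀ a b c d e f : ZMod 2, (a + b) + (c + d) + (e + f) = 1 → a = 1 → c = 0 →
    b + e = d + f := by decide

theorem z2_b : ∀ a b c d e f p : ZMod 2, (a + b) + (c + d) + (e + f) = 1 → a = 1 →
    b + e = p → d + f = p → c = 0 := by decide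

theorem nae_sound {T : ℕ} {φ : N3} (h : BN φ) (F : ℕ → ℕ → ZMod 2)
    (h1 : ∀ k < (nI T φ).K, F ((nI T φ).src k) ((nI T φ).tgt k) =
      if (nI T φ).prt k = 1 then 1 else 0)
    (h2 : ∀ i j l, i < (nI T φ).E → j < (nI T φ).E → l < (nI T φ).E → i ≠ j → i ≠ l → j ≠ l →
      (F i j + F i l) + (F j i + F j l) + (F l i + F l j) = 1)
    (h3 : ∀ i j l, i < (nI T φ).E → j < (nI T φ).E → l < (nI T φ).E → i ≠ j → i ≠ l → j ≠ l →
      Linked (nI T φ) i l → F i j = F i l ∨ F j i = F j l) : NAE3 φ := by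
  rw [nae3_iff]
  have hE : (nI T φ).E = 6 * φ.length + 1 := rfl
  have hK : (nI T φ).K = 9 * φ.length := rfl
  rw [hE] at h2 h3
  -- the relations
  have r0 : ∀ o < 3 * φ.length, F (1 + vr φ o) (1 + 3 * φ.length + o) = 1 := by
    intro o ho
    have := h1 (3 * o) (by rw [hK]; omega)
    rw [nI_src0, nI_tgt0, nI_prt0, if_pos rfl] at this
    exact this
  have r1 : ∀ o < 3 * φ.length, F (1 + 3 * φ.length + o) (1 + vr φ o) = 0 := by
    intro o ho
    have := h1 (3 * o + 1) (by rw [hK]; omega)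
    rw [nI_src1, nI_tgt1, nI_prt1, if_neg (by omega)] at this
    exact this
  have r2 : ∀ o < 3 * φ.length, F (1 + 3 * φ.length + o) (1 + 3 * φ.length + nx o) = 1 := by
    intro o ho
    have := h1 (3 * o + 2) (by rw [hK]; omega)
    rw [nI_src2, nI_tgt2, nI_prt2, if_pos rfl] at this
    exact this
  have hL : ∀ o < 3 * φ.length, Linked (nI T φ) (1 + 3 * φ.length + nx o)
      (1 + 3 * φ.length + o) :=
    fun o ho => ⟨3 * o + 2, by rw [hK]; omega, Or.inr ⟨nI_src2 T φ o, nI_tgt2 T φ o⟩⟩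
  -- orientations
  have o1 : ∀ o < 3 * φ.length, F (1 + vr φ o) 0 + F 0 (1 + vr φ o) =
      F (1 + 3 * φ.length + o) 0 + F 0 (1 + 3 * φ.length + o) := by
    intro o ho
    have hv := vr_lt h ho
    exact z2_a _ _ _ _ _ _ (h2 (1 + vr φ o) (1 + 3 * φ.length + o) 0 (by omega) (by omega)
      (by omega) (by omega) (by omega) (by omega)) (r0 o ho) (r1 o ho)
  refine ⟨fun x => decide (F (1 + x) 0 + F 0 (1 + x) = 1), fun j hj => ?_⟩
  rintro ⟨g1, g2⟩
  have zz : ∀ a b : ZMod 2, decide (a = 1) = decide (b = 1) → a = b := by decide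
  have g1' := zz _ _ g1
  have g2' := zz _ _ g2
  have v0 : vr φ (3 * j) = (tr φ j).1 := by
    unfold vr
    rw [if_pos (by omega), show 3 * j / 3 = j by omega]
  have v1 : vr φ (3 * j + 1) = (tr φ j).2.1 := by
    unfold vr
    rw [if_neg (by omega), if_pos (by omega), show (3 * j + 1) / 3 = j by omega]
  have v2 : vr φ (3 * j + 2) = (tr φ j).2.2 := by
    unfold vr
    rw [if_neg (by omega), if_neg (by omega), show (3 * j + 2) / 3 = j by omega]
  have q0 := o1 (3 * j) (by omega)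
  have q1 := o1 (3 * j + 1) (by omega)
  have q2 := o1 (3 * j + 2) (by omega)
  rw [v0] at q0
  rw [v1] at q1
  rw [v2] at q2
  -- the three blocks
  have e0 := r2 (3 * j) (by omega)
  have e1 := r2 (3 * j + 1) (by omega)
  have e2 := r2 (3 * j + 2) (by omega)
  have x0 : nx (3 * j) = 3 * j + 1 := by unfold nx; omega
  have x1 : nx (3 * j + 1) = 3 * j + 2 := by unfold nx; omega
  have x2 : nx (3 * j + 2) = 3 * j := by unfold nx; omega
  rw [x0] at e0
  rw [x1] at e1
  rw [x2] at e2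
  have hl := hL (3 * j + 2) (by omega)
  rw [x2] at hl
  have b0 : F (1 + 3 * φ.length + (3 * j + 1)) (1 + 3 * φ.length + 3 * j) = 0 :=
    z2_b _ _ _ _ _ _ _ (h2 (1 + 3 * φ.length + 3 * j) (1 + 3 * φ.length + (3 * j + 1)) 0
      (by omega) (by omega) (by omega) (by omega) (by omega) (by omega)) e0
      (q0.symm.trans g1') q1.symm
  have b2 : F (1 + 3 * φ.length + 3 * j) (1 + 3 * φ.length + (3 * j + 2)) = 0 :=
    z2_b _ _ _ _ _ _ _ (h2 (1 + 3 * φ.length + (3 * j + 2)) (1 + 3 * φ.length + 3 * j) 0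
      (by omega) (by omega) (by omega) (by omega) (by omega) (by omega)) e2
      (q2.symm.trans g2'.symm) (q0.symm.trans g1')
  rcases h3 (1 + 3 * φ.length + 3 * j) (1 + 3 * φ.length + (3 * j + 1))
    (1 + 3 * φ.length + (3 * j + 2)) (by omega) (by omega) (by omega) (by omega) (by omega)
    (by omega) hl with h | h
  · rw [e0, b2] at h
    exact absurd h (by decide)
  · rw [b0, e1] at h
    exact absurd h (by decide)

/-! ### Completeness -/

/-- The number of a truth value. -/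
def bn (b : Bool) : ℕ := if b = true then 1 else 0

/-- The rank inside the clause. -/
def rh (τ : ℕ → Bool) (φ : N3) (o : ℕ) : ℕ := bn (τ (vr φ (pvo o))) + bn (!τ (vr φ o))

/-- The ranks. -/
def rkn (τ : ℕ → Bool) (φ : N3) (i : ℕ) : ℕ :=
  if i = 0 then 0
  else if i < 1 + 3 * φ.length then (if τ (i - 1) = true then i else 6 * φ.length + i)
  else 1 + 3 * φ.length + 3 * ((i - (1 + 3 * φ.length)) / 3) +
    rh τ φ (i - (1 + 3 * φ.length))

/-- The orientations. -/
def sn (τ : ℕ → Bool) (φ : N3) (i : ℕ) : Bool :=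
  if i = 0 then true
  else if i < 1 + 3 * φ.length then τ (i - 1)
  else τ (vr φ (i - (1 + 3 * φ.length)))

theorem rkn_V (τ : ℕ → Bool) {φ : N3} {x : ℕ} (hx : x < 3 * φ.length) :
    rkn τ φ (1 + x) = if τ x = true then 1 + x else 6 * φ.length + (1 + x) := by
  unfold rkn
  rw [if_neg (by omega), if_pos (by omega), show 1 + x - 1 = x by omega]

theorem rkn_O (τ : ℕ → Bool) {φ : N3} (o : ℕ) :
    rkn τ φ (1 + 3 * φ.length + o) = 1 + 3 * φ.length + 3 * (o / 3) + rh τ φ o := by
  unfold rkn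
  rw [if_neg (by omega), if_neg (by omega),
    show 1 + 3 * φ.length + o - (1 + 3 * φ.length) = o by omega]

theorem sn_V (τ : ℕ → Bool) {φ : N3} {x : ℕ} (hx : x < 3 * φ.length) :
    sn τ φ (1 + x) = τ x := by
  unfold sn
  rw [if_neg (by omega), if_pos (by omega), show 1 + x - 1 = x by omega]

theorem sn_O (τ : ℕ → Bool) {φ : N3} (o : ℕ) :
    sn τ φ (1 + 3 * φ.length + o) = τ (vr φ o) := by
  unfold sn
  rw [if_neg (by omega), if_neg (by omega),
    show 1 + 3 * φ.length + o - (1 + 3 * φ.length) = o by omega]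

theorem bn_le (b : Bool) : bn b ≤ 1 := by cases b <;> simp [bn]

theorem rh_le (τ : ℕ → Bool) (φ : N3) (o : ℕ) : rh τ φ o ≤ 2 := by
  unfold rh
  have := bn_le (τ (vr φ (pvo o)))
  have := bn_le (!τ (vr φ o))
  omega

/-- The three values in a clause. -/
theorem rh_values (τ : ℕ → Bool) (φ : N3) (j : ℕ) :
    rh τ φ (3 * j) = bn (τ (tr φ j).2.2) + bn (!τ (tr φ j).1) ∧
      rh τ φ (3 * j + 1) = bn (τ (tr φ j).1) + bn (!τ (tr φ j).2.1) ∧
      rh τ φ (3 * j + 2) = bn (τ (tr φ j).2.1) + bn (!τ (tr φ j).2.2) := by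
  have v0 : vr φ (3 * j) = (tr φ j).1 := by
    unfold vr
    rw [if_pos (by omega), show 3 * j / 3 = j by omega]
  have v1 : vr φ (3 * j + 1) = (tr φ j).2.1 := by
    unfold vr
    rw [if_neg (by omega), if_pos (by omega), show (3 * j + 1) / 3 = j by omega]
  have v2 : vr φ (3 * j + 2) = (tr φ j).2.2 := by
    unfold vr
    rw [if_neg (by omega), if_neg (by omega), show (3 * j + 2) / 3 = j by omega]
  have x0 : pvo (3 * j) = 3 * j + 2 := by unfold pvo; omega
  have x1 : pvo (3 * j + 1) = 3 * j := by unfold pvo; omega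
  have x2 : pvo (3 * j + 2) = 3 * j + 1 := by unfold pvo; omega
  unfold rh
  rw [x0, x1, x2, v0, v1, v2]
  exact ⟨rfl, rfl, rfl⟩

/-- The ordering of the blocks given by an assignment. -/
theorem nae_ord {T : ℕ} {φ : N3} (h : BN φ) (hn : NAE3 φ) : Nonempty (Ord (nI T φ)) := by
  obtain ⟨τ, hτ⟩ := (nae3_iff φ).1 hn
  have vals : ∀ j < φ.length, ∃ b0 b1 b2 : Bool, ¬ (b0 = b1 ∧ b1 = b2) ∧
      τ (vr φ (3 * j)) = b0 ∧ τ (vr φ (3 * j + 1)) = b1 ∧ τ (vr φ (3 * j + 2)) = b2 ∧
      rh τ φ (3 * j) = bn b2 + bn (!b0) ∧ rh τ φ (3 * j + 1) = bn b0 + bn (!b1) ∧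
      rh τ φ (3 * j + 2) = bn b1 + bn (!b2) := by
    intro j hj
    have v0 : vr φ (3 * j) = (tr φ j).1 := by
      unfold vr
      rw [if_pos (by omega), show 3 * j / 3 = j by omega]
    have v1 : vr φ (3 * j + 1) = (tr φ j).2.1 := by
      unfold vr
      rw [if_neg (by omega), if_pos (by omega), show (3 * j + 1) / 3 = j by omega]
    have v2 : vr φ (3 * j + 2) = (tr φ j).2.2 := by
      unfold vr
      rw [if_neg (by omega), if_neg (by omega), show (3 * j + 2) / 3 = j by omega]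
    obtain ⟨e0, e1, e2⟩ := rh_values τ φ j
    exact ⟨τ (tr φ j).1, τ (tr φ j).2.1, τ (tr φ j).2.2, hτ j hj, by rw [v0], by rw [v1],
      by rw [v2], e0, e1, e2⟩
  have occ : ∀ o < 3 * φ.length, ∃ j < φ.length, o = 3 * j ∨ o = 3 * j + 1 ∨ o = 3 * j + 2 :=
    fun o ho => ⟨o / 3, by omega, by omega⟩
  refine ⟨⟨rkn τ φ, sn τ φ, ?_, ?_⟩⟩
  · intro i hi j hj hij
    change i < 6 * φ.length + 1 at hi
    change j < 6 * φ.length + 1 at hj
    have cases3 : ∀ i < 6 * φ.length + 1, (i = 0 ∧ rkn τ φ i = 0) ∨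
        (∃ x < 3 * φ.length, i = 1 + x ∧ ((rkn τ φ i = 1 + x) ∨
          rkn τ φ i = 6 * φ.length + (1 + x))) ∨
        (∃ o < 3 * φ.length, i = 1 + 3 * φ.length + o ∧
          rkn τ φ i = 1 + 3 * φ.length + 3 * (o / 3) + rh τ φ o) := by
      intro i hi
      by_cases h0 : i = 0
      · exact Or.inl ⟨h0, by unfold rkn; rw [if_pos h0]⟩
      · by_cases h1 : i < 1 + 3 * φ.length
        · refine Or.inr (Or.inl ⟨i - 1, by omega, by omega, ?_⟩)
          have := rkn_V τ (show i - 1 < 3 * φ.length by omega)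
          rw [show 1 + (i - 1) = i by omega] at this
          rw [this]
          split_ifs
          · exact Or.inl (by omega)
          · exact Or.inr (by omega)
        · refine Or.inr (Or.inr ⟨i - (1 + 3 * φ.length), by omega, by omega, ?_⟩)
          have := rkn_O τ (φ := φ) (i - (1 + 3 * φ.length))
          rwa [show 1 + 3 * φ.length + (i - (1 + 3 * φ.length)) = i by omega] at this
    have hr := rh_le τ φ
    rcases cases3 i hi with ⟨a1, a2⟩ | ⟨x, hx, a1, a2⟩ | ⟨o, ho, a1, a2⟩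
    · rcases cases3 j hj with ⟨c1, c2⟩ | ⟨y, hy, c1, c2⟩ | ⟨p, hp, c1, c2⟩
      · omega
      · omega
      · omega
    · rcases cases3 j hj with ⟨c1, c2⟩ | ⟨y, hy, c1, c2⟩ | ⟨p, hp, c1, c2⟩
      · omega
      · -- both variables; the ranks determine the variable
        omega
      · have := hr p
        omega
    · rcases cases3 j hj with ⟨c1, c2⟩ | ⟨y, hy, c1, c2⟩ | ⟨p, hp, c1, c2⟩
      · omega
      · have := hr o
        omega
      · have r1 := hr o
        have r2 := hr p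
        have hop : o / 3 = p / 3 := by omega
        have hrr : rh τ φ o = rh τ φ p := by omega
        obtain ⟨c, hc, ho'⟩ := occ o ho
        obtain ⟨d, hd, hp'⟩ := occ p hp
        have hcd : c = d := by omega
        subst hcd
        obtain ⟨b0, b1, b2, hb, -, -, -, g0, g1, g2⟩ := vals c hc
        have key : ∀ b0 b1 b2 : Bool, ¬ (b0 = b1 ∧ b1 = b2) →
            bn b2 + bn (!b0) ≠ bn b0 + bn (!b1) ∧ bn b2 + bn (!b0) ≠ bn b1 + bn (!b2) ∧
              bn b0 + bn (!b1) ≠ bn b1 + bn (!b2) := by decide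
        obtain ⟨k1, k2, k3⟩ := key b0 b1 b2 hb
        rcases ho' with rfl | rfl | rfl <;> rcases hp' with rfl | rfl | rfl <;> omega
  · intro k hk
    change k < 9 * φ.length at hk
    obtain ⟨o, ho, hko⟩ : ∃ o < 3 * φ.length, k = 3 * o ∨ k = 3 * o + 1 ∨ k = 3 * o + 2 :=
      ⟨k / 3, by omega, by omega⟩
    have hv := vr_lt h ho
    have hr := rh_le τ φ o
    rcases hko with rfl | rfl | rfl
    · rw [nI_src0, nI_tgt0, nI_prt0, rkn_V τ hv, rkn_O, sn_V τ hv]
      by_cases hb : τ (vr φ o) = true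
      · rw [if_pos hb]
        simp only [hb, iff_true]
        omega
      · rw [if_neg hb]
        simp only [hb]
        simp only [iff_true, Bool.false_eq_true, iff_false]
        omega
    · rw [nI_src1, nI_tgt1, nI_prt1, rkn_V τ hv, rkn_O, sn_O]
      by_cases hb : τ (vr φ o) = true
      · rw [if_pos hb]
        exact ⟨fun hl => absurd hl (by omega), fun hl => absurd (hl.1 hb) (by omega)⟩
      · rw [if_neg hb]
        exact ⟨fun _ => ⟨fun h1 => absurd h1 hb, fun h1 => absurd h1 (by omega)⟩,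
          fun _ => by omega⟩
    · rw [nI_src2, nI_tgt2, nI_prt2, rkn_O, rkn_O, sn_O]
      have hn3 : nx o / 3 = o / 3 := by unfold nx; omega
      rw [hn3]
      obtain ⟨c, hc, hcc⟩ := occ o ho
      obtain ⟨b0, b1, b2, hb, t0, t1, t2, g0, g1, g2⟩ := vals c hc
      have key : ∀ b0 b1 b2 : Bool, ¬ (b0 = b1 ∧ b1 = b2) →
          (bn b2 + bn (!b0) < bn b0 + bn (!b1) ↔ b0 = true) ∧
          (bn b0 + bn (!b1) < bn b1 + bn (!b2) ↔ b1 = true) ∧
          (bn b1 + bn (!b2) < bn b2 + bn (!b0) ↔ b2 = true) := by decide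
      obtain ⟨k1, k2, k3⟩ := key b0 b1 b2 hb
      have x0 : nx (3 * c) = 3 * c + 1 := by unfold nx; omega
      have x1 : nx (3 * c + 1) = 3 * c + 2 := by unfold nx; omega
      have x2 : nx (3 * c + 2) = 3 * c := by unfold nx; omega
      rcases hcc with hcc | hcc | hcc
      · rw [hcc, x0, t0, g0, g1]
        simp only [iff_true]
        rw [← k1]
        omega
      · rw [hcc, x1, t1, g1, g2]
        simp only [iff_true]
        rw [← k2]
        omega
      · rw [hcc, x2, t2, g2, g0]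
        simp only [iff_true]
        rw [← k3]
        omega

end Pool.Agent.V7H65.LP
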