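import Pool.Agent.Helper805.CHS.Drawn

/-!
# Winding numbers around points of plane curves

The parity of the winding number of a closed curve `α - β - γ` around a point: it does not change
along paths in the complement, and it satisfies a parity law for four arcs with the same ends.
-/

set_option autoImplicit false

namespace Pool.Agent.V7H65.LP

open Complex Set Pool.Agent.Helper805.CHS.VK

/-- The increment along the path `p` of a continuous logarithm of the distance vector from `z`. -/
noncomputable def pinc {a b : ℂ} (p : Path a b) (z : ℂ) : ℂ := inc (fun t => p.extend t - z)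

theorem extend_mem {a b : ℂ} (p : Path a b) (t : ℝ) : p.extend t ∈ Set.range p := by
  have : p.extend t ∈ Set.range p.extend := ⟨t, rfl⟩
  rwa [Path.extend_range] at this

theorem pinc_exp {a b : ℂ} (p : Path a b) {z : ℂ} (hz : z ∉ Set.range p) :
    exp (pinc p z) = (b - z) / (a - z) := by
  have h0 : ∀ t, p.extend t - z ≠ 0 := fun t h => hz (by
    rw [← sub_eq_zero.1 h]
    exact extend_mem p t)
  obtain ⟨f, hf, he⟩ := exists_log1 (fun t => p.extend t - z)
    (p.continuous_extend.sub continuous_const) h0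
  unfold pinc
  rw [inc_eq _ f hf he, exp_sub, he, he, Path.extend_one, Path.extend_zero]

theorem pinc_square {a b c d : ℂ} (p : Path a b) (q : Path c d)
    (h : Disjoint (Set.range p) (Set.range q)) :
    pinc p c - pinc p d + pinc q b - pinc q a = 0 := by
  have := inc_square p.extend q.extend p.continuous_extend q.continuous_extend (fun s t he =>
    Set.disjoint_left.1 h (extend_mem p s) (he ▸ extend_mem q t))
  simpa [pinc] using this

section

variable {p q m : ℂ} (α : Path p q) (β : Path p m) (γ : Path m q)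

/-- The closed curve. -/
def crv : Set ℂ := Set.range α ∪ Set.range β ∪ Set.range γ

/-- The winding number of the closed curve, times `2 π i`. -/
noncomputable def wx (z : ℂ) : ℂ := pinc α z - pinc β z - pinc γ z

theorem wx_int {z : ℂ} (hz : z ∉ crv α β γ) : ∃ n : ℤ, wx α β γ z = n * (2 * Real.pi * I) := by
  unfold crv at hz
  simp only [Set.mem_union, not_or] at hz
  have hp : p - z ≠ 0 := fun h => hz.1.1 ⟨0, by rw [α.source]; exact sub_eq_zero.1 h⟩
  have hq : q - z ≠ 0 := fun h => hz.1.1 ⟨1, by rw [α.target]; exact sub_eq_zero.1 h⟩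
  have hm : m - z ≠ 0 := fun h => hz.1.2 ⟨1, by rw [β.target]; exact sub_eq_zero.1 h⟩
  have h : exp (wx α β γ z) = 1 := by
    unfold wx
    rw [exp_sub, exp_sub, pinc_exp α hz.1.1, pinc_exp β hz.1.2, pinc_exp γ hz.2]
    field_simp
  exact exp_eq_one_iff.1 h

open Classical in
/-- The winding number of the closed curve. -/
noncomputable def wn (z : ℂ) : ℤ :=
  if h : ∃ n : ℤ, wx α β γ z = n * (2 * Real.pi * I) then h.choose else 0

theorem wn_spec {z : ℂ} (hz : z ∉ crv α β γ) : wx α β γ z = wn α β γ z * (2 * Real.pi * I) := by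
  unfold wn
  rw [dif_pos (wx_int α β γ hz)]
  exact (wx_int α β γ hz).choose_spec

theorem two_pi_ne : (2 * Real.pi * I : ℂ) ≠ 0 := by simp [Real.pi_ne_zero]

theorem wn_eq {z z' : ℂ} (h : JoinedIn (crv α β γ)ᶜ z z') : wn α β γ z = wn α β γ z' := by
  obtain ⟨δ, hδ⟩ := h
  have hz : z ∉ crv α β γ := by have := hδ 0; rwa [δ.source] at this
  have hz' : z' ∉ crv α β γ := by have := hδ 1; rwa [δ.target] at this
  have key : ∀ S ⊆ crv α β γ, Disjoint S (Set.range δ) := by
    intro S hS
    rw [Set.disjoint_left]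
    rintro x hx ⟨t, rfl⟩
    exact hδ t (hS hx)
  have h1 := pinc_square α δ (key _ (fun x hx => Or.inl (Or.inl hx)))
  have h2 := pinc_square β δ (key _ (fun x hx => Or.inl (Or.inr hx)))
  have h3 := pinc_square γ δ (key _ (fun x hx => Or.inr hx))
  have h4 : wx α β γ z = wx α β γ z' := by
    unfold wx
    linear_combination h1 - h2 - h3
  rw [wn_spec α β γ hz, wn_spec α β γ hz'] at h4
  exact_mod_cast mul_right_cancel₀ two_pi_ne h4

/-- The parity of the winding number of the closed curve. -/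
noncomputable def par (z : ℂ) : ZMod 2 := (wn α β γ z : ZMod 2)

theorem par_eq {z z' : ℂ} (h : JoinedIn (crv α β γ)ᶜ z z') : par α β γ z = par α β γ z' := by
  unfold par
  rw [wn_eq α β γ h]

end

theorem pinc_symm {a b : ℂ} (p : Path a b) {z : ℂ} (hz : z ∉ Set.range p) :
    pinc p.symm z = - pinc p z := by
  have h0 : ∀ t, p.extend t - z ≠ 0 := fun t h => hz (by
    rw [← sub_eq_zero.1 h]
    exact extend_mem p t)
  obtain ⟨f, hf, he⟩ := exists_log1 (fun t => p.extend t - z)
    (p.continuous_extend.sub continuous_const) h0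
  unfold pinc
  rw [inc_eq _ f hf he, inc_eq (fun t => p.symm.extend t - z) (fun t => f (1 - t))
    (hf.comp (by fun_prop)) (fun x => by rw [he, Path.extend_symm_apply])]
  simp

/-- The parity does not depend on the direction of the curve. -/
theorem par_symm {p q m : ℂ} (α : Path p q) (β : Path p m) (γ : Path m q) {z : ℂ}
    (hz : z ∉ crv α β γ) : par α β γ z = par β α γ.symm z := by
  have hz' : z ∉ crv β α γ.symm := by
    unfold crv at hz ⊢
    rw [Path.symm_range, Set.union_comm (Set.range β)]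
    exact hz
  have h1 := wn_spec α β γ hz
  have h2 := wn_spec β α γ.symm hz'
  have hγ : z ∉ Set.range γ := fun h => hz (Or.inr h)
  have h3 : wx β α γ.symm z = - wx α β γ z := by
    unfold wx
    rw [pinc_symm γ hγ]
    ring
  rw [h3, h1] at h2
  have h4 : ((wn β α γ.symm z : ℤ) : ℂ) * (2 * Real.pi * I) =
      ((- wn α β γ z : ℤ) : ℂ) * (2 * Real.pi * I) := by
    rw [← h2]
    push_cast
    ring
  have h5 : wn β α γ.symm z = - wn α β γ z := by exact_mod_cast mul_right_cancel₀ two_pi_ne h4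
  unfold par
  rw [h5]
  push_cast
  rw [ZMod.neg_eq_self_mod_two]

/-- The parity law for four arcs from `p` to `q`. -/
theorem theta {p q : ℂ} (α : Path p q) (m : Fin 3 → ℂ) (β : ∀ i, Path p (m i))
    (γ : ∀ i, Path (m i) q) (hd : ∀ i j, i ≠ j → Disjoint (Set.range (β i)) (Set.range (γ j)))
    (hm : ∀ j, m j ∉ Set.range α) (hq : ∀ i, q ∉ Set.range (β i))
    (hp : ∀ i, p ∉ Set.range (γ i)) :
    (par α (β 0) (γ 0) (m 1) + par α (β 0) (γ 0) (m 2)) +
      (par α (β 1) (γ 1) (m 0) + par α (β 1) (γ 1) (m 2)) +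
      (par α (β 2) (γ 2) (m 0) + par α (β 2) (γ 2) (m 1)) = 1 := by
  have hmβ : ∀ i j, i ≠ j → m j ∉ Set.range (β i) := fun i j hij h =>
    Set.disjoint_left.1 (hd i j hij) h ⟨0, (γ j).source⟩
  have hmγ : ∀ i j, i ≠ j → m j ∉ Set.range (γ i) := fun i j hij h =>
    Set.disjoint_left.1 (hd j i hij.symm) ⟨1, (β j).target⟩ h
  have hcr : ∀ i j, i ≠ j → m j ∉ crv α (β i) (γ i) := by
    intro i j hij h
    unfold crv at h
    rcases h with (h | h) | h
    · exact hm j h
    · exact hmβ i j hij h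
    · exact hmγ i j hij h
  have sq : ∀ i j, i ≠ j → pinc (β i) (m j) - pinc (β i) q + pinc (γ j) (m i) - pinc (γ j) p = 0 :=
    fun i j hij => pinc_square (β i) (γ j) (hd i j hij)
  have h01 := sq 0 1 (by decide)
  have h02 := sq 0 2 (by decide)
  have h10 := sq 1 0 (by decide)
  have h12 := sq 1 2 (by decide)
  have h20 := sq 2 0 (by decide)
  have h21 := sq 2 1 (by decide)
  have w01 := wn_spec α (β 0) (γ 0) (hcr 0 1 (by decide))
  have w02 := wn_spec α (β 0) (γ 0) (hcr 0 2 (by decide))
  have w10 := wn_spec α (β 1) (γ 1) (hcr 1 0 (by decide))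
  have w12 := wn_spec α (β 1) (γ 1) (hcr 1 2 (by decide))
  have w20 := wn_spec α (β 2) (γ 2) (hcr 2 0 (by decide))
  have w21 := wn_spec α (β 2) (γ 2) (hcr 2 1 (by decide))
  unfold wx at w01 w02 w10 w12 w20 w21
  set X : ℂ := ∑ j, (pinc α (m j) - pinc (β j) q - pinc (γ j) p) with hX
  have e1 : exp X = -1 := by
    have hj : ∀ j, exp (pinc α (m j) - pinc (β j) q - pinc (γ j) p) = -1 := by
      intro j
      rw [exp_sub, exp_sub, pinc_exp α (hm j), pinc_exp (β j) (hq j), pinc_exp (γ j) (hp j)]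
      have n1 : p - m j ≠ 0 := fun h => hm j ⟨0, by rw [α.source]; exact sub_eq_zero.1 h⟩
      have n2 : q - m j ≠ 0 := fun h => hm j ⟨1, by rw [α.target]; exact sub_eq_zero.1 h⟩
      have n3 : p - q ≠ 0 := fun h => hq j ⟨0, by rw [(β j).source]; exact sub_eq_zero.1 h⟩
      have n4 : m j - q ≠ 0 := fun h => n2 (by rw [← neg_sub, h, neg_zero])
      have n5 : m j - p ≠ 0 := fun h => n1 (by rw [← neg_sub, h, neg_zero])
      have n6 : q - p ≠ 0 := fun h => n3 (by rw [← neg_sub, h, neg_zero])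
      field_simp
      ring
    rw [hX, exp_sum, Fin.prod_univ_three, hj, hj, hj]
    norm_num
  have e2 : exp (X - Real.pi * I) = 1 := by
    rw [exp_sub, e1, exp_pi_mul_I]
    norm_num
  obtain ⟨k, hk⟩ := exp_eq_one_iff.1 e2
  have hXs : X = (pinc α (m 0) - pinc (β 0) q - pinc (γ 0) p) +
      (pinc α (m 1) - pinc (β 1) q - pinc (γ 1) p) +
      (pinc α (m 2) - pinc (β 2) q - pinc (γ 2) p) := by rw [hX, Fin.sum_univ_three]
  have e3 : ((wn α (β 0) (γ 0) (m 1) + wn α (β 0) (γ 0) (m 2) + (wn α (β 1) (γ 1) (m 0) +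
      wn α (β 1) (γ 1) (m 2)) + (wn α (β 2) (γ 2) (m 0) + wn α (β 2) (γ 2) (m 1)) : ℤ) : ℂ) *
      (2 * Real.pi * I) = ((2 * k + 1 : ℤ) : ℂ) * (2 * Real.pi * I) := by
    push_cast
    linear_combination 2 * hk - 2 * hXs - w01 - w02 - w10 - w12 - w20 - w21
      - h01 - h02 - h10 - h12 - h20 - h21
  have e4 := mul_right_cancel₀ two_pi_ne e3
  have e5 : wn α (β 0) (γ 0) (m 1) + wn α (β 0) (γ 0) (m 2) + (wn α (β 1) (γ 1) (m 0) +
      wn α (β 1) (γ 1) (m 2)) + (wn α (β 2) (γ 2) (m 0) + wn α (β 2) (γ 2) (m 1)) = 2 * k + 1 := by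
    exact_mod_cast e4
  have e6 := congrArg (Int.cast : ℤ → ZMod 2) e5
  push_cast at e6
  have h2 : (2 : ZMod 2) = 0 := rfl
  rw [h2, zero_mul, zero_add] at e6
  unfold par
  exact e6

end Pool.Agent.V7H65.LP
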