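import Pool.Agent.V7H65.LP.Defs
import Pool.Agent.V7H65.LP.Top

/-!
# Pairs of edges at small distance, and drawings in which they do not cross
-/

set_option autoImplicit false

namespace Pool.Agent.V7H65.LP

open SimpleGraph

/-- There is a walk of length at most `n` from `v` to `w`. -/
def RW {V : Type} (G : SimpleGraph V) (n : ℕ) (v w : V) : Prop :=
  ∃ p : G.Walk v w, p.length ≤ n

section RW

variable {V : Type} {G : SimpleGraph V}

theorem RW.refl (v : V) : RW G 0 v v := ⟨.nil, le_refl _⟩

theorem RW.mono {m n : ℕ} (hmn : m ≤ n) {v w : V} (h : RW G m v w) : RW G n v w :=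
  ⟨h.choose, h.choose_spec.trans hmn⟩

theorem RW.symm {n : ℕ} {v w : V} (h : RW G n v w) : RW G n w v := by
  obtain ⟨p, hp⟩ := h
  exact ⟨p.reverse, by rwa [Walk.length_reverse]⟩

theorem RW.trans {m n : ℕ} {v w x : V} (h : RW G m v w) (h' : RW G n w x) : RW G (m + n) v x := by
  obtain ⟨p, hp⟩ := h
  obtain ⟨q, hq⟩ := h'
  exact ⟨p.append q, by rw [Walk.length_append]; omega⟩

theorem RW.of_adj {v w : V} (h : G.Adj v w) : RW G 1 v w := ⟨.cons h .nil, by simp⟩

end RW

/-- Two edges without common vertex at distance at most `n` are on a path of length at most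
`n + 2`. -/
theorem near_path {V : Type} {G : SimpleGraph V} {a b c d : V} (hab : G.Adj a b)
    (hcd : G.Adj c d) (h1 : a ≠ c) (h2 : a ≠ d) (h3 : b ≠ c) (h4 : b ≠ d) {n : ℕ}
    (h : RW G n a c) :
    ∃ (v w : V) (q : G.Walk v w), q.IsPath ∧ q.length ≤ n + 2 ∧ s(a, b) ∈ q.edges ∧
      s(c, d) ∈ q.edges := by
  classical
  have hex : ∃ l : ℕ, ∃ x x' y y' : V, s(x, x') = s(a, b) ∧ s(y, y') = s(c, d) ∧
      ∃ p : G.Walk x y, p.length = l := by
    obtain ⟨p, hp⟩ := h
    exact ⟨p.length, a, b, c, d, rfl, rfl, p, rfl⟩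
  obtain ⟨x, x', y, y', hx, hy, p, hp⟩ := Nat.find_spec hex
  have hmin : ∀ x x' y y' : V, s(x, x') = s(a, b) → s(y, y') = s(c, d) →
      ∀ p : G.Walk x y, Nat.find hex ≤ p.length := fun x x' y y' hx hy p =>
    Nat.find_min' hex ⟨x, x', y, y', hx, hy, p, rfl⟩
  have hle : Nat.find hex ≤ n := by
    obtain ⟨p, hp⟩ := h
    exact (hmin a b c d rfl rfl p).trans hp
  have hxx : G.Adj x x' := by
    have : s(x, x') ∈ G.edgeSet := hx ▸ hab
    exact this
  have hyy : G.Adj y y' := by
    have : s(y, y') ∈ G.edgeSet := hy ▸ hcd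
    exact this
  have hne : ∀ u, u ∈ s(a, b) → u ∉ s(c, d) := by
    intro u hu hu'
    rw [Sym2.mem_iff] at hu hu'
    rcases hu with rfl | rfl <;> rcases hu' with hu' | hu'
    · exact h1 hu'
    · exact h2 hu'
    · exact h3 hu'
    · exact h4 hu'
  have hx'y' : x' ≠ y' := fun he => hne x' (by rw [← hx]; simp) (by rw [← hy, he]; simp)
  have hxs : x' ∉ p.bypass.support := by
    intro hmem
    have e := congrArg Walk.length (p.bypass.take_spec hmem)
    rw [Walk.length_append] at e
    have e1 : 0 < (p.bypass.takeUntil x' hmem).length := by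
      rw [Nat.pos_iff_ne_zero]
      intro h0
      exact hxx.ne (Walk.eq_of_length_eq_zero h0)
    have e2 := hmin x' x y y' (by rw [← hx, Sym2.eq_swap]) hy (p.bypass.dropUntil x' hmem)
    have e3 := p.length_bypass_le_length
    omega
  have hys : y' ∉ p.bypass.support := by
    intro hmem
    have e := congrArg Walk.length (p.bypass.take_spec hmem)
    rw [Walk.length_append] at e
    have e1 : 0 < (p.bypass.dropUntil y' hmem).length := by
      rw [Nat.pos_iff_ne_zero]
      intro h0
      exact hyy.ne (Walk.eq_of_length_eq_zero h0).symm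
    have e2 := hmin x x' y' y hx (by rw [← hy, Sym2.eq_swap]) (p.bypass.takeUntil y' hmem)
    have e3 := p.length_bypass_le_length
    omega
  refine ⟨x', y', .cons hxx.symm (p.bypass.concat hyy), ?_, ?_, ?_, ?_⟩
  · rw [Walk.cons_isPath_iff]
    refine ⟨(p.bypass_isPath).concat hys hyy, ?_⟩
    rw [Walk.support_concat, List.mem_append, List.mem_singleton]
    rintro (h | h)
    · exact hxs h
    · exact hx'y' h
  · rw [Walk.length_cons, Walk.length_concat]
    have e3 := p.length_bypass_le_length
    omega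
  · rw [Walk.edges_cons, ← hx, Sym2.eq_swap]
    exact List.mem_cons_self
  · rw [Walk.edges_cons, Walk.edges_concat, ← hy]
    simp

/-- A drawing in which the pairs of edges at distance at most `T` do not cross; vertices without
neighbours are disregarded. -/
structure PD {V : Type} (G : SimpleGraph V) (T : ℕ) where
  /-- the points -/
  pt : V → ℂ
  /-- the arcs -/
  pth : ∀ {v w : V}, G.Adj v w → Path (pt v) (pt w)
  rev : ∀ {v w : V} (h : G.Adj v w), pth h.symm = (pth h).symm
  inj : ∀ {v w : V} (h : G.Adj v w), Function.Injective (pth h)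
  avoid : ∀ {v w x y : V} (h : G.Adj v w) (_ : G.Adj x y), pt x ∈ Set.range (pth h) →
    x = v ∨ x = w
  adjm : ∀ {v w x : V} (h : G.Adj v w) (h' : G.Adj v x), w ≠ x →
    Set.range (pth h) ∩ Set.range (pth h') ⊆ {pt v}
  near : ∀ {v w x y : V} (h : G.Adj v w) (h' : G.Adj x y), v ≠ x → v ≠ y → w ≠ x → w ≠ y →
    RW G T v x → Disjoint (Set.range (pth h)) (Set.range (pth h'))

section PD

variable {V : Type} {G : SimpleGraph V} {T : ℕ} (D : PD G T)

theorem PD.rng {v w : V} (h : G.Adj v w) : Set.range (D.pth h.symm) = Set.range (D.pth h) := by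
  rw [D.rev h, Path.symm_range]

theorem PD.left_mem {v w : V} (h : G.Adj v w) : D.pt v ∈ Set.range (D.pth h) :=
  ⟨0, (D.pth h).source⟩

theorem PD.right_mem {v w : V} (h : G.Adj v w) : D.pt w ∈ Set.range (D.pth h) :=
  ⟨1, (D.pth h).target⟩

theorem PD.ne_adj {v w : V} (h : G.Adj v w) : D.pt v ≠ D.pt w := by
  intro he
  have : D.pth h 0 = D.pth h 1 := by rw [(D.pth h).source, (D.pth h).target, he]
  exact zero_ne_one (D.inj h this)

theorem PD.pt_ne {v w x y : V} (h : G.Adj v x) (h' : G.Adj w y) (hne : v ≠ w) :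
    D.pt v ≠ D.pt w := by
  intro he
  have h1 : D.pt w ∈ Set.range (D.pth h) := he ▸ D.left_mem h
  rcases D.avoid h h' h1 with h2 | h2
  · exact hne h2.symm
  · subst h2
    exact D.ne_adj h he

/-- Any two of the four closeness conditions may be used. -/
theorem PD.near' {v w x y : V} (h : G.Adj v w) (h' : G.Adj x y) (h1 : v ≠ x) (h2 : v ≠ y)
    (h3 : w ≠ x) (h4 : w ≠ y)
    (hd : RW G T v x ∨ RW G T v y ∨ RW G T w x ∨ RW G T w y) :
    Disjoint (Set.range (D.pth h)) (Set.range (D.pth h')) := by
  rcases hd with hd | hd | hd | hd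
  · exact D.near h h' h1 h2 h3 h4 hd
  · rw [← D.rng h']
    exact D.near h h'.symm h2 h1 h4 h3 hd
  · rw [← D.rng h]
    exact D.near h.symm h' h3 h4 h1 h2 hd
  · rw [← D.rng h, ← D.rng h']
    exact D.near h.symm h'.symm h4 h3 h2 h1 hd

/-- The concatenation of the arcs of a walk. -/
noncomputable def PD.wp (D : PD G T) : ∀ {v w : V}, G.Walk v w → Path (D.pt v) (D.pt w)
  | _, _, .nil => Path.refl _
  | _, _, .cons h p => (D.pth h).trans (D.wp p)

theorem PD.mem_wp {v w : V} (p : G.Walk v w) (z : ℂ) :
    z ∈ Set.range (D.wp p) ↔ z = D.pt v ∨ ∃ d ∈ p.darts, z ∈ Set.range (D.pth d.adj) := by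
  induction p with
  | nil =>
    simp only [PD.wp, Path.refl_range, Set.mem_singleton_iff, Walk.darts_nil, List.not_mem_nil,
      false_and, exists_false, or_false]
  | cons h p ih =>
    simp only [PD.wp, Path.trans_range, Set.mem_union, ih, Walk.darts_cons, List.mem_cons,
      exists_eq_or_imp]
    constructor
    · rintro (h1 | h1 | h1)
      · exact Or.inr (Or.inl h1)
      · refine Or.inr (Or.inl ?_)
        rw [h1]
        exact D.right_mem h
      · exact Or.inr (Or.inr h1)
    · rintro (h1 | h1 | h1)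
      · left
        rw [h1]
        exact D.left_mem h
      · exact Or.inl h1
      · exact Or.inr (Or.inr h1)

theorem joined_range {a b : ℂ} (p : Path a b) {x y : ℂ} (hx : x ∈ Set.range p)
    (hy : y ∈ Set.range p) : JoinedIn (Set.range p) x y := by
  have hpc : IsPathConnected (Set.Icc (0 : ℝ) 1) := (convex_Icc _ _).isPathConnected ⟨0, by simp⟩
  have himg := hpc.image p.continuous_extend
  have he : p.extend '' Set.Icc (0 : ℝ) 1 = Set.range p := by
    ext z
    constructor
    · rintro ⟨t, _, rfl⟩
      exact extend_mem _ _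
    · rintro ⟨t, rfl⟩
      exact ⟨t, t.2, Path.extend_apply _ t.2⟩
  rw [he] at himg
  exact himg.joinedIn _ hx _ hy

/-- A point of an arc can be moved to the first end without meeting the second end. -/
theorem PD.retract {v w : V} (h : G.Adj v w) {z : ℂ} (hz : z ∈ Set.range (D.pth h))
    (hne : z ≠ D.pt w) : JoinedIn (Set.range (D.pth h) \ {D.pt w}) z (D.pt v) := by
  obtain ⟨s, rfl⟩ := hz
  have hs1 : s ≠ 1 := fun he => hne (by rw [he, (D.pth h).target])
  have hpc : IsPathConnected (Set.Icc (0 : ℝ) (s : ℝ)) :=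
    (convex_Icc _ _).isPathConnected ⟨0, by simp [s.2.1]⟩
  have himg := hpc.image (D.pth h).continuous_extend
  have hsub : (D.pth h).extend '' Set.Icc (0 : ℝ) (s : ℝ) ⊆ Set.range (D.pth h) \ {D.pt w} := by
    rintro _ ⟨t, ht, rfl⟩
    refine ⟨extend_mem _ _, ?_⟩
    intro he
    rw [Set.mem_singleton_iff] at he
    have ht1 : t ≤ 1 := ht.2.trans s.2.2
    rw [Path.extend_apply _ ⟨ht.1, ht1⟩] at he
    have := D.inj h (he.trans (D.pth h).target.symm)
    have h3 : t = 1 := congrArg Subtype.val this
    apply hs1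
    apply Subtype.ext
    have := s.2.2
    have := ht.2
    show (s : ℝ) = 1
    linarith
  have h1 : (D.pth h) s ∈ (D.pth h).extend '' Set.Icc (0 : ℝ) (s : ℝ) :=
    ⟨s, ⟨s.2.1, le_refl _⟩, by rw [Path.extend_apply _ s.2]⟩
  have h2 : D.pt v ∈ (D.pth h).extend '' Set.Icc (0 : ℝ) (s : ℝ) :=
    ⟨0, ⟨le_refl _, s.2.1⟩, by rw [Path.extend_zero]⟩
  exact (himg.joinedIn _ h1 _ h2).mono hsub

/-- A point of the arcs of a walk can be moved to the first vertex without meeting the last
vertex, if the last vertex is not used before. -/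
theorem PD.retract_walk {v w : V} (p : G.Walk v w) (hp : ∀ d ∈ p.darts, d.fst ≠ w)
    {z : ℂ} (hz : z ∈ Set.range (D.wp p)) (hne : z ≠ D.pt w) :
    JoinedIn (Set.range (D.wp p) \ {D.pt w}) z (D.pt v) := by
  induction p with
  | nil =>
    simp only [PD.wp, Path.refl_range, Set.mem_singleton_iff] at hz
    exact absurd hz hne
  | @cons a b c h p ih =>
    have hac : a ≠ c := hp ⟨(a, b), h⟩ (by simp)
    have hsub1 : Set.range (D.pth h) ⊆ Set.range (D.wp (.cons h p)) := by
      simp only [PD.wp, Path.trans_range]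
      exact Set.subset_union_left
    have hsub2 : Set.range (D.wp p) ⊆ Set.range (D.wp (.cons h p)) := by
      simp only [PD.wp, Path.trans_range]
      exact Set.subset_union_right
    have key : ∀ y ∈ Set.range (D.pth h), y ≠ D.pt c → JoinedIn (Set.range (D.wp (.cons h p)) \
        {D.pt c}) y (D.pt a) := by
      intro y hy hyc
      by_cases hbc : b = c
      · subst hbc
        exact (D.retract h hy hyc).mono (Set.sdiff_subset_sdiff_left hsub1)
      · -- the last vertex is not on the arc
        have hcn : D.pt c ∉ Set.range (D.pth h) := by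
          intro hmem
          obtain ⟨x, hx⟩ : ∃ x, G.Adj c x := by
            cases hpr : p.reverse with
            | nil => exact absurd rfl hbc
            | cons h' _ => exact ⟨_, h'⟩
          rcases D.avoid h hx hmem with h1 | h1
          · exact hac h1.symm
          · exact hbc h1.symm
        refine (joined_range (D.pth h) hy (D.left_mem h)).mono ?_
        intro x hx
        exact ⟨hsub1 hx, fun he => hcn (by rw [Set.mem_singleton_iff] at he; rwa [he] at hx)⟩
    simp only [PD.wp, Path.trans_range, Set.mem_union] at hz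
    rcases hz with hz | hz
    · exact key z hz hne
    · have h1 := ih (fun d hd => hp d (by simp [hd])) hz hne
      by_cases hbc : b = c
      · subst hbc
        -- then `z` can be moved to `pt b`, which is excluded
        exact absurd rfl (h1.target_mem.2)
      · refine (h1.mono (Set.sdiff_subset_sdiff_left hsub2)).trans (key _ (D.right_mem h) ?_)
        exact fun he => h1.target_mem.2 he

end PD

end Pool.Agent.V7H65.LP
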