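import Pool.Agent.V7H65.LP.Nae
import Pool.Agent.H692R2.FinGraph
import Pool.Agent.H673R2.HardOn

/-!
# The reduction
-/

set_option autoImplicit false

namespace Pool.Agent.V7H65.LP

open Pool.Agent.NPC Pool.Agent.R544 Pool.Agent.R544.TF Pool.Agent.H692R2 SimpleGraph

/-- The vertex with a given number. -/
def dec (I : FI) (n : ℕ) : VT := ((n / I.Ls / I.W, n / I.Ls % I.W), n % I.Ls)

/-- The number of a vertex. -/
def enc (I : FI) (v : VT) : ℕ := (v.1.1 * I.W + v.1.2) * I.Ls + v.2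

/-- The number of vertices. -/
def cnt (I : FI) : ℕ := (I.E + 2) * I.W * I.Ls

theorem dec_inj (I : FI) : Function.Injective (dec I) := by
  intro n n' h
  unfold dec at h
  simp only [Prod.mk.injEq] at h
  obtain ⟨⟨h1, h2⟩, h3⟩ := h
  have e1 := Nat.div_add_mod (n / I.Ls) I.W
  have e2 := Nat.div_add_mod (n' / I.Ls) I.W
  rw [h1, h2] at e1
  have e3 : n / I.Ls = n' / I.Ls := e1.symm.trans e2
  have e4 := Nat.div_add_mod n I.Ls
  have e5 := Nat.div_add_mod n' I.Ls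
  rw [e3, h3] at e4
  exact e4.symm.trans e5

theorem W_pos (I : FI) : 0 < I.W := by
  unfold FI.W
  omega

theorem Ls_pos (I : FI) : 0 < I.Ls := by
  unfold FI.Ls
  omega

/-- The used vertices. -/
def Bd (I : FI) (v : VT) : Prop := v.1.1 < I.E + 2 ∧ v.1.2 < I.W ∧ v.2 < I.Ls

theorem dec_enc {I : FI} {v : VT} (h : Bd I v) : dec I (enc I v) = v := by
  obtain ⟨h1, h2, h3⟩ := h
  have e1 : enc I v / I.Ls = v.1.1 * I.W + v.1.2 := by
    unfold enc
    rw [Nat.add_comm, Nat.add_mul_div_right _ _ (Ls_pos I), Nat.div_eq_of_lt h3, Nat.zero_add]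
  have e2 : enc I v % I.Ls = v.2 := by
    unfold enc
    rw [Nat.add_comm, Nat.add_mul_mod_self_right, Nat.mod_eq_of_lt h3]
  unfold dec
  rw [e1, e2]
  have e3 : (v.1.1 * I.W + v.1.2) / I.W = v.1.1 := by
    rw [Nat.add_comm, Nat.add_mul_div_right _ _ (W_pos I), Nat.div_eq_of_lt h2, Nat.zero_add]
  have e4 : (v.1.1 * I.W + v.1.2) % I.W = v.1.2 := by
    rw [Nat.add_comm, Nat.add_mul_mod_self_right, Nat.mod_eq_of_lt h2]
  rw [e3, e4]

theorem enc_lt {I : FI} {v : VT} (h : Bd I v) : enc I v < cnt I := by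
  obtain ⟨h1, h2, h3⟩ := h
  unfold enc cnt
  calc (v.1.1 * I.W + v.1.2) * I.Ls + v.2 < (v.1.1 * I.W + v.1.2) * I.Ls + I.Ls := by omega
    _ = (v.1.1 * I.W + v.1.2 + 1) * I.Ls := by ring
    _ ≤ (v.1.1 * I.W + I.W) * I.Ls := Nat.mul_le_mul_right _ (by omega)
    _ = (v.1.1 + 1) * I.W * I.Ls := by ring
    _ ≤ (I.E + 2) * I.W * I.Ls := Nat.mul_le_mul_right _ (Nat.mul_le_mul_right _ (by omega))

theorem cnt_pos (I : FI) : 0 < cnt I := by
  unfold cnt
  exact Nat.mul_pos (Nat.mul_pos (by omega) (W_pos I)) (Ls_pos I)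

theorem HV.bd {I : FI} {w : ℕ × ℕ} {t : ℕ} (h : I.HV w) (ht : t < I.len w) : Bd I (w, t) := by
  have := I.len_le w
  rcases h with h | ⟨h1, h2, h3⟩
  · refine ⟨?_, ?_, by simp only; omega⟩
    · rw [h]
      simp [hub]
    · rw [h]
      exact W_pos I
  · exact ⟨h2, h3, by simp only; omega⟩

theorem bd_ctr (I : FI) : Bd I ctr := ⟨by simp [ctr], W_pos I, Ls_pos I⟩

theorem bd_nxt {I : FI} {w : ℕ × ℕ} {t : ℕ} (h : I.HV w) : Bd I (nxt I w t) := by
  unfold nxt
  split_ifs with h1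
  · exact HV.bd h h1
  · exact bd_ctr I

theorem Adj.bd {I : FI} (ok : I.Ok) {v w : VT} (h : I.G.Adj v w) : Bd I v := by
  rcases adj_cases ok h with ⟨a, b, rfl, rfl, hab⟩ | ⟨a, t, ha, ht, rfl, rfl⟩ |
    ⟨a, t, ha, ht, rfl, rfl⟩
  · exact HV.bd (hab.spec ok).1 (FI.len_pos ok a)
  · exact HV.bd ha ht
  · exact bd_nxt ha

/-- The finite graph. -/
def fG (I : FI) : SimpleGraph (Fin (cnt I)) := I.G.comap (fun n => dec I n)

/-- The vertex of the finite graph. -/
def fenc (I : FI) (v : VT) : Fin (cnt I) := ⟨enc I v % cnt I, Nat.mod_lt _ (cnt_pos I)⟩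

theorem dec_fenc {I : FI} {v : VT} (h : Bd I v) : dec I (fenc I v) = v := by
  unfold fenc
  simp only
  rw [Nat.mod_eq_of_lt (enc_lt h), dec_enc h]

/-- Soundness of the reduction. -/
theorem red_sound {T : ℕ} (hT : 1 ≤ T) {φ : N3} (h : BN φ)
    (hG : WeakLocPlanar (T + 2) (fG (nI T φ))) : NAE3 φ := by
  obtain ⟨D, hD⟩ := hG
  have ok := nI_ok hT h
  have hTT : (nI T φ).T = T := rfl
  have P : PD (nI T φ).G (nI T φ).T := D.toPD (T := (nI T φ).T) (by rw [hTT]; exact hD)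
    (fenc (nI T φ)) (fun v w hvw => by
      change (nI T φ).G.Adj (dec (nI T φ) (fenc (nI T φ) v)) (dec (nI T φ) (fenc (nI T φ) w))
      rw [dec_fenc (Adj.bd ok hvw), dec_fenc (Adj.bd ok hvw.symm)]
      exact hvw)
    (fun v w x y hv hw he => by
      have := congrArg (fun n : Fin (cnt (nI T φ)) => dec (nI T φ) n) he
      beta_reduce at this
      rwa [dec_fenc (Adj.bd ok hv), dec_fenc (Adj.bd ok hw)] at this)
  obtain ⟨F, h1, h2, h3⟩ := snd ok P
  exact nae_sound h F h1 h2 h3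

/-- Completeness of the reduction. -/
theorem red_complete {T : ℕ} (hT : 1 ≤ T) {φ : N3} (h : BN φ) (hn : NAE3 φ) :
    StraightLocPlanar (T + 2) (fG (nI T φ)) := by
  have ok := nI_ok hT h
  obtain ⟨O⟩ := nae_ord (T := T) h hn
  obtain ⟨pt, hpt⟩ := exists_SD1 ok O
  exact (hpt.comap (f := fun n : Fin (cnt (nI T φ)) => dec (nI T φ) n)
    ((dec_inj _).comp Fin.val_injective)).straight

/-! ### Polynomial time -/

section Poly

variable {α : Type} [TEnc α] {f : α → N3}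

theorem pp_alllt {n : α → ℕ} {r : α → ℕ → Prop} (hn : UPoly n)
    (hr : PP (fun x : α × ℕ => r x.1 x.2)) : PP (fun a => ∀ x < n a, r a x) :=
  PP.congr (PP.ball (l := fun a => List.range (n a)) hn.range hr) fun a => by
    simp only [List.mem_range]

theorem poly_vr {g : α → ℕ} (hf : NPC.Poly f) (hg : NPC.Poly g) :
    NPC.Poly (fun a => vr (f a) (g a)) := by
  classical
  unfold vr
  exact PP.ite (PP.eq (by fun_prop) (by fun_prop)) (by fun_prop)
    (PP.ite (PP.eq (by fun_prop) (by fun_prop)) (by fun_prop) (by fun_prop))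

theorem poly_nx {g : α → ℕ} (hg : NPC.Poly g) : NPC.Poly (fun a => nx (g a)) := by
  unfold nx
  fun_prop

theorem poly_src (T : ℕ) {g : α → ℕ} (hf : NPC.Poly f) (hg : NPC.Poly g) :
    NPC.Poly (fun a => (nI T (f a)).src (g a)) := by
  classical
  have h1 := poly_vr hf (g := fun a => g a / 3) (by fun_prop)
  simp only [nI]
  exact PP.ite (PP.eq (by fun_prop) (by fun_prop)) (by fun_prop) (by fun_prop)

theorem poly_tgt (T : ℕ) {g : α → ℕ} (hf : NPC.Poly f) (hg : NPC.Poly g) :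
    NPC.Poly (fun a => (nI T (f a)).tgt (g a)) := by
  classical
  have h1 := poly_vr hf (g := fun a => g a / 3) (by fun_prop)
  have h2 := poly_nx (g := fun a => g a / 3) (by fun_prop)
  simp only [nI]
  exact PP.ite (PP.eq (by fun_prop) (by fun_prop)) (by fun_prop)
    (PP.ite (PP.eq (by fun_prop) (by fun_prop)) (by fun_prop) (by fun_prop))

theorem poly_prt (T : ℕ) {g : α → ℕ} (hg : NPC.Poly g) :
    NPC.Poly (fun a => (nI T (f a)).prt (g a)) := by
  classical
  simp only [nI]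
  exact PP.ite (PP.eq (by fun_prop) (by fun_prop)) (by fun_prop) (by fun_prop)

theorem poly_c2 (T : ℕ) (hf : NPC.Poly f) : NPC.Poly (fun a => (nI T (f a)).c2) := by
  change NPC.Poly (fun a => T + 2 + 9 * (f a).length * (T + 1))
  fun_prop

theorem poly_W (T : ℕ) (hf : NPC.Poly f) : NPC.Poly (fun a => (nI T (f a)).W) := by
  have := poly_c2 T hf
  change NPC.Poly (fun a => (nI T (f a)).c2 + T + 1)
  fun_prop

theorem poly_anc (T : ℕ) {g r : α → ℕ} (hg : NPC.Poly g) (hr : NPC.Poly r) :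
    NPC.Poly (fun a => (nI T (f a)).anc (g a) (r a)) := by
  change NPC.Poly (fun a => T + 2 + g a * (T + 1) + r a)
  fun_prop

theorem poly_ecd (T : ℕ) {g : α → ℕ} (hf : NPC.Poly f) (hg : NPC.Poly g) :
    NPC.Poly (fun a => (nI T (f a)).ecd (g a)) := by
  classical
  have := poly_c2 T hf
  unfold FI.ecd
  refine PP.ite (PP.eq (by fun_prop) (by fun_prop)) ?_ (by fun_prop)
  change NPC.Poly (fun a => (nI T (f a)).c2 + T)
  fun_prop

theorem poly_E2 (T : ℕ) (hf : NPC.Poly f) : NPC.Poly (fun a => (nI T (f a)).E + 2) := by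
  change NPC.Poly (fun a => 6 * (f a).length + 1 + 2)
  fun_prop

theorem uPoly_K (T : ℕ) (hf : NPC.Poly f) : UPoly (fun a => (nI T (f a)).K) := by
  change UPoly (fun a => 9 * (f a).length)
  exact UPoly.mul (UPoly.const 9) (UPoly.length hf)

theorem pp_HV (T : ℕ) {w : α → ℕ × ℕ} (hf : NPC.Poly f) (hw : NPC.Poly w) :
    PP (fun a => (nI T (f a)).HV (w a)) := by
  have h1 := poly_E2 T hf
  have h2 := poly_W T hf
  unfold FI.HV
  exact PP.or (PP.eq hw (by fun_prop)) (PP.and (PP.le (by fun_prop) (by fun_prop))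
    (PP.and (PP.lt (by fun_prop) h1) (PP.lt (by fun_prop) h2)))

theorem pp_RV (T : ℕ) {w : α → ℕ × ℕ} (hf : NPC.Poly f) (hw : NPC.Poly w) :
    PP (fun a => (nI T (f a)).RV (w a)) := by
  have h1 := poly_E2 T hf
  have h2 := poly_c2 T hf
  unfold FI.RV FI.Rig
  exact PP.or (PP.eq hw (by fun_prop)) (PP.and (PP.le (by fun_prop) (by fun_prop))
    (PP.and (PP.lt (by fun_prop) h1) (PP.or (PP.eq (by fun_prop) (NPC.Poly.const _))
      (PP.or (PP.eq (by fun_prop) (NPC.Poly.const (T + 1))) (PP.eq (by fun_prop) h2)))))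

theorem poly_len (T : ℕ) {w : α → ℕ × ℕ} (hf : NPC.Poly f) (hw : NPC.Poly w) :
    NPC.Poly (fun a => (nI T (f a)).len (w a)) := by
  classical
  unfold FI.len
  have := PP.ite (pp_RV T hf hw) (NPC.Poly.const ((T + 1) / 2)) (NPC.Poly.const (T / 2 + 1))
  refine this.congr fun a => ?_
  split_ifs <;> rfl

theorem pp_Loc (T : ℕ) {c c' : α → ℕ} (hf : NPC.Poly f) (hc : NPC.Poly c)
    (hc' : NPC.Poly c') : PP (fun a => (nI T (f a)).Loc (c a) (c' a)) := by
  have h1 := poly_W T hf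
  have h2 := poly_c2 T hf
  unfold FI.Loc
  refine PP.or (PP.and (PP.eq hc' (by fun_prop)) (PP.and (PP.lt hc' h1) ?_)) (PP.or
    (PP.and (PP.eq hc (NPC.Poly.const (T + 1))) ?_) (PP.and (PP.eq hc (NPC.Poly.const (T + 1)))
      (PP.eq hc' h2)))
  · refine pp_alllt (uPoly_K T hf) (r := fun a k => c a ≠ (nI T (f a)).anc k (nI T (f a)).T) ?_
    exact PP.ne (hc.comp (by fun_prop)) (poly_anc (f := fun x : α × ℕ => f x.1) T
      (by fun_prop) (NPC.Poly.const _))
  · refine pp_exlt (uPoly_K T hf) (r := fun a k => c' a = (nI T (f a)).anc k 0) ?_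
    exact PP.eq (hc'.comp (by fun_prop)) (poly_anc (f := fun x : α × ℕ => f x.1) T
      (by fun_prop) (NPC.Poly.const _))

theorem pp_HArc (T : ℕ) {w w' : α → ℕ × ℕ} (hf : NPC.Poly f) (hw : NPC.Poly w)
    (hw' : NPC.Poly w') : PP (fun a => (nI T (f a)).HArc (w a) (w' a)) := by
  have h1 := poly_E2 T hf
  unfold FI.HArc
  refine PP.or (PP.and (PP.eq hw (by fun_prop)) (PP.and (pp_RV T hf hw')
    (PP.ne hw' (by fun_prop)))) (PP.or (PP.and (PP.eq (by fun_prop) (by fun_prop))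
    (PP.and (PP.le (by fun_prop) (by fun_prop)) (PP.and (PP.lt (by fun_prop) h1)
    (pp_Loc T hf (by fun_prop) (by fun_prop))))) ?_)
  refine pp_exlt (uPoly_K T hf) (r := fun a k =>
    w a = ((nI T (f a)).src k + 2, (nI T (f a)).ecd ((nI T (f a)).prt k)) ∧
      w' a = ((nI T (f a)).tgt k + 2, (nI T (f a)).anc k (nI T (f a)).T)) ?_
  have g1 : NPC.Poly (fun x : α × ℕ => f x.1) := hf.comp (by fun_prop)
  have g2 := poly_src T g1 (g := fun x : α × ℕ => x.2) (by fun_prop)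
  have g3 := poly_tgt T g1 (g := fun x : α × ℕ => x.2) (by fun_prop)
  have g4 := poly_prt (f := fun x : α × ℕ => f x.1) T (g := fun x : α × ℕ => x.2) (by fun_prop)
  have g5 := poly_ecd T g1 g4
  have g6 := poly_anc (f := fun x : α × ℕ => f x.1) T (g := fun x : α × ℕ => x.2)
    (r := fun _ => T) (by fun_prop) (NPC.Poly.const _)
  refine PP.and (PP.eq (hw.comp (by fun_prop)) ?_) (PP.eq (hw'.comp (by fun_prop)) ?_)
  · exact NPC.Poly.pair (by fun_prop) g5
  · exact NPC.Poly.pair (by fun_prop) g6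

theorem pp_VArc (T : ℕ) {v v' : α → VT} (hf : NPC.Poly f) (hv : NPC.Poly v)
    (hv' : NPC.Poly v') : PP (fun a => (nI T (f a)).VArc (v a) (v' a)) := by
  unfold FI.VArc
  have h1 : NPC.Poly (fun a => (v a).1) := by fun_prop
  have h2 : NPC.Poly (fun a => (v' a).1) := by fun_prop
  have h3 := poly_len T hf h1
  exact PP.or (PP.and (PP.eq (by fun_prop) (by fun_prop)) (PP.and
    (PP.eq (by fun_prop) (by fun_prop)) (pp_HArc T hf h1 h2))) (PP.or
    (PP.and (pp_HV T hf h1) (PP.and (PP.eq h2 h1) (PP.and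
      (PP.eq (by fun_prop) (by fun_prop)) (PP.lt (by fun_prop) h3))))
    (PP.and (pp_HV T hf h1) (PP.and (PP.eq (by fun_prop) h3) (PP.eq hv' (by fun_prop)))))

theorem poly_dec (T : ℕ) {n : α → ℕ} (hf : NPC.Poly f) (hn : NPC.Poly n) :
    NPC.Poly (fun a => dec (nI T (f a)) (n a)) := by
  have h1 := poly_W T hf
  have h2 : NPC.Poly (fun a => (nI T (f a)).Ls) := NPC.Poly.const (T / 2 + 1)
  unfold dec
  fun_prop

theorem pp_Adj (T : ℕ) {v v' : α → VT} (hf : NPC.Poly f) (hv : NPC.Poly v)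
    (hv' : NPC.Poly v') : PP (fun a => (nI T (f a)).G.Adj (v a) (v' a)) := by
  have h1 := pp_VArc T hf hv hv'
  have h2 := pp_VArc T hf hv' hv
  refine PP.congr (PP.and (PP.ne hv hv') (PP.or h1 h2)) fun a => ?_
  rw [FI.G, SimpleGraph.fromRel_adj]

end Poly

/-- The reduction. -/
def redG (T : ℕ) (φ : N3) : FinGraph := ⟨cnt (nI T φ), fG (nI T φ)⟩

theorem poly_redG (T : ℕ) : NPC.Poly (redG T) := by
  classical
  refine poly_finGraph (N := fun φ => cnt (nI T φ))
    (b := fun φ i j => decide ((nI T φ).G.Adj (dec (nI T φ) i) (dec (nI T φ) j)))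
    (G := fun φ => fG (nI T φ)) ?_ ?_ ?_
  · change UPoly (fun φ : N3 => (6 * φ.length + 1 + 2) *
      (T + 2 + 9 * φ.length * (T + 1) + T + 1) * (T / 2 + 1))
    have h : UPoly (fun φ : N3 => φ.length) := UPoly.length (by fun_prop)
    have c := fun n => UPoly.const (α := N3) n
    exact UPoly.mul (UPoly.mul (UPoly.add (UPoly.add (UPoly.mul (c 6) h) (c 1)) (c 2))
      (UPoly.add (UPoly.add (UPoly.add (UPoly.add (c T) (c 2)) (UPoly.mul (UPoly.mul (c 9) h)
        (UPoly.add (c T) (c 1)))) (c T)) (c 1))) (c (T / 2 + 1))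
  · have h1 : NPC.Poly (fun p : (N3 × ℕ) × ℕ => p.1.1) := by fun_prop
    have h2 : NPC.Poly (fun p : (N3 × ℕ) × ℕ => p.1.2) := by fun_prop
    have h3 : NPC.Poly (fun p : (N3 × ℕ) × ℕ => p.2) := by fun_prop
    obtain ⟨b, hb, hb'⟩ := pp_Adj T h1 (poly_dec T h1 h2) (poly_dec T h1 h3)
    refine hb.congr fun p => ?_
    rw [Bool.eq_iff_iff, hb', decide_eq_true_iff]
  · intro φ i j
    rw [decide_eq_true_iff]
    rfl

end Pool.Agent.V7H65.LP
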