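import Pool.Agent.V7H65.LP.Abs

/-!
# Soundness: disjointness of spokes and edges
-/

set_option autoImplicit false

namespace Pool.Agent.V7H65.LP

open SimpleGraph FI

variable {I : FI} (ok : I.Ok) (D : PD I.G I.T)

open Classical in
/-- The path along the spoke of `w`, from the centre to `w`. -/
noncomputable def SP (w : ℕ × ℕ) : Path (D.pt ctr) (D.pt (w, 0)) :=
  if h : I.HV w then (D.wp (spk ok h)).symm else PathConnectedSpace.somePath _ _

open Classical in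
/-- The arc of the edge `w w'`. -/
noncomputable def EP (w w' : ℕ × ℕ) : Path (D.pt (w, 0)) (D.pt (w', 0)) :=
  if h : I.HAdj w w' then D.pth (h.adj ok) else PathConnectedSpace.somePath _ _

theorem EP_eq {w w' : ℕ × ℕ} (h : I.HAdj w w') : EP ok D w w' = D.pth (h.adj ok) := dif_pos h

theorem SP_range {w : ℕ × ℕ} (h : I.HV w) :
    Set.range (SP ok D w) = Set.range (D.wp (spk ok h)) := by
  unfold SP
  rw [dif_pos h, Path.symm_range]

theorem EP_symm_range {w w' : ℕ × ℕ} (h : I.HAdj w w') :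
    Set.range (EP ok D w w') = Set.range (EP ok D w' w) := by
  rw [EP_eq ok D h, EP_eq ok D h.symm]
  exact D.rng (h.symm.adj ok)

omit ok in
theorem exists_adj {w : ℕ × ℕ} (hw : I.HV w) {t : ℕ} (ht : t < I.len w) :
    ∃ v, I.G.Adj (w, t) v ∧ I.SD w (w, t) v := by
  by_cases h : t + 1 = I.len w
  · exact ⟨_, adj_end hw h, t, by omega, rfl, Or.inr ⟨rfl, h⟩⟩
  · exact ⟨_, adj_step hw (t := t) (by omega), t, by omega, rfl, Or.inl ⟨rfl, by omega⟩⟩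

theorem S_cases {w : ℕ × ℕ} (hw : I.HV w) {z : ℂ} (hz : z ∈ Set.range (SP ok D w)) :
    ∃ (v v' : VT) (h : I.G.Adj v v'), I.SD w v v' ∧ z ∈ Set.range (D.pth h) := by
  rw [SP_range ok D hw, PD.mem_wp] at hz
  rcases hz with hz | ⟨d, hd, hz⟩
  · obtain ⟨v, h1, h2⟩ := exists_adj hw (len_pos ok w)
    exact ⟨_, _, h1, h2, by rw [hz]; exact D.left_mem h1⟩
  · exact ⟨d.fst, d.snd, d.adj, spk_darts ok hw d hd, hz⟩

theorem mk_ne {w w' : ℕ × ℕ} (h : w ≠ w') (t t' : ℕ) : ((w, t) : VT) ≠ (w', t') :=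
  fun he => h (congrArg Prod.fst he)

theorem mk_ne' (w w' : ℕ × ℕ) {t t' : ℕ} (h : t ≠ t') : ((w, t) : VT) ≠ (w', t') :=
  fun he => h (congrArg Prod.snd he)

include ok in
theorem Ls_le : I.Ls ≤ I.T := by
  have := ok.hT
  unfold FI.Ls
  omega

theorem spoke_spoke {w w' : ℕ × ℕ} (hw : I.HV w) (hw' : I.HV w') (hne : w ≠ w') {z : ℂ}
    (hz : z ∈ Set.range (SP ok D w)) (hz' : z ∈ Set.range (SP ok D w')) : z = D.pt ctr := by
  obtain ⟨v, v2, h, ⟨t, ht, rfl, hd⟩, hz⟩ := S_cases ok D hw hz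
  obtain ⟨v', v2', h', ⟨t', ht', rfl, hd'⟩, hz'⟩ := S_cases ok D hw' hz'
  have l1 := I.len_le w
  have l2 := I.len_le w'
  have l3 := Ls_le ok
  rcases hd with ⟨rfl, hd⟩ | ⟨rfl, hd⟩
  · rcases hd' with ⟨rfl, hd'⟩ | ⟨rfl, hd'⟩
    · exfalso
      refine Set.disjoint_left.1 (D.near' h h' (mk_ne hne _ _) (mk_ne hne _ _) (mk_ne hne _ _)
        (mk_ne hne _ _) (Or.inr (Or.inr (Or.inr ?_)))) hz hz'
      refine ((rw_ctr hw hd).trans (rw_ctr hw' hd').symm).mono ?_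
      unfold FI.Ls at l1 l2
      omega
    · exfalso
      refine Set.disjoint_left.1 (D.near' h h' (mk_ne hne _ _) (hw.ne_ctr _) (mk_ne hne _ _)
        (hw.ne_ctr _) (Or.inr (Or.inr (Or.inr ?_)))) hz hz'
      exact (rw_ctr hw hd).mono (by omega)
  · rcases hd' with ⟨rfl, hd'⟩ | ⟨rfl, hd'⟩
    · exfalso
      refine Set.disjoint_left.1 (D.near' h h' (mk_ne hne _ _) (mk_ne hne _ _)
        (hw'.ne_ctr _).symm (hw'.ne_ctr _).symm (Or.inr (Or.inr (Or.inr ?_)))) hz hz'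
      exact (rw_ctr hw' hd').symm.mono (by omega)
    · have := D.adjm h.symm h'.symm (mk_ne hne _ _) ⟨by rwa [D.rng], by rwa [D.rng]⟩
      exact this

theorem edge_spoke {x y w : ℕ × ℕ} (hxy : I.HAdj x y) (hw : I.HV w) (hx : w ≠ x) (hy : w ≠ y)
    (hl : I.RV w ∨ I.RV x ∨ I.RV y) :
    Disjoint (Set.range (EP ok D x y)) (Set.range (SP ok D w)) := by
  have hs := hxy.spec ok
  rw [EP_eq ok D hxy, Set.disjoint_left]
  intro z hz hz'
  obtain ⟨v, v', h, ⟨t, ht, rfl, hd⟩, hz'⟩ := S_cases ok D hw hz'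
  have l1 := I.len_le w
  have l2 := I.len_le x
  have l2' := I.len_le y
  have l3 := Ls_le ok
  -- a close end
  obtain ⟨e, hev, hle, hexy⟩ : ∃ e, I.HV e ∧ I.len w + I.len e ≤ I.T + 1 ∧ (e = x ∨ e = y) := by
    rcases hl with h | h | h
    · exact ⟨x, hs.1, len_add (Or.inl h), Or.inl rfl⟩
    · exact ⟨x, hs.1, len_add (Or.inr h), Or.inl rfl⟩
    · exact ⟨y, hs.2.1, len_add (Or.inr h), Or.inr rfl⟩
  have key : RW I.G I.T v' (e, 0) := by
    have h0 := rw_ctr hev (len_pos ok e)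
    rcases hd with ⟨rfl, hd⟩ | ⟨rfl, hd⟩
    · exact ((rw_ctr hw hd).trans h0.symm).mono (by omega)
    · have l4 := I.len_le e
      exact h0.symm.mono (by omega)
  have n1 : v' ≠ (x, 0) := by
    rcases hd with ⟨rfl, hd⟩ | ⟨rfl, hd⟩
    · exact mk_ne hx _ _
    · exact (hs.1.ne_ctr _).symm
  have n2 : v' ≠ (y, 0) := by
    rcases hd with ⟨rfl, hd⟩ | ⟨rfl, hd⟩
    · exact mk_ne hy _ _
    · exact (hs.2.1.ne_ctr _).symm
  refine Set.disjoint_left.1 (D.near' h (hxy.adj ok) (mk_ne hx _ _) (mk_ne hy _ _) n1 n2 ?_) hz' hz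
  rcases hexy with rfl | rfl
  · exact Or.inr (Or.inr (Or.inl key))
  · exact Or.inr (Or.inr (Or.inr key))

theorem edge_own {x y : ℕ × ℕ} (hxy : I.HAdj x y) {z : ℂ} (hz : z ∈ Set.range (EP ok D x y))
    (hz' : z ∈ Set.range (SP ok D x)) : z = D.pt (x, 0) := by
  have hs := hxy.spec ok
  rw [EP_eq ok D hxy] at hz
  obtain ⟨v, v', h, ⟨t, ht, rfl, hd⟩, hz'⟩ := S_cases ok D hs.1 hz'
  have l1 := I.len_le x
  have l3 := Ls_le ok
  have n2 : v' ≠ (y, 0) := by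
    rcases hd with ⟨rfl, hd⟩ | ⟨rfl, hd⟩
    · exact mk_ne hs.2.2 _ _
    · exact (hs.2.1.ne_ctr _).symm
  by_cases h0 : t = 0
  · subst h0
    exact D.adjm (hxy.adj ok) h n2.symm ⟨hz, hz'⟩
  · exfalso
    have n1 : v' ≠ (x, 0) := by
      rcases hd with ⟨rfl, hd⟩ | ⟨rfl, hd⟩
      · exact mk_ne' _ _ (by omega)
      · exact (hs.1.ne_ctr _).symm
    refine Set.disjoint_left.1 (D.near' h (hxy.adj ok) (mk_ne' _ _ h0) (mk_ne hs.2.2 _ _) n1 n2
      (Or.inl ?_)) hz' hz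
    exact (rw_up hs.1 ht).symm.mono (by unfold FI.Ls at l1; omega)

theorem edge_own' {x y : ℕ × ℕ} (hxy : I.HAdj x y) {z : ℂ} (hz : z ∈ Set.range (EP ok D x y))
    (hz' : z ∈ Set.range (SP ok D y)) : z = D.pt (y, 0) := by
  rw [EP_symm_range ok D hxy] at hz
  exact edge_own ok D hxy.symm hz hz'

/-- Some ends of the two edges are close. -/
def Nr (I : FI) (x y v w : ℕ × ℕ) : Prop :=
  RW I.G I.T (x, 0) (v, 0) ∨ RW I.G I.T (x, 0) (w, 0) ∨ RW I.G I.T (y, 0) (v, 0) ∨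
    RW I.G I.T (y, 0) (w, 0)

theorem edge_edge {x y v w : ℕ × ℕ} (hxy : I.HAdj x y) (hvw : I.HAdj v w) (h1 : x ≠ v)
    (h2 : x ≠ w) (h3 : y ≠ v) (h4 : y ≠ w) (hn : Nr I x y v w) :
    Disjoint (Set.range (EP ok D x y)) (Set.range (EP ok D v w)) := by
  rw [EP_eq ok D hxy, EP_eq ok D hvw]
  exact D.near' _ _ (mk_ne h1 _ _) (mk_ne h2 _ _) (mk_ne h3 _ _) (mk_ne h4 _ _) hn

theorem edge_adj {x y w : ℕ × ℕ} (hxy : I.HAdj x y) (hxw : I.HAdj x w) (h : y ≠ w) {z : ℂ}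
    (hz : z ∈ Set.range (EP ok D x y)) (hz' : z ∈ Set.range (EP ok D x w)) :
    z = D.pt (x, 0) := by
  rw [EP_eq ok D hxy] at hz
  rw [EP_eq ok D hxw] at hz'
  exact D.adjm _ _ (mk_ne h _ _) ⟨hz, hz'⟩

theorem pt_spoke {x w : ℕ × ℕ} (hx : I.HV x) (hw : I.HV w) (h : x ≠ w) :
    D.pt (x, 0) ∉ Set.range (SP ok D w) := by
  intro hz
  obtain ⟨v, v', h', ⟨t, ht, rfl, hd⟩, hz⟩ := S_cases ok D hw hz
  obtain ⟨y, hy, -⟩ := exists_adj hx (len_pos ok x)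
  rcases D.avoid h' hy hz with h1 | h1
  · exact mk_ne h _ _ h1
  · rcases hd with ⟨rfl, hd⟩ | ⟨rfl, hd⟩
    · exact mk_ne h _ _ h1
    · exact hx.ne_ctr _ h1

theorem pt_edge {x v w : ℕ × ℕ} (hx : I.HV x) (hvw : I.HAdj v w) (h : x ≠ v) (h' : x ≠ w) :
    D.pt (x, 0) ∉ Set.range (EP ok D v w) := by
  intro hz
  rw [EP_eq ok D hvw] at hz
  obtain ⟨y, hy, -⟩ := exists_adj hx (len_pos ok x)
  rcases D.avoid _ hy hz with h1 | h1
  · exact mk_ne h _ _ h1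
  · exact mk_ne h' _ _ h1

theorem ctr_edge {v w : ℕ × ℕ} (hvw : I.HAdj v w) : D.pt ctr ∉ Set.range (EP ok D v w) := by
  intro hz
  rw [EP_eq ok D hvw] at hz
  have hs := hvw.spec ok
  have h1 := adj_end hs.1 (t := I.len v - 1) (by have := len_pos ok v; omega)
  rcases D.avoid _ h1.symm hz with h1 | h1
  · exact hs.1.ne_ctr _ h1.symm
  · exact hs.2.1.ne_ctr _ h1.symm

include ok in
theorem pt_inj {v w : ℕ × ℕ} (hv : I.HV v) (hw : I.HV w) (h : v ≠ w) :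
    D.pt (v, 0) ≠ D.pt (w, 0) := by
  obtain ⟨y, hy, -⟩ := exists_adj hv (len_pos ok v)
  obtain ⟨y', hy', -⟩ := exists_adj hw (len_pos ok w)
  exact D.pt_ne hy hy' (mk_ne h _ _)

include ok in
theorem pt_ctr {v : ℕ × ℕ} (hv : I.HV v) : D.pt (v, 0) ≠ D.pt ctr := by
  obtain ⟨y, hy, -⟩ := exists_adj hv (len_pos ok v)
  have h1 := adj_end hv (t := I.len v - 1) (by have := len_pos ok v; omega)
  exact D.pt_ne hy h1.symm (hv.ne_ctr _)

/-- The closed curve through the centre, `v` and `w`. -/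
def cv (v w : ℕ × ℕ) : Set ℂ := crv (SP ok D w) (SP ok D v) (EP ok D v w)

/-- The parity of the winding number of this curve. -/
noncomputable def pr (v w : ℕ × ℕ) (z : ℂ) : ZMod 2 := par (SP ok D w) (SP ok D v) (EP ok D v w) z

theorem pr_eq {v w : ℕ × ℕ} {z z' : ℂ} (h : JoinedIn (cv ok D v w)ᶜ z z') :
    pr ok D v w z = pr ok D v w z' := par_eq _ _ _ h

theorem mem_cv {v w : ℕ × ℕ} {z : ℂ} : z ∈ cv ok D v w ↔ z ∈ Set.range (SP ok D w) ∨
    z ∈ Set.range (SP ok D v) ∨ z ∈ Set.range (EP ok D v w) := by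
  unfold cv crv
  simp only [Set.mem_union, or_assoc]

theorem edge_cv {x y v w : ℕ × ℕ} (hxy : I.HAdj x y) (hvw : I.HAdj v w) (h1 : x ≠ v)
    (h2 : x ≠ w) (h3 : y ≠ v) (h4 : y ≠ w) (hn : Nr I x y v w)
    (hv : I.RV v ∨ I.RV x ∨ I.RV y) (hw : I.RV w ∨ I.RV x ∨ I.RV y) :
    Disjoint (Set.range (EP ok D x y)) (cv ok D v w) := by
  have hs := hvw.spec ok
  rw [Set.disjoint_left]
  intro z hz hz'
  rcases (mem_cv ok D).1 hz' with h | h | h
  · exact Set.disjoint_left.1 (edge_spoke ok D hxy hs.2.1 h2.symm h4.symm hw) hz h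
  · exact Set.disjoint_left.1 (edge_spoke ok D hxy hs.1 h1.symm h3.symm hv) hz h
  · exact Set.disjoint_left.1 (edge_edge ok D hxy hvw h1 h2 h3 h4 hn) hz h

theorem edge_pr {x y v w : ℕ × ℕ} (h : Disjoint (Set.range (EP ok D x y)) (cv ok D v w)) :
    pr ok D v w (D.pt (x, 0)) = pr ok D v w (D.pt (y, 0)) := by
  refine pr_eq ok D ((joined_range (EP ok D x y) ⟨0, (EP ok D x y).source⟩
    ⟨1, (EP ok D x y).target⟩).mono ?_)
  intro z hz hz'
  exact Set.disjoint_left.1 h hz hz'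

/-- The parity law at `q`. -/
theorem theta_at {q : ℕ × ℕ} (hq : I.RV q) (m : Fin 3 → ℕ × ℕ) (hm : ∀ i, I.HAdj (m i) q)
    (hinj : Function.Injective m) :
    (pr ok D (m 0) q (D.pt (m 1, 0)) + pr ok D (m 0) q (D.pt (m 2, 0))) +
      (pr ok D (m 1) q (D.pt (m 0, 0)) + pr ok D (m 1) q (D.pt (m 2, 0))) +
      (pr ok D (m 2) q (D.pt (m 0, 0)) + pr ok D (m 2) q (D.pt (m 1, 0))) = 1 := by
  have hs := fun i => (hm i).spec ok
  refine theta (SP ok D q) (fun i => D.pt (m i, 0)) (fun i => SP ok D (m i))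
    (fun i => EP ok D (m i) q) ?_ ?_ ?_ ?_
  · intro i j hij
    exact (edge_spoke ok D (hm j) (hs i).1 (fun h => hij (hinj h)) (hs i).2.2
      (Or.inr (Or.inr hq))).symm
  · intro j
    exact pt_spoke ok D (hs j).1 hq.hv (hs j).2.2
  · intro i
    exact pt_spoke ok D hq.hv (hs i).1 (hs i).2.2.symm
  · intro i
    exact ctr_edge ok D (hm i)

end Pool.Agent.V7H65.LP
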