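import Pool.Agent.V7H65.LP.Snd1

/-!
# Soundness: anchors and ports
-/

set_option autoImplicit false

namespace Pool.Agent.V7H65.LP

open SimpleGraph FI

/-- The vertex with coordinate `c` of the block `i`. -/
def bv (i c : ℕ) : ℕ × ℕ := (i + 2, c)

theorem bv_ne_hub (i c : ℕ) : bv i c ≠ hub := by
  intro h
  have := congrArg Prod.fst h
  simp only [bv, hub] at this
  omega

theorem bv_ne {i j c c' : ℕ} (h : i ≠ j ∨ c ≠ c') : bv i c ≠ bv j c' := by
  intro he
  unfold bv at he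
  rw [Prod.mk.injEq] at he
  omega

/-- The port path. -/
def pv (I : FI) (i e r : ℕ) : ℕ × ℕ := bv i (if e = 1 then I.c2 + r else I.T - r)

/-- The middle of the block. -/
def mid (I : FI) (i : ℕ) : ℕ × ℕ := bv i (I.T + 1)

/-- The anchor path. -/
def av (I : FI) (j k r : ℕ) : ℕ × ℕ := bv j (I.anc k r)

section facts

variable {I : FI}

theorem rv_bv {i c : ℕ} (hi : i < I.E) (hc : I.Rig c) : I.RV (bv i c) :=
  Or.inr ⟨by simp [bv], by simp [bv]; omega, hc⟩

theorem rig0 : I.Rig I.T := Or.inl rfl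

theorem rig1 : I.Rig (I.T + 1) := Or.inr (Or.inl rfl)

theorem rig2 : I.Rig I.c2 := Or.inr (Or.inr rfl)

theorem FI.lt_c2 : I.T + 1 < I.c2 := by
  unfold FI.c2
  omega

theorem hadj_hub {i c : ℕ} (hi : i < I.E) (hc : I.Rig c) : I.HAdj (bv i c) hub :=
  Or.inr (Or.inl ⟨rfl, rv_bv hi hc, bv_ne_hub i c⟩)

theorem hadj_loc {i c c' : ℕ} (hi : i < I.E) (h : I.Loc c c') : I.HAdj (bv i c) (bv i c') :=
  Or.inl (Or.inr (Or.inl ⟨rfl, by simp [bv], by simp [bv]; omega, h⟩))

theorem loc01 : I.Loc I.T (I.T + 1) :=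
  Or.inl ⟨rfl, by unfold FI.W FI.c2; omega, fun k _ => by have := I.anc_ge k I.T; omega⟩

theorem loc12 : I.Loc (I.T + 1) I.c2 := Or.inr (Or.inr ⟨rfl, rfl⟩)

theorem rv_pv0 {i : ℕ} (hi : i < I.E) (e : ℕ) : I.RV (pv I i e 0) := by
  unfold pv
  split_ifs
  · exact rv_bv hi rig2
  · exact rv_bv hi rig0

theorem hadj_mid_pv0 {i : ℕ} (hi : i < I.E) (e : ℕ) : I.HAdj (mid I i) (pv I i e 0) := by
  unfold pv mid
  split_ifs
  · exact hadj_loc hi loc12
  · exact (hadj_loc hi loc01).symm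

theorem hadj_pv {i e r : ℕ} (hi : i < I.E) (hr : r < I.T) :
    I.HAdj (pv I i e r) (pv I i e (r + 1)) := by
  unfold pv
  split_ifs
  · refine hadj_loc hi (Or.inl ⟨rfl, ?_, fun k hk => ?_⟩)
    · unfold FI.W
      omega
    · have := I.anc_lt hk (le_refl I.T)
      omega
  · refine (hadj_loc hi (Or.inl ⟨?_, ?_, fun k hk => ?_⟩)).symm
    · omega
    · unfold FI.W
      omega
    · have := I.anc_ge k I.T
      omega

theorem hadj_mid_av {j k : ℕ} (hj : j < I.E) (hk : k < I.K) :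
    I.HAdj (mid I j) (av I j k 0) :=
  hadj_loc hj (Or.inr (Or.inl ⟨rfl, k, hk, rfl⟩))

theorem hadj_av {j k r : ℕ} (hj : j < I.E) (hk : k < I.K) (hr : r < I.T) :
    I.HAdj (av I j k r) (av I j k (r + 1)) := by
  refine hadj_loc hj (Or.inl ⟨?_, ?_, fun k' hk' => ?_⟩)
  · unfold FI.anc
    omega
  · have := I.anc_lt hk (show r + 1 ≤ I.T from hr)
    unfold FI.W
    omega
  · intro he
    have := (anc_inj (by omega) le_rfl he).2
    omega

theorem hadj_con (ok : I.Ok) {k : ℕ} (hk : k < I.K) :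
    I.HAdj (pv I (I.src k) (I.prt k) I.T) (av I (I.tgt k) k I.T) := by
  refine Or.inl (Or.inr (Or.inr ⟨k, hk, ?_, rfl⟩))
  unfold pv bv ecd
  split_ifs
  · rfl
  · simp

theorem rw_pv (ok : I.Ok) {i e : ℕ} (hi : i < I.E) : ∀ {r : ℕ}, r ≤ I.T →
    RW I.G r (pv I i e 0, 0) (pv I i e r, 0)
  | 0, _ => RW.refl _
  | r + 1, hr => (rw_pv ok hi (r := r) (by omega)).trans
      (RW.of_adj ((hadj_pv hi (by omega)).adj ok))

theorem rw_av (ok : I.Ok) {j k : ℕ} (hj : j < I.E) (hk : k < I.K) : ∀ {r : ℕ}, r ≤ I.T →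
    RW I.G (r + 1) (mid I j, 0) (av I j k r, 0)
  | 0, _ => RW.of_adj ((hadj_mid_av hj hk).adj ok)
  | r + 1, hr => (rw_av ok hj hk (r := r) (by omega)).trans
      (RW.of_adj ((hadj_av hj hk (by omega)).adj ok))

theorem rw_hub (ok : I.Ok) {i c : ℕ} (hi : i < I.E) (hc : I.Rig c) :
    RW I.G 1 (bv i c, 0) (hub, 0) := RW.of_adj ((hadj_hub hi hc).adj ok)

theorem pv_ne_hub (i e r : ℕ) : pv I i e r ≠ hub := bv_ne_hub _ _

theorem av_ne_hub (j k r : ℕ) : av I j k r ≠ hub := bv_ne_hub _ _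

theorem mid_ne_hub (j : ℕ) : mid I j ≠ hub := bv_ne_hub _ _

theorem pv_ne {i e r r' : ℕ} (h : r ≠ r') (hr : r ≤ I.T) (hr' : r' ≤ I.T) :
    pv I i e r ≠ pv I i e r' := by
  unfold pv
  split_ifs
  · exact bv_ne (Or.inr (by omega))
  · exact bv_ne (Or.inr (by omega))

theorem pv_ne_mid {i e r : ℕ} : pv I i e r ≠ mid I i := by
  have := I.lt_c2
  unfold pv mid
  split_ifs
  · exact bv_ne (Or.inr (by omega))
  · exact bv_ne (Or.inr (by omega))

end facts

variable {I : FI} (ok : I.Ok) (D : PD I.G I.T)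

theorem pr_symm {v w : ℕ × ℕ} (h : I.HAdj v w) {z : ℂ} (hz : z ∉ cv ok D v w) :
    pr ok D v w z = pr ok D w v z := by
  unfold pr
  rw [par_symm _ _ _ hz]
  congr 1
  rw [EP_eq ok D h, EP_eq ok D h.symm]
  exact (D.rev _).symm

theorem pt_cv {x v w : ℕ × ℕ} (hx : I.HV x) (hvw : I.HAdj v w) (h : x ≠ v) (h' : x ≠ w) :
    D.pt (x, 0) ∉ cv ok D v w := by
  have hs := hvw.spec ok
  rw [mem_cv]
  rintro (h1 | h1 | h1)
  · exact pt_spoke ok D hx hs.2.1 h' h1
  · exact pt_spoke ok D hx hs.1 h h1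
  · exact pt_edge ok D hx hvw h h' h1

/-- The edges of a chain avoid a set. -/
theorem chain_joined (f : ℕ → ℕ × ℕ) (A : Set ℂ) (a : ℕ) : ∀ n : ℕ,
    D.pt (f a, 0) ∉ A →
    (∀ r, a ≤ r → r < a + n → Disjoint (Set.range (EP ok D (f r) (f (r + 1)))) A) →
    JoinedIn Aᶜ (D.pt (f a, 0)) (D.pt (f (a + n), 0))
  | 0, h0, _ => JoinedIn.refl h0
  | n + 1, h0, h => by
    refine (chain_joined f A a n h0 fun r h1 h2 => h r h1 (by omega)).trans ?_
    refine (joined_range (EP ok D (f (a + n)) (f (a + n + 1))) ⟨0, (EP ok D _ _).source⟩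
      ⟨1, (EP ok D _ _).target⟩).mono ?_
    intro z hz hz'
    exact Set.disjoint_left.1 (h (a + n) (by omega) (by omega)) hz hz'

theorem edge_joined {x y : ℕ × ℕ} {A : Set ℂ} (h : Disjoint (Set.range (EP ok D x y)) A) :
    JoinedIn Aᶜ (D.pt (x, 0)) (D.pt (y, 0)) := by
  refine (joined_range (EP ok D x y) ⟨0, (EP ok D x y).source⟩
    ⟨1, (EP ok D x y).target⟩).mono ?_
  intro z hz hz'
  exact Set.disjoint_left.1 h hz hz'

theorem zmod_cases (a b c : ZMod 2) (h : b ≠ c) : a = b ∨ a = c := by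
  revert h
  revert a b c
  decide

/-- An edge whose one end is adjacent to the hub does not meet the curves through the hub. -/
theorem near_hub {x y : ℕ × ℕ} {b : ℕ × ℕ} (hxy : I.HAdj x y) (hb : I.RV b) (hbh : b ≠ hub)
    (hx : I.RV x) (h1 : x ≠ hub) (h2 : x ≠ b) (h3 : y ≠ hub) (h4 : y ≠ b) :
    Disjoint (Set.range (EP ok D x y)) (cv ok D b hub) := by
  obtain ⟨i, c, hi, hc, rfl⟩ : ∃ i c, i < I.E ∧ I.Rig c ∧ x = bv i c := by
    rcases hx with hx | ⟨e1, e2, e3⟩
    · exact absurd hx h1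
    · refine ⟨x.1 - 2, x.2, by omega, e3, ?_⟩
      unfold bv
      ext
      · simp; omega
      · rfl
  obtain ⟨j, d, hj, hd, rfl⟩ : ∃ i c, i < I.E ∧ I.Rig c ∧ b = bv i c := by
    rcases hb with hb | ⟨e1, e2, e3⟩
    · exact absurd hb hbh
    · refine ⟨b.1 - 2, b.2, by omega, e3, ?_⟩
      unfold bv
      ext
      · simp; omega
      · rfl
  refine edge_cv ok D hxy (hadj_hub hj hd) h2 h1 h4 h3 (Or.inr (Or.inl ?_))
    (Or.inl (rv_bv hj hd)) (Or.inl rv_hub)
  exact (rw_hub ok hi hc).mono ok.hT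

theorem rv_ne_hub {b : ℕ × ℕ} (hb : I.RV b) (hbh : b ≠ hub) :
    ∃ i c, i < I.E ∧ I.Rig c ∧ b = bv i c := by
  rcases hb with hb | ⟨e1, e2, e3⟩
  · exact absurd hb hbh
  · refine ⟨b.1 - 2, b.2, by omega, e3, ?_⟩
    unfold bv
    ext
    · simp; omega
    · rfl

/-- The middle of a block is between its ends. -/
theorem mid_between {j : ℕ} (hj : j < I.E) :
    pr ok D (mid I j) hub (D.pt (bv j I.T, 0)) ≠ pr ok D (mid I j) hub (D.pt (bv j I.c2, 0)) := by
  have hT := ok.hT
  have hlt := I.lt_c2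
  have n01 : bv j I.T ≠ mid I j := bv_ne (Or.inr (by omega))
  have n02 : bv j I.T ≠ bv j I.c2 := bv_ne (Or.inr (by omega))
  have n12 : mid I j ≠ bv j I.c2 := bv_ne (Or.inr (by omega))
  have th := theta_at ok D rv_hub ![bv j I.T, mid I j, bv j I.c2] (by
    intro i
    fin_cases i
    · exact hadj_hub hj rig0
    · exact hadj_hub hj rig1
    · exact hadj_hub hj rig2) (by
    intro x y hxy
    fin_cases x <;> fin_cases y <;>
      first
        | rfl
        | exact absurd hxy n01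
        | exact absurd hxy n01.symm
        | exact absurd hxy n02
        | exact absurd hxy n02.symm
        | exact absurd hxy n12
        | exact absurd hxy n12.symm)
  simp only [Matrix.cons_val_zero, Matrix.cons_val_one, Matrix.cons_val] at th
  have e1 : pr ok D (bv j I.T) hub (D.pt (mid I j, 0)) =
      pr ok D (bv j I.T) hub (D.pt (bv j I.c2, 0)) :=
    edge_pr ok D (near_hub ok D (hadj_loc hj loc12) (rv_bv hj rig0) (bv_ne_hub _ _)
      (rv_bv hj rig1) (bv_ne_hub _ _) n01.symm (bv_ne_hub _ _) n02.symm)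
  have e2 : pr ok D (bv j I.c2) hub (D.pt (bv j I.T, 0)) =
      pr ok D (bv j I.c2) hub (D.pt (mid I j, 0)) :=
    edge_pr ok D (near_hub ok D (hadj_loc hj loc01) (rv_bv hj rig2) (bv_ne_hub _ _)
      (rv_bv hj rig0) (bv_ne_hub _ _) n02 (bv_ne_hub _ _) n12)
  rw [e1, e2] at th
  intro he
  rw [he] at th
  revert th
  generalize pr ok D (bv j I.T) hub (D.pt (bv j I.c2, 0)) = a1
  generalize pr ok D (mid I j) hub (D.pt (bv j I.c2, 0)) = a2
  generalize pr ok D (bv j I.c2) hub (D.pt (mid I j, 0)) = a3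
  revert a1 a2 a3
  decide

/-- The tip of an anchor path is on the same side as the middle of its block. -/
theorem anchor {j k : ℕ} (hj : j < I.E) (hk : k < I.K) {b : ℕ × ℕ} (hb : I.RV b)
    (hbh : b ≠ hub) (hbj : b.1 ≠ j + 2) :
    pr ok D b hub (D.pt (av I j k I.T, 0)) = pr ok D b hub (D.pt (mid I j, 0)) := by
  have hT := ok.hT
  have hlt := I.lt_c2
  have hbne : ∀ c, b ≠ bv j c := fun c he => hbj (by rw [he]; rfl)
  obtain ⟨i, cb, hi, hcb, hbe⟩ := rv_ne_hub hb hbh
  have hab : I.HAdj b hub := by rw [hbe]; exact hadj_hub hi hcb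
  -- the neighbour `g` of the middle on the side of the anchor
  obtain ⟨cg, hcg, hgr, hgm, hgy⟩ : ∃ cg, I.Rig cg ∧ cg ≠ I.T + 1 ∧
      I.HAdj (mid I j) (bv j cg) ∧ pr ok D (mid I j) hub (D.pt (av I j k 0, 0)) =
        pr ok D (mid I j) hub (D.pt (bv j cg, 0)) := by
    rcases zmod_cases (pr ok D (mid I j) hub (D.pt (av I j k 0, 0))) _ _
      (mid_between ok D hj) with h | h
    · exact ⟨I.T, rig0, by omega, (hadj_loc hj loc01).symm, h⟩
    · exact ⟨I.c2, rig2, by omega, hadj_loc hj loc12, h⟩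
  set c := mid I j with hc
  set g := bv j cg with hg
  have rc : I.RV c := rv_bv hj rig1
  have rg : I.RV g := rv_bv hj hcg
  have hch : c ≠ hub := bv_ne_hub _ _
  have hgh : g ≠ hub := bv_ne_hub _ _
  have hgc : g ≠ c := bv_ne (Or.inr hgr)
  have hav : ∀ r ≤ I.T, av I j k r ≠ c ∧ av I j k r ≠ g ∧ av I j k r ≠ hub ∧
      av I j k r ≠ b := by
    intro r hr
    have h1 := I.anc_ge k r
    have h2 := anc_lt hk hr
    refine ⟨bv_ne (Or.inr (by omega)), bv_ne (Or.inr ?_), bv_ne_hub _ _, (hbne _).symm⟩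
    rcases hcg with h | h | h <;> omega
  obtain ⟨hy1, hy2, hy3, hy4⟩ := hav 0 (Nat.zero_le _)
  have hcy : I.HAdj c (av I j k 0) := hadj_mid_av hj hk
  have hyv : I.HV (av I j k 0) := (hcy.spec ok).2.1
  have hgch : I.HAdj g hub := hadj_hub hj hcg
  have hchh : I.HAdj c hub := hadj_hub hj rig1
  -- the curve through `g` and `c` separates the anchor from the hub
  have sep : pr ok D g c (D.pt (hub, 0)) ≠ pr ok D g c (D.pt (av I j k 0, 0)) := by
    have th := theta_at ok D (q := c) rc ![hub, g, av I j k 0] (by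
      intro i
      fin_cases i
      · exact hchh.symm
      · exact hgm.symm
      · exact hcy.symm) (by
      intro x y hxy
      fin_cases x <;> fin_cases y <;>
        first
          | rfl
          | exact absurd hxy hgh
          | exact absurd hxy hgh.symm
          | exact absurd hxy hy2
          | exact absurd hxy hy2.symm
          | exact absurd hxy hy3
          | exact absurd hxy hy3.symm)
    simp only [Matrix.cons_val_zero, Matrix.cons_val_one, Matrix.cons_val] at th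
    have e1 : pr ok D hub c (D.pt (g, 0)) = pr ok D hub c (D.pt (av I j k 0, 0)) := by
      rw [← pr_symm ok D hchh (pt_cv ok D rg.hv hchh hgc hgh),
        ← pr_symm ok D hchh (pt_cv ok D hyv hchh hy1 hy3)]
      exact hgy.symm
    have e3 : pr ok D (av I j k 0) c (D.pt (hub, 0)) = pr ok D (av I j k 0) c (D.pt (g, 0)) := by
      refine edge_pr ok D (edge_cv ok D hgch.symm hcy.symm hy3.symm hch.symm hy2.symm hgc
        (Or.inr (Or.inl ?_)) (Or.inr (Or.inl rv_hub)) (Or.inl rc))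
      exact (rw_hub ok hj rig1).symm.mono hT
    rw [e1, e3] at th
    intro he
    rw [he] at th
    revert th
    generalize pr ok D hub c (D.pt (av I j k 0, 0)) = a1
    generalize pr ok D g c (D.pt (av I j k 0, 0)) = a2
    generalize pr ok D (av I j k 0) c (D.pt (g, 0)) = a3
    revert a1 a2 a3
    decide
  -- the anchor path avoids this curve
  have hstep : ∀ r < I.T, Disjoint (Set.range (EP ok D (av I j k r) (av I j k (r + 1))))
      (cv ok D g c) := by
    intro r hr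
    obtain ⟨f1, f2, f3, f4⟩ := hav r hr.le
    obtain ⟨g1, g2, g3, g4⟩ := hav (r + 1) hr
    refine edge_cv ok D (hadj_av hj hk hr) hgm.symm f2 f1 g2 g1 (Or.inr (Or.inl ?_))
      (Or.inl rg) (Or.inl rc)
    exact (rw_av ok hj hk (r := r) hr.le).symm.mono hr
  have hy0 : D.pt (av I j k 0, 0) ∉ cv ok D g c := pt_cv ok D hyv hgm.symm hy2 hy1
  -- hence also the curve through `b`
  have hbg : Disjoint (Set.range (EP ok D b hub)) (cv ok D g c) := by
    refine edge_cv ok D hab hgm.symm (hbne _) (hbne _) hgh.symm hch.symm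
      (Or.inr (Or.inr (Or.inr ?_))) (Or.inl rg) (Or.inl rc)
    exact (rw_hub ok hj rig1).symm.mono hT
  have hstep' : ∀ r < I.T, Disjoint (Set.range (EP ok D (av I j k r) (av I j k (r + 1))))
      (cv ok D b hub) := by
    intro r hr
    obtain ⟨f1, f2, f3, f4⟩ := hav r hr.le
    obtain ⟨g1, g2, g3, g4⟩ := hav (r + 1) hr
    rw [Set.disjoint_left]
    intro z hz hz'
    rcases (mem_cv ok D).1 hz' with h | h | h
    · exact Set.disjoint_left.1 (edge_spoke ok D (hadj_av hj hk hr) hv_hub f3.symm g3.symm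
        (Or.inl rv_hub)) hz h
    · exact Set.disjoint_left.1 (edge_spoke ok D (hadj_av hj hk hr) hb.hv f4.symm g4.symm
        (Or.inl hb)) hz h
    · refine sep (Eq.symm (pr_eq ok D ?_))
      have j1 := chain_joined ok D (fun r => av I j k r) (cv ok D g c) 0 r hy0
        (fun r' _ h2 => hstep r' (by omega))
      rw [Nat.zero_add] at j1
      refine j1.trans ?_
      have j2 : JoinedIn (cv ok D g c)ᶜ (D.pt (av I j k r, 0)) z := by
        refine (joined_range (EP ok D (av I j k r) (av I j k (r + 1)))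
          ⟨0, (EP ok D _ _).source⟩ hz).mono ?_
        intro x hx hx'
        exact Set.disjoint_left.1 (hstep r hr) hx hx'
      refine j2.trans ?_
      refine (joined_range (EP ok D b hub) h ⟨1, (EP ok D _ _).target⟩).mono ?_
      intro x hx hx'
      exact Set.disjoint_left.1 hbg hx hx'
  have hy0' : D.pt (av I j k 0, 0) ∉ cv ok D b hub := pt_cv ok D hyv hab hy4 hy3
  have j1 := chain_joined ok D (fun r => av I j k r) (cv ok D b hub) 0 I.T hy0'
    (fun r' _ h2 => hstep' r' (by omega))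
  rw [Nat.zero_add] at j1
  rw [← pr_eq ok D j1]
  exact (edge_pr ok D (near_hub ok D hcy hb hbh rc hch (hbne _).symm hy3 hy4)).symm

end Pool.Agent.V7H65.LP
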