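import Pool.Agent.V7H65.LP.Snd2

/-!
# Soundness: ports, and the facing function of a drawing
-/

set_option autoImplicit false

namespace Pool.Agent.V7H65.LP

open SimpleGraph FI

variable {I : FI} (ok : I.Ok) (D : PD I.G I.T)

/-- Three different values. -/
theorem inj3 {α : Type} {a b c : α} (hab : a ≠ b) (hac : a ≠ c) (hbc : b ≠ c) :
    Function.Injective ![a, b, c] := by
  intro x y hxy
  fin_cases x <;> fin_cases y <;>
    first
      | rfl
      | exact absurd hxy hab
      | exact absurd hxy hab.symm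
      | exact absurd hxy hac
      | exact absurd hxy hac.symm
      | exact absurd hxy hbc
      | exact absurd hxy hbc.symm

/-- The parity law at `q`. -/
theorem theta3 {q a b c : ℕ × ℕ} (hq : I.RV q) (ha : I.HAdj a q) (hb : I.HAdj b q)
    (hc : I.HAdj c q) (hab : a ≠ b) (hac : a ≠ c) (hbc : b ≠ c) :
    (pr ok D a q (D.pt (b, 0)) + pr ok D a q (D.pt (c, 0))) +
      (pr ok D b q (D.pt (a, 0)) + pr ok D b q (D.pt (c, 0))) +
      (pr ok D c q (D.pt (a, 0)) + pr ok D c q (D.pt (b, 0))) = 1 := by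
  have th := theta_at ok D hq ![a, b, c] (by
    intro i
    fin_cases i
    · exact ha
    · exact hb
    · exact hc) (inj3 hab hac hbc)
  simpa only [Matrix.cons_val_zero, Matrix.cons_val_one, Matrix.cons_val] using th

/-- The end of a block with a port is between the middle of the block and the target. -/
theorem port {k : ℕ} (hk : k < I.K) :
    pr ok D (pv I (I.src k) (I.prt k) 0) hub (D.pt (mid I (I.src k), 0)) ≠
      pr ok D (pv I (I.src k) (I.prt k) 0) hub (D.pt (mid I (I.tgt k), 0)) := by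
  intro hass
  have hT := ok.hT
  have hlt := I.lt_c2
  have hi := ok.hsrc k hk
  have hj := ok.htgt k hk
  have hij := ok.hne k hk
  set i := I.src k with hidef
  set j := I.tgt k with hjdef
  set e := I.prt k with hedef
  set a := pv I i e 0 with ha
  set c := mid I i with hc
  have ra : I.RV a := rv_pv0 hi e
  have rc : I.RV c := rv_bv hi rig1
  have hah : a ≠ hub := pv_ne_hub _ _ _
  have hch : c ≠ hub := mid_ne_hub _
  have hac : a ≠ c := pv_ne_mid
  have haj : a.1 ≠ j + 2 := by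
    rw [ha]
    simp only [pv, bv]
    omega
  have hcj : c.1 ≠ j + 2 := by
    rw [hc]
    simp only [mid, bv]
    omega
  have hadja : I.HAdj a hub := by
    rw [ha]
    unfold pv
    split_ifs
    · exact hadj_hub hi rig2
    · exact hadj_hub hi rig0
  have hadjc : I.HAdj c hub := hadj_hub hi rig1
  have hadjca : I.HAdj c a := hadj_mid_pv0 hi e
  -- the vertices of the port path
  have hpv : ∀ r, 1 ≤ r → r ≤ I.T → pv I i e r ≠ a ∧ pv I i e r ≠ c ∧ pv I i e r ≠ hub :=
    fun r h1 h2 => ⟨pv_ne (by omega) h2 (by omega), pv_ne_mid, pv_ne_hub _ _ _⟩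
  set y := av I j k I.T with hy
  have hya : y ≠ a := fun he => haj (by rw [← he]; rfl)
  have hyc : y ≠ c := fun he => hcj (by rw [← he]; rfl)
  have hyh : y ≠ hub := av_ne_hub _ _ _
  have hcon : I.HAdj (pv I i e I.T) y := hadj_con ok hk
  -- all the edges of the port path and the connector
  have edges : ∀ A : Set ℂ, (∀ x x', I.HAdj x x' → x ≠ a → x ≠ c → x ≠ hub → x' ≠ a → x' ≠ c →
      x' ≠ hub → RW I.G I.T (x, 0) (a, 0) → Disjoint (Set.range (EP ok D x x')) A) →
      D.pt (pv I i e 1, 0) ∉ A →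
      JoinedIn Aᶜ (D.pt (pv I i e 1, 0)) (D.pt (y, 0)) := by
    intro A hA h1
    have j1 := chain_joined ok D (fun r => pv I i e r) A 1 (I.T - 1) h1 (by
      intro r h1 h2
      obtain ⟨f1, f2, f3⟩ := hpv r h1 (by omega)
      obtain ⟨g1, g2, g3⟩ := hpv (r + 1) (by omega) (by omega)
      exact hA _ _ (hadj_pv hi (by omega)) f1 f2 f3 g1 g2 g3
        ((rw_pv ok hi (by omega)).symm.mono (by omega : r ≤ I.T)))
    rw [show 1 + (I.T - 1) = I.T by omega] at j1
    obtain ⟨f1, f2, f3⟩ := hpv I.T hT le_rfl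
    exact j1.trans (edge_joined ok D (hA _ _ hcon f1 f2 f3 hya hyc hyh
      (rw_pv ok hi le_rfl).symm))
  obtain ⟨x1a, x1c, x1h⟩ := hpv 1 le_rfl hT
  set x1 := pv I i e 1 with hx1
  have hadjax : I.HAdj a x1 := hadj_pv hi (by omega)
  have hx1v : I.HV x1 := (hadjax.spec ok).2.1
  -- step 1: the curve through `a` and the hub
  have s1 : JoinedIn (cv ok D a hub)ᶜ (D.pt (x1, 0)) (D.pt (y, 0)) := by
    refine edges _ ?_ (pt_cv ok D hx1v hadja x1a x1h)
    intro x x' hxx h1 h2 h3 h4 h5 h6 h7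
    exact edge_cv ok D hxx hadja h1 h3 h4 h6 (Or.inl h7) (Or.inl ra) (Or.inl rv_hub)
  have s2 : pr ok D a hub (D.pt (x1, 0)) = pr ok D a hub (D.pt (c, 0)) := by
    rw [pr_eq ok D s1, hass]
    exact anchor ok D hj hk ra hah haj
  -- step 2: the curve through `c` and `a`
  have s3 : pr ok D c a (D.pt (hub, 0)) ≠ pr ok D c a (D.pt (x1, 0)) := by
    have th := theta3 ok D ra hadja.symm hadjca hadjax.symm hch.symm x1h.symm x1c.symm
    have e1 : pr ok D hub a (D.pt (c, 0)) = pr ok D hub a (D.pt (x1, 0)) := by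
      rw [← pr_symm ok D hadja (pt_cv ok D rc.hv hadja hac.symm hch),
        ← pr_symm ok D hadja (pt_cv ok D hx1v hadja x1a x1h)]
      exact s2.symm
    have e3 : pr ok D x1 a (D.pt (hub, 0)) = pr ok D x1 a (D.pt (c, 0)) := by
      refine edge_pr ok D (edge_cv ok D hadjc.symm hadjax.symm x1h.symm hah.symm x1c.symm
        hac.symm (Or.inr (Or.inl ?_)) (Or.inr (Or.inl rv_hub)) (Or.inl ra))
      exact (RW.of_adj (hadja.symm.adj ok)).mono hT
    rw [e1, e3] at th
    intro he
    rw [he] at th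
    revert th
    generalize pr ok D hub a (D.pt (x1, 0)) = a1
    generalize pr ok D c a (D.pt (x1, 0)) = a2
    generalize pr ok D x1 a (D.pt (c, 0)) = a3
    revert a1 a2 a3
    decide
  -- step 3: the port path avoids the curve through `c` and `a`
  have hca : ∀ x x', I.HAdj x x' → x ≠ a → x ≠ c → x ≠ hub → x' ≠ a → x' ≠ c →
      x' ≠ hub → RW I.G I.T (x, 0) (a, 0) →
      Disjoint (Set.range (EP ok D x x')) (cv ok D c a) := by
    intro x x' hxx h1 h2 h3 h4 h5 h6 h7
    exact edge_cv ok D hxx hadjca h2 h1 h5 h4 (Or.inr (Or.inl h7)) (Or.inl rc) (Or.inl ra)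
  -- step 4: the edge from `c` to the hub
  have hch' : Set.range (EP ok D hub c) \ {D.pt (c, 0)} ⊆ (cv ok D c a)ᶜ := by
    rintro z ⟨hz, hzc⟩ hz'
    rw [Set.mem_singleton_iff] at hzc
    rcases (mem_cv ok D).1 hz' with h | h | h
    · exact Set.disjoint_left.1 (edge_spoke ok D hadjc.symm ra.hv hah hac (Or.inl ra)) hz h
    · exact hzc (edge_own' ok D hadjc.symm hz h)
    · rw [EP_symm_range ok D hadjc.symm] at hz
      exact hzc (edge_adj ok D hadjc hadjca hah.symm hz h)
  -- step 5: the port path avoids the curve through `c` and the hub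
  have hx1ca : D.pt (x1, 0) ∉ cv ok D c a := pt_cv ok D hx1v hadjca x1c x1a
  have key : ∀ x x', I.HAdj x x' → x ≠ a → x ≠ c → x ≠ hub → x' ≠ a → x' ≠ c →
      x' ≠ hub → RW I.G I.T (x, 0) (a, 0) →
      JoinedIn (cv ok D c a)ᶜ (D.pt (x1, 0)) (D.pt (x, 0)) →
      Disjoint (Set.range (EP ok D x x')) (cv ok D c hub) := by
    intro x x' hxx h1 h2 h3 h4 h5 h6 h7 h8
    rw [Set.disjoint_left]
    intro z hz hz'
    rcases (mem_cv ok D).1 hz' with h | h | h
    · exact Set.disjoint_left.1 (edge_spoke ok D hxx hv_hub h3.symm h6.symm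
        (Or.inl rv_hub)) hz h
    · exact Set.disjoint_left.1 (edge_spoke ok D hxx rc.hv h2.symm h5.symm (Or.inl rc)) hz h
    · have hzc : z ≠ D.pt (c, 0) := by
        rintro rfl
        exact pt_edge ok D rc.hv hxx h2.symm h5.symm hz
      have hzr : z ∈ Set.range (EP ok D hub c) := by rwa [EP_symm_range ok D hadjc.symm]
      refine s3 (Eq.symm (pr_eq ok D ?_))
      have j2 : JoinedIn (cv ok D c a)ᶜ (D.pt (x, 0)) z := by
        refine (joined_range (EP ok D x x') ⟨0, (EP ok D _ _).source⟩ hz).mono ?_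
        intro w hw hw'
        exact Set.disjoint_left.1 (hca x x' hxx h1 h2 h3 h4 h5 h6 h7) hw hw'
      refine (h8.trans j2).trans ?_
      rw [EP_eq ok D hadjc.symm] at hzr hch'
      exact (D.retract _ hzr hzc).mono hch'
  have s4 : JoinedIn (cv ok D c hub)ᶜ (D.pt (x1, 0)) (D.pt (y, 0)) := by
    have hx1ch : D.pt (x1, 0) ∉ cv ok D c hub := pt_cv ok D hx1v hadjc x1c x1h
    have pre : ∀ r, 1 ≤ r → r ≤ I.T →
        JoinedIn (cv ok D c a)ᶜ (D.pt (x1, 0)) (D.pt (pv I i e r, 0)) := by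
      intro r h1 h2
      have j1 := chain_joined ok D (fun r => pv I i e r) (cv ok D c a) 1 (r - 1) hx1ca (by
        intro r' h1' h2'
        obtain ⟨f1, f2, f3⟩ := hpv r' h1' (by omega)
        obtain ⟨g1, g2, g3⟩ := hpv (r' + 1) (by omega) (by omega)
        exact hca _ _ (hadj_pv hi (by omega)) f1 f2 f3 g1 g2 g3
          ((rw_pv ok hi (by omega)).symm.mono (by omega : r' ≤ I.T)))
      rwa [show 1 + (r - 1) = r by omega] at j1
    have j1 := chain_joined ok D (fun r => pv I i e r) (cv ok D c hub) 1 (I.T - 1) hx1ch (by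
      intro r h1 h2
      obtain ⟨f1, f2, f3⟩ := hpv r h1 (by omega)
      obtain ⟨g1, g2, g3⟩ := hpv (r + 1) (by omega) (by omega)
      exact key _ _ (hadj_pv hi (by omega)) f1 f2 f3 g1 g2 g3
        ((rw_pv ok hi (by omega)).symm.mono (by omega : r ≤ I.T)) (pre r h1 (by omega)))
    rw [show 1 + (I.T - 1) = I.T by omega] at j1
    obtain ⟨f1, f2, f3⟩ := hpv I.T hT le_rfl
    exact j1.trans (edge_joined ok D (key _ _ hcon f1 f2 f3 hya hyc hyh
      (rw_pv ok hi le_rfl).symm (pre I.T hT le_rfl)))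
  have s5 : pr ok D c hub (D.pt (a, 0)) = pr ok D c hub (D.pt (mid I j, 0)) := by
    have e1 : pr ok D c hub (D.pt (a, 0)) = pr ok D c hub (D.pt (x1, 0)) :=
      edge_pr ok D (near_hub ok D hadjax rc hch ra hah hac x1h x1c)
    rw [e1, pr_eq ok D s4]
    exact anchor ok D hj hk rc hch hcj
  -- step 6: contradiction
  have hmj : I.HAdj (mid I j) hub := hadj_hub hj rig1
  have rmj : I.RV (mid I j) := rv_bv hj rig1
  have hamj : a ≠ mid I j := fun he => haj (by rw [he]; rfl)
  have hcmj : c ≠ mid I j := fun he => hcj (by rw [he]; rfl)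
  have th := theta3 ok D rv_hub hadja hadjc hmj hac hamj hcmj
  have e3 : pr ok D (mid I j) hub (D.pt (a, 0)) = pr ok D (mid I j) hub (D.pt (c, 0)) :=
    edge_pr ok D (near_hub ok D hadjca.symm rmj (mid_ne_hub _) ra hah hamj hch hcmj)
  rw [hass, s5, e3] at th
  revert th
  generalize pr ok D a hub (D.pt (mid I j, 0)) = a1
  generalize pr ok D c hub (D.pt (mid I j, 0)) = a2
  generalize pr ok D (mid I j) hub (D.pt (c, 0)) = a3
  revert a1 a2 a3
  decide

/-- The arcs from the centre to `v` and from there to the hub. -/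
def arm (v : ℕ × ℕ) : Set ℂ := Set.range (SP ok D v) ∪ Set.range (EP ok D v hub)

theorem arm_closed (v : ℕ × ℕ) : IsClosed (arm ok D v) :=
  ((isCompact_range (SP ok D v).continuous).union
    (isCompact_range (EP ok D v hub).continuous)).isClosed

theorem cv_hub (v : ℕ × ℕ) : cv ok D v hub = Set.range (SP ok D hub) ∪ arm ok D v := by
  unfold cv crv arm
  rw [Set.union_assoc]

theorem spk_fst {w : ℕ × ℕ} (hw : I.HV w) : ∀ d ∈ (spk ok hw).darts, d.fst ≠ ctr := by
  intro d hd he
  obtain ⟨t, _, h, _⟩ := spk_darts ok hw d hd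
  exact hw.ne_ctr t (h.symm.trans he)

/-- Arms of different vertices meet only in the centre and in the hub. -/
theorem arm_arm {v w : ℕ × ℕ} (rv : I.RV v) (rw : I.RV w) (hv : I.HAdj v hub)
    (hw : I.HAdj w hub) (h : v ≠ w) {z : ℂ} (hz : z ∈ arm ok D v)
    (hs : z ∉ Set.range (SP ok D hub)) : z ∉ cv ok D w hub := by
  have hvh := (hv.spec ok).2.2
  have hwh := (hw.spec ok).2.2
  have hzc : z ≠ D.pt ctr := by
    rintro rfl
    exact hs ⟨0, (SP ok D hub).source⟩
  have hzh : z ≠ D.pt (hub, 0) := by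
    rintro rfl
    exact hs ⟨1, (SP ok D hub).target⟩
  intro hz'
  rcases (mem_cv ok D).1 hz' with h1 | h1 | h1
  · exact hs h1
  · rcases hz with hz | hz
    · exact hzc (spoke_spoke ok D rv.hv rw.hv h hz h1)
    · exact Set.disjoint_left.1 (edge_spoke ok D hv rw.hv h.symm hwh (Or.inl rw)) hz h1
  · rcases hz with hz | hz
    · exact Set.disjoint_left.1 (edge_spoke ok D hw rv.hv h hvh (Or.inl rv)) h1 hz
    · rw [EP_symm_range ok D hv] at hz
      rw [EP_symm_range ok D hw] at h1
      exact hzh (edge_adj ok D hv.symm hw.symm h hz h1)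

/-- A point of an arm can be moved to its vertex. -/
theorem arm_joined {v : ℕ × ℕ} (rv : I.RV v) (hv : I.HAdj v hub) {z : ℂ}
    (hz : z ∈ arm ok D v) (hs : z ∉ Set.range (SP ok D hub)) :
    JoinedIn (arm ok D v \ Set.range (SP ok D hub)) z (D.pt (v, 0)) := by
  have hvh := (hv.spec ok).2.2
  have hzc : z ≠ D.pt ctr := by
    rintro rfl
    exact hs ⟨0, (SP ok D hub).source⟩
  have hzh : z ≠ D.pt (hub, 0) := by
    rintro rfl
    exact hs ⟨1, (SP ok D hub).target⟩
  rcases hz with hz | hz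
  · have hz' := hz
    rw [SP_range ok D rv.hv] at hz'
    refine (D.retract_walk (spk ok rv.hv) (spk_fst ok rv.hv) hz' hzc).mono ?_
    rintro x ⟨hx, hxc⟩
    rw [← SP_range ok D rv.hv] at hx
    exact ⟨Or.inl hx, fun h => hxc (spoke_spoke ok D rv.hv hv_hub hvh hx h)⟩
  · have hz' := hz
    rw [EP_eq ok D hv] at hz'
    refine (D.retract _ hz' hzh).mono ?_
    rintro x ⟨hx, hxc⟩
    rw [← EP_eq ok D hv] at hx
    exact ⟨Or.inr hx, fun h => hxc (edge_own' ok D hv hx h)⟩

/-- Of three vertices around the hub, two of which are linked outside the spoke of the hub, at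
most one of a linked one and the third one is in the middle. -/
theorem at_most_one {m0 m1 m2 : ℕ × ℕ} (r0 : I.RV m0) (r1 : I.RV m1) (r2 : I.RV m2)
    (h0 : I.HAdj m0 hub) (h1 : I.HAdj m1 hub) (h2 : I.HAdj m2 hub)
    (h01 : m0 ≠ m1) (h02 : m0 ≠ m2) (h12 : m1 ≠ m2)
    (hJ : JoinedIn (Set.range (SP ok D hub))ᶜ (D.pt (m2, 0)) (D.pt (m0, 0))) :
    pr ok D m0 hub (D.pt (m1, 0)) = pr ok D m0 hub (D.pt (m2, 0)) ∨
      pr ok D m1 hub (D.pt (m0, 0)) = pr ok D m1 hub (D.pt (m2, 0)) := by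
  have m2h := (h2.spec ok).2.2
  obtain ⟨δ, hδ⟩ := hJ
  set B : Set ℂ := arm ok D m0 ∪ arm ok D m1 with hB
  have hBc : IsClosed B := (arm_closed ok D m0).union (arm_closed ok D m1)
  have hcl : IsCompact {t : unitInterval | δ t ∈ B} :=
    (hBc.preimage δ.continuous).isCompact
  have hne : {t : unitInterval | δ t ∈ B}.Nonempty := by
    refine ⟨1, ?_⟩
    show δ 1 ∈ B
    rw [δ.target]
    exact Or.inl (Or.inl ⟨1, (SP ok D m0).target⟩)
  obtain ⟨s, hsB, hs⟩ := hcl.exists_isLeast hne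
  have hm2 : D.pt (m2, 0) ∉ B := by
    rintro ((h | h) | (h | h))
    · exact pt_spoke ok D r2.hv r0.hv h02.symm h
    · exact pt_edge ok D r2.hv h0 h02.symm m2h h
    · exact pt_spoke ok D r2.hv r1.hv h12.symm h
    · exact pt_edge ok D r2.hv h1 h12.symm m2h h
  have hsS : δ s ∉ Set.range (SP ok D hub) := hδ s
  -- the first part of the path
  have first : ∀ v, arm ok D v ⊆ B → δ s ∉ cv ok D v hub →
      JoinedIn (cv ok D v hub)ᶜ (D.pt (m2, 0)) (δ s) := by
    intro v hvB hsv
    have hpc : IsPathConnected (Set.Icc (0 : ℝ) (s : ℝ)) :=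
      (convex_Icc _ _).isPathConnected ⟨0, by simp [s.2.1]⟩
    have himg := hpc.image δ.continuous_extend
    have e1 : D.pt (m2, 0) ∈ δ.extend '' Set.Icc (0 : ℝ) (s : ℝ) :=
      ⟨0, ⟨le_refl _, s.2.1⟩, by rw [Path.extend_zero]⟩
    have e2 : δ s ∈ δ.extend '' Set.Icc (0 : ℝ) (s : ℝ) :=
      ⟨s, ⟨s.2.1, le_refl _⟩, by rw [Path.extend_apply _ s.2]⟩
    refine (himg.joinedIn _ e1 _ e2).mono ?_
    rintro _ ⟨t, ht, rfl⟩
    have ht1 : t ≤ 1 := ht.2.trans s.2.2
    rw [Path.extend_apply _ ⟨ht.1, ht1⟩]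
    intro hmem
    rw [cv_hub ok D] at hmem
    rcases hmem with hmem | hmem
    · exact hδ _ hmem
    · have hle := hs (show (⟨t, ⟨ht.1, ht1⟩⟩ : unitInterval) ∈ {t : unitInterval | δ t ∈ B} from
        hvB hmem)
      have hle' : (s : ℝ) ≤ t := hle
      have hts : t = s := le_antisymm ht.2 hle'
      apply hsv
      rw [cv_hub ok D]
      right
      have : (⟨t, ⟨ht.1, ht1⟩⟩ : unitInterval) = s := Subtype.ext hts
      rwa [this] at hmem
  rcases hsB with hsB | hsB
  · right
    have hn := arm_arm ok D r0 r1 h0 h1 h01 hsB hsS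
    refine Eq.symm (pr_eq ok D ((first m1 Set.subset_union_right hn).trans ?_))
    refine (arm_joined ok D r0 h0 hsB hsS).mono ?_
    rintro x ⟨hx, hx'⟩
    exact arm_arm ok D r0 r1 h0 h1 h01 hx hx'
  · left
    have hn := arm_arm ok D r1 r0 h1 h0 h01.symm hsB hsS
    refine Eq.symm (pr_eq ok D ((first m0 Set.subset_union_left hn).trans ?_))
    refine (arm_joined ok D r1 h1 hsB hsS).mono ?_
    rintro x ⟨hx, hx'⟩
    exact arm_arm ok D r1 r0 h1 h0 h01.symm hx hx'

/-- An edge not at the hub does not meet the spoke of the hub. -/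
theorem hub_joined {x y : ℕ × ℕ} (h : I.HAdj x y) (hx : x ≠ hub) (hy : y ≠ hub) :
    JoinedIn (Set.range (SP ok D hub))ᶜ (D.pt (x, 0)) (D.pt (y, 0)) :=
  edge_joined ok D (edge_spoke ok D h hv_hub hx.symm hy.symm (Or.inl rv_hub))

/-- Linked blocks are linked outside the spoke of the hub. -/
theorem conn {k : ℕ} (hk : k < I.K) :
    JoinedIn (Set.range (SP ok D hub))ᶜ (D.pt (mid I (I.src k), 0))
      (D.pt (mid I (I.tgt k), 0)) := by
  have hi := ok.hsrc k hk
  have hj := ok.htgt k hk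
  have p1 : ∀ r ≤ I.T, JoinedIn (Set.range (SP ok D hub))ᶜ (D.pt (mid I (I.src k), 0))
      (D.pt (pv I (I.src k) (I.prt k) r, 0)) := by
    intro r
    induction r with
    | zero =>
      intro _
      exact hub_joined ok D (hadj_mid_pv0 hi _) (mid_ne_hub _) (pv_ne_hub _ _ _)
    | succ r ih =>
      intro hr
      exact (ih (by omega)).trans (hub_joined ok D (hadj_pv hi (by omega)) (pv_ne_hub _ _ _)
        (pv_ne_hub _ _ _))
  have p2 : ∀ r ≤ I.T, JoinedIn (Set.range (SP ok D hub))ᶜ (D.pt (mid I (I.tgt k), 0))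
      (D.pt (av I (I.tgt k) k r, 0)) := by
    intro r
    induction r with
    | zero =>
      intro _
      exact hub_joined ok D (hadj_mid_av hj hk) (mid_ne_hub _) (av_ne_hub _ _ _)
    | succ r ih =>
      intro hr
      exact (ih (by omega)).trans (hub_joined ok D (hadj_av hj hk (by omega)) (av_ne_hub _ _ _)
        (av_ne_hub _ _ _))
  exact ((p1 _ le_rfl).trans (hub_joined ok D (hadj_con ok hk) (pv_ne_hub _ _ _)
    (av_ne_hub _ _ _))).trans (p2 _ le_rfl).symm

/-- Linked blocks. -/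
def Linked (I : FI) (i l : ℕ) : Prop :=
  ∃ k < I.K, (I.src k = i ∧ I.tgt k = l) ∨ (I.src k = l ∧ I.tgt k = i)

theorem conn' {i l : ℕ} (h : Linked I i l) :
    JoinedIn (Set.range (SP ok D hub))ᶜ (D.pt (mid I i, 0)) (D.pt (mid I l, 0)) := by
  obtain ⟨k, hk, ⟨rfl, rfl⟩ | ⟨rfl, rfl⟩⟩ := h
  · exact conn ok D hk
  · exact (conn ok D hk).symm

include ok in
/-- The facing function of a drawing. -/
theorem snd (D : PD I.G I.T) : ∃ F : ℕ → ℕ → ZMod 2,
    (∀ k < I.K, F (I.src k) (I.tgt k) = if I.prt k = 1 then 1 else 0) ∧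
    (∀ i j l, i < I.E → j < I.E → l < I.E → i ≠ j → i ≠ l → j ≠ l →
      (F i j + F i l) + (F j i + F j l) + (F l i + F l j) = 1) ∧
    (∀ i j l, i < I.E → j < I.E → l < I.E → i ≠ j → i ≠ l → j ≠ l → Linked I i l →
      F i j = F i l ∨ F j i = F j l) := by
  have hlt := I.lt_c2
  have n02 : I.T ≠ I.c2 := by omega
  have n12 : I.T + 1 ≠ I.c2 := by omega
  have n01 : I.T ≠ I.T + 1 := by omega
  -- the middle of a block and its last vertex are on the same side
  have side : ∀ i j, i < I.E → j < I.E → i ≠ j →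
      pr ok D (bv i I.c2) hub (D.pt (bv j I.c2, 0)) =
        pr ok D (bv i I.c2) hub (D.pt (mid I j, 0)) := by
    intro i j hi hj hij
    exact (edge_pr ok D (near_hub ok D (hadj_loc hj loc12) (rv_bv hi rig2) (bv_ne_hub _ _)
      (rv_bv hj rig1) (bv_ne_hub _ _) (bv_ne (Or.inl hij.symm)) (bv_ne_hub _ _)
      (bv_ne (Or.inl hij.symm)))).symm
  refine ⟨fun i j => pr ok D (bv i I.c2) hub (D.pt (mid I j, 0)) +
    pr ok D (bv i I.c2) hub (D.pt (mid I i, 0)), ?_, ?_, ?_⟩
  · intro k hk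
    have hp := port ok D hk
    have hi := ok.hsrc k hk
    have hj := ok.htgt k hk
    have hij := ok.hne k hk
    beta_reduce
    by_cases he : I.prt k = 1
    · rw [if_pos he]
      have e0 : pv I (I.src k) (I.prt k) 0 = bv (I.src k) I.c2 := by
        unfold pv
        rw [if_pos he, Nat.add_zero]
      rw [e0] at hp
      revert hp
      generalize pr ok D (bv (I.src k) I.c2) hub (D.pt (mid I (I.src k), 0)) = a1
      generalize pr ok D (bv (I.src k) I.c2) hub (D.pt (mid I (I.tgt k), 0)) = a2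
      revert a1 a2
      decide
    · rw [if_neg he]
      have e0 : pv I (I.src k) (I.prt k) 0 = bv (I.src k) I.T := by
        unfold pv
        rw [if_neg he, Nat.sub_zero]
      rw [e0] at hp
      have m01 : bv (I.src k) I.T ≠ bv (I.src k) I.c2 := bv_ne (Or.inr n02)
      have m02 : bv (I.src k) I.T ≠ mid I (I.tgt k) := bv_ne (Or.inl hij)
      have m12 : bv (I.src k) I.c2 ≠ mid I (I.tgt k) := bv_ne (Or.inl hij)
      have hJ : JoinedIn (Set.range (SP ok D hub))ᶜ (D.pt (mid I (I.tgt k), 0))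
          (D.pt (bv (I.src k) I.T, 0)) :=
        (conn ok D hk).symm.trans (hub_joined ok D (hadj_loc hi loc01).symm (bv_ne_hub _ _)
          (bv_ne_hub _ _))
      have h1 : pr ok D (bv (I.src k) I.T) hub (D.pt (mid I (I.src k), 0)) =
          pr ok D (bv (I.src k) I.T) hub (D.pt (bv (I.src k) I.c2, 0)) :=
        edge_pr ok D (near_hub ok D (hadj_loc hi loc12) (rv_bv hi rig0) (bv_ne_hub _ _)
          (rv_bv hi rig1) (bv_ne_hub _ _) (bv_ne (Or.inr n01.symm)) (bv_ne_hub _ _) m01.symm)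
      have h2 : pr ok D (bv (I.src k) I.c2) hub (D.pt (bv (I.src k) I.T, 0)) =
          pr ok D (bv (I.src k) I.c2) hub (D.pt (mid I (I.src k), 0)) :=
        edge_pr ok D (near_hub ok D (hadj_loc hi loc01) (rv_bv hi rig2) (bv_ne_hub _ _)
          (rv_bv hi rig0) (bv_ne_hub _ _) m01 (bv_ne_hub _ _) (bv_ne (Or.inr n12)))
      rcases at_most_one ok D (rv_bv hi rig0) (rv_bv hi rig2) (rv_bv hj rig1)
        (hadj_hub hi rig0) (hadj_hub hi rig2) (hadj_hub hj rig1) m01 m02 m12 hJ with h | h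
      · exact absurd (h1.trans h) hp
      · have h3 := h2.symm.trans h
        show pr ok D (bv (I.src k) I.c2) hub (D.pt (mid I (I.tgt k), 0)) +
          pr ok D (bv (I.src k) I.c2) hub (D.pt (mid I (I.src k), 0)) = 0
        rw [h3]
        exact CharTwo.add_self_eq_zero _
  · intro i j l hi hj hl hij hil hjl
    have th := theta3 ok D rv_hub (hadj_hub hi rig2) (hadj_hub hj rig2) (hadj_hub hl rig2)
      (bv_ne (Or.inl hij)) (bv_ne (Or.inl hil)) (bv_ne (Or.inl hjl))
    rw [side i j hi hj hij, side i l hi hl hil, side j i hj hi hij.symm, side j l hj hl hjl,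
      side l i hl hi hil.symm, side l j hl hj hjl.symm] at th
    rw [← th]
    have two : ∀ a b c : ZMod 2, (a + c) + (b + c) = a + b := by decide
    simp only [two]
  · intro i j l hi hj hl hij hil hjl hL
    have hJ : JoinedIn (Set.range (SP ok D hub))ᶜ (D.pt (bv l I.c2, 0))
        (D.pt (bv i I.c2, 0)) :=
      ((hub_joined ok D (hadj_loc hl loc12).symm (bv_ne_hub _ _) (bv_ne_hub _ _)).trans
        (conn' ok D hL).symm).trans (hub_joined ok D (hadj_loc hi loc12) (bv_ne_hub _ _)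
          (bv_ne_hub _ _))
    have h := at_most_one ok D (rv_bv hi rig2) (rv_bv hj rig2) (rv_bv hl rig2)
      (hadj_hub hi rig2) (hadj_hub hj rig2) (hadj_hub hl rig2) (bv_ne (Or.inl hij))
      (bv_ne (Or.inl hil)) (bv_ne (Or.inl hjl)) hJ
    rw [side i j hi hj hij, side i l hi hl hil, side j i hj hi hij.symm,
      side j l hj hl hjl] at h
    rcases h with h | h
    · exact Or.inl (by beta_reduce; rw [h])
    · exact Or.inr (by beta_reduce; rw [h])

end Pool.Agent.V7H65.LP
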